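import Pool.Agent.H97.V0F.Ac
import Pool.Agent.H44.V0F.Ev2

/-!
# The codes of the velocities of the base coordinates

`Ecd`: the codes of order `1` of the own paths of the base coordinates at the window `W`, functions of
the line. `ec_few`: the velocities at the time of the sample and these codes determine each other, up
to the codes of order `≥ 2`.
-/

set_option autoImplicit false

namespace Pool.VG83

open Finset Real MvPolynomial
open Pool.Agent.H49.Ent Pool.Agent.H32.Dense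
open Pool.STK hiding pr2
open Pool.KA Pool.KSAT Pool.K2S Pool.PB Pool.S6C
open Pool.GEN Pool.CHT Pool.CHX Pool.ISO Pool.LA91 Pool.AVG71 Pool.AVG5
open Pool.AVG57 hiding cod
open Pool.PB.Trl (rt rt_mem t_rt)
open Pool.V0F (jv)

variable {m J : ℕ}

/-- **The codes of the velocities** at the window `W`. -/
noncomputable def Ecd (F : Fam m J) (c : ℕ → Fin m) (k w W : ℕ)
    (H : LnT F → ℕ → MvPolynomial (Option (Fin m)) ℝ) (P : ℕ → ℝ) (ω : F.Ω) (l : Fin k) : ℤ :=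
  ⌊(2 : ℝ) ^ (P l * J + W) *
    (dv W (fun s (_ : Fin m) => H (upw w W s) l) (c l) (slam F W ω)).coeff 1⌋

theorem ecd_det (F : Fam m J) (c : ℕ → Fin m) (k w W : ℕ)
    (H : LnT F → ℕ → MvPolynomial (Option (Fin m)) ℝ) (P : ℕ → ℝ) (p : F.Ω → ℝ) :
    Det p (slam F W) (Ecd F c k w W H P) := fun ω ν _ _ e => by
  funext l
  unfold Ecd
  rw [e]

section

variable {F : Fam m J} {c : ℕ → Fin m} {k w W : ℕ}
  {H : LnT F → ℕ → MvPolynomial (Option (Fin m)) ℝ}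

/-- The jets of the own path in the window. -/
theorem jt_own (hwW : w ≤ W) (hW : W ≤ J) (ω : F.Ω) (l a : ℕ) :
    jt (dv W (fun s (_ : Fin m) => H (upw w W s) l) (c l) (slam F W ω)) (rt F W ω) a =
      ojet F (c l) a (H (slam F w ω) l) ω / ((a.factorial : ℝ) * (2 ^ W) ^ a) := by
  have h1 := ojet_tay F hW ω (c l) (fun s (_ : Fin m) => H (upw w W s) l) a
  rw [upw_slam F hwW hW] at h1
  rw [← h1]
  rfl

theorem jt_own1 (hwW : w ≤ W) (hW : W ≤ J) (ω : F.Ω) (l : ℕ) :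
    jt (dv W (fun s (_ : Fin m) => H (upw w W s) l) (c l) (slam F W ω)) (rt F W ω) 1 =
      ojet F (c l) 1 (H (slam F w ω) l) ω / 2 ^ W := by
  rw [jt_own hwW hW]
  simp

theorem rt_eq {ω ν : F.Ω} (e : F.W ω = F.W ν) : rt F W ω = rt F W ν := by
  have h : F.T ω = F.T ν := (Prod.ext_iff.mp e).1
  unfold rt
  rw [h]

/-- The code of order `1` from the velocity. -/
theorem ec_a {D K : ℕ} (hwW : w ≤ W) (hW : W ≤ J) (hH : ∀ s l, (H s l).totalDegree ≤ D)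
    (hK : D + 1 ≤ K) {P : ℕ → ℝ} {N l : ℕ} (hN : P l * J + W ≤ N) {ω ν : F.Ω}
    (e1 : ⌊(2 : ℝ) ^ (P l * J) * ojet F (c l) 1 (H (slam F w ω) l) ω⌋ =
      ⌊(2 : ℝ) ^ (P l * J) * ojet F (c l) 1 (H (slam F w ν) l) ν⌋) (e2 : F.W ω = F.W ν)
    (e3 : cod F W 2 K (2 ^ N) (c l) (fun s => upw w W s) (fun s => H s l) ω =
      cod F W 2 K (2 ^ N) (c l) (fun s => upw w W s) (fun s => H s l) ν) :
    |((⌊(2 : ℝ) ^ (P l * J + W) *
        (dv W (fun s (_ : Fin m) => H (upw w W s) l) (c l) (slam F W ω)).coeff 1⌋ : ℤ) : ℝ) -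
      (⌊(2 : ℝ) ^ (P l * J + W) *
        (dv W (fun s (_ : Fin m) => H (upw w W s) l) (c l) (slam F W ν)).coeff 1⌋ : ℤ)| ≤
      2 ^ (K + 1) * 2 ^ (K + 1) + 1 := by
  obtain ⟨A, hA⟩ : ∃ A : F.Ω → Polynomial ℝ, A = fun o => dv W (fun s (_ : Fin m) =>
    H (upw w W s) l) (c l) (slam F W o) := ⟨_, rfl⟩
  have hdA : ∀ o, (A o).natDegree ≤ K := fun o => by
    rw [hA]
    exact (natDegree_dv W (G := fun s (_ : Fin m) => H (upw w W s) l) (fun s _ => hH _ _) _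
      _).trans hK
  have hθ : |rt F W ω| ≤ 1 := by
    have h := rt_mem F W ω
    rw [abs_le]
    constructor <;> linarith [h.1, h.2]
  obtain ⟨δ, hδ⟩ : ∃ δ : ℝ, δ = 1 / 2 ^ (P l * J + W) := ⟨_, rfl⟩
  have hp : (0 : ℝ) < 2 ^ (P l * J + W) := Real.rpow_pos_of_pos two_pos _
  have hp1 : (0 : ℝ) < 2 ^ (P l * J) := Real.rpow_pos_of_pos two_pos _
  have hδ0 : 0 ≤ δ := by rw [hδ]; positivity
  have hk1 : (1 : ℝ) ≤ 2 ^ (K + 1) := one_le_pow₀ (by norm_num)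
  have hsp : (2 : ℝ) ^ (P l * J + W) = 2 ^ (P l * J) * 2 ^ W := by
    rw [Real.rpow_add two_pos, Real.rpow_natCast]
  have h2 : ∀ i, 2 ≤ i → i ≤ K → |(A ω).coeff i - (A ν).coeff i| ≤ δ := by
    intro i hi hiK
    have h := congrFun e3 ⟨i, by omega⟩
    unfold cod at h
    simp only [if_pos hi] at h
    have h3 := of_fl (σ := (2 : ℝ) ^ N) (by positivity) h
    rw [hA, hδ]
    refine h3.trans (one_div_le_one_div_of_le hp ?_)
    rw [← Real.rpow_natCast]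
    exact Real.rpow_le_rpow_of_exponent_le one_le_two hN
  have h1 : |jt (A ω) (rt F W ω) 1 - jt (A ν) (rt F W ω) 1| ≤ δ := by
    have e4 : jt (A ν) (rt F W ω) 1 = jt (A ν) (rt F W ν) 1 := by rw [rt_eq e2]
    rw [e4, hA]
    show |jt (dv W (fun s (_ : Fin m) => H (upw w W s) l) (c l) (slam F W ω)) (rt F W ω) 1 -
      jt (dv W (fun s (_ : Fin m) => H (upw w W s) l) (c l) (slam F W ν)) (rt F W ν) 1| ≤ δ
    rw [jt_own1 hwW hW, jt_own1 hwW hW, ← sub_div, abs_div, abs_of_pos (by positivity : (0 : ℝ) <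
      2 ^ W), hδ, hsp, ← div_div]
    refine div_le_div_of_nonneg_right ?_ (by positivity)
    exact of_fl hp1 e1
  have h4 := co_sub (hdA ω) (hdA ν) hθ (δ := 2 ^ (K + 1) * δ) (by positivity) (a := 1)
    fun i hi _ => by
      rcases Nat.lt_or_ge 1 i with h | h
      · exact jt_dif (hdA ω) (hdA ν) hθ hδ0 fun j hj hjK => h2 j (by omega) hjK
      · have h5 : i = 1 := le_antisymm h hi
        rw [h5]
        exact h1.trans (le_mul_of_one_le_left hδ0 hk1)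
  have h5 := fl_mul hp.le h4
  rw [hA] at h5
  refine h5.trans (le_of_eq ?_)
  rw [hδ]
  field_simp

/-- The velocity from the code of order `1`. -/
theorem ec_b {D K : ℕ} (hwW : w ≤ W) (hW : W ≤ J) (hH : ∀ s l, (H s l).totalDegree ≤ D)
    (hK : D + 1 ≤ K) {P : ℕ → ℝ} {N l : ℕ} (hN : P l * J + W ≤ N) {ω ν : F.Ω}
    (e1 : ⌊(2 : ℝ) ^ (P l * J + W) *
        (dv W (fun s (_ : Fin m) => H (upw w W s) l) (c l) (slam F W ω)).coeff 1⌋ =
      ⌊(2 : ℝ) ^ (P l * J + W) *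
        (dv W (fun s (_ : Fin m) => H (upw w W s) l) (c l) (slam F W ν)).coeff 1⌋)
    (e2 : F.W ω = F.W ν)
    (e3 : cod F W 2 K (2 ^ N) (c l) (fun s => upw w W s) (fun s => H s l) ω =
      cod F W 2 K (2 ^ N) (c l) (fun s => upw w W s) (fun s => H s l) ν) :
    |((⌊(2 : ℝ) ^ (P l * J) * ojet F (c l) 1 (H (slam F w ω) l) ω⌋ : ℤ) : ℝ) -
      (⌊(2 : ℝ) ^ (P l * J) * ojet F (c l) 1 (H (slam F w ν) l) ν⌋ : ℤ)| ≤
      2 ^ (K + 1) * 2 ^ (K + 1) + 1 := by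
  obtain ⟨A, hA⟩ : ∃ A : F.Ω → Polynomial ℝ, A = fun o => dv W (fun s (_ : Fin m) =>
    H (upw w W s) l) (c l) (slam F W o) := ⟨_, rfl⟩
  have hdA : ∀ o, (A o).natDegree ≤ K := fun o => by
    rw [hA]
    exact (natDegree_dv W (G := fun s (_ : Fin m) => H (upw w W s) l) (fun s _ => hH _ _) _
      _).trans hK
  have hθ : |rt F W ω| ≤ 1 := by
    have h := rt_mem F W ω
    rw [abs_le]
    constructor <;> linarith [h.1, h.2]
  obtain ⟨δ, hδ⟩ : ∃ δ : ℝ, δ = 1 / 2 ^ (P l * J + W) := ⟨_, rfl⟩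
  have hp : (0 : ℝ) < 2 ^ (P l * J + W) := Real.rpow_pos_of_pos two_pos _
  have hp1 : (0 : ℝ) < 2 ^ (P l * J) := Real.rpow_pos_of_pos two_pos _
  have hδ0 : 0 ≤ δ := by rw [hδ]; positivity
  have hk1 : (1 : ℝ) ≤ 2 ^ (K + 1) := one_le_pow₀ (by norm_num)
  have hsp : (2 : ℝ) ^ (P l * J + W) = 2 ^ (P l * J) * 2 ^ W := by
    rw [Real.rpow_add two_pos, Real.rpow_natCast]
  have h2 : ∀ i, 1 ≤ i → i ≤ K → |(A ω).coeff i - (A ν).coeff i| ≤ δ := by
    intro i hi hiK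
    rcases Nat.lt_or_ge 1 i with h' | h'
    · have h := congrFun e3 ⟨i, by omega⟩
      unfold cod at h
      have hi2 : 2 ≤ i := h'
      simp only [if_pos hi2] at h
      have h3 := of_fl (σ := (2 : ℝ) ^ N) (by positivity) h
      rw [hA, hδ]
      refine h3.trans (one_div_le_one_div_of_le hp ?_)
      rw [← Real.rpow_natCast]
      exact Real.rpow_le_rpow_of_exponent_le one_le_two hN
    · have h5 : i = 1 := le_antisymm h' hi
      rw [h5, hA, hδ]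
      exact of_fl hp e1
  have h4 := jt_dif (hdA ω) (hdA ν) hθ hδ0 h2
  have e4 : jt (A ν) (rt F W ω) 1 = jt (A ν) (rt F W ν) 1 := by rw [rt_eq e2]
  rw [e4, hA] at h4
  have h6 : |jt (dv W (fun s (_ : Fin m) => H (upw w W s) l) (c l) (slam F W ω)) (rt F W ω) 1 -
      jt (dv W (fun s (_ : Fin m) => H (upw w W s) l) (c l) (slam F W ν)) (rt F W ν) 1| ≤
      2 ^ (K + 1) * δ := h4
  rw [jt_own1 hwW hW, jt_own1 hwW hW, ← sub_div, abs_div, abs_of_pos (by positivity : (0 : ℝ) <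
    2 ^ W), div_le_iff₀ (by positivity)] at h6
  have h7 := fl_mul hp1.le h6
  refine h7.trans ?_
  have h8 : (2 : ℝ) ^ (P l * J) * (2 ^ (K + 1) * δ * 2 ^ W) = 2 ^ (K + 1) := by
    rw [hδ, hsp]
    field_simp
  rw [h8]
  have : (2 : ℝ) ^ (K + 1) ≤ 2 ^ (K + 1) * 2 ^ (K + 1) := le_mul_of_one_le_left (by positivity) hk1
  linarith

/-- **The velocities and their codes.** -/
theorem ec_few (K : ℕ) : ∃ C : ℝ, 0 ≤ C ∧ ∀ {m J : ℕ} {F : Fam m J} {c : ℕ → Fin m}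
    {k w W D : ℕ} {H : LnT F → ℕ → MvPolynomial (Option (Fin m)) ℝ} {p : F.Ω → ℝ} {P : ℕ → ℝ}
    {N : ℕ → ℕ} {e : ℝ}, IsLaw p → w ≤ W → W ≤ J → (∀ s l, (H s l).totalDegree ≤ D) →
    D + 1 ≤ K → (∀ l < k, P l * J + W ≤ N l) →
    (∀ l < k, CH p (cod F W 2 K (2 ^ N l) (c l) (fun s => upw w W s) (fun s => H s l)) F.W ≤ e) →
    CH p (Ecd F c k w W H P) (fun ω => (jv F c k w H P ω, F.W ω)) ≤ k * e + k * C ∧
    CH p (jv F c k w H P) (fun ω => (Ecd F c k w W H P ω, F.W ω)) ≤ k * e + k * C := by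
  refine ⟨Real.log (2 * (2 ^ (K + 1) * 2 ^ (K + 1) + 1) + 1), Real.log_nonneg (by
    have : (0 : ℝ) < 2 ^ (K + 1) * 2 ^ (K + 1) := by positivity
    linarith), ?_⟩
  intro m J F c k w W D H p P N e hp hwW hW hH hK hN hcod
  have h0 := hp.nonneg
  obtain ⟨Q, hQ⟩ : ∃ Q : F.Ω → Fin k → Fin (K + 1) → ℤ, Q = fun ω (l : Fin k) =>
    cod F W 2 K (2 ^ N l) (c l) (fun s => upw w W s) (fun s => H s l) ω := ⟨_, rfl⟩
  have hQe : ∀ {α : Type} (Z : F.Ω → α), Det p Z F.W → CH p Q Z ≤ k * e := by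
    intro α Z hZ
    refine ch_vec h0 Z k Q fun l => ?_
    refine le_trans (CH_mono_cond h0 hZ) ?_
    rw [hQ]
    exact hcod l l.2
  constructor
  · have s1 := CH_le_add h0 (Ecd F c k w W H P) Q (fun ω => (jv F c k w H P ω, F.W ω))
    have s2 := hQe (fun ω => (jv F c k w H P ω, F.W ω)) fun ω ν _ _ e => (Prod.ext_iff.mp e).2
    have s3 := CH_near (ι := Fin k) hp (Ecd F c k w W H P)
      (fun ω => (Q ω, (jv F c k w H P ω, F.W ω))) (D := 2 ^ (K + 1) * 2 ^ (K + 1) + 1)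
      (by positivity) (by
        intro ω ν hω hν e i
        obtain ⟨a1, a2⟩ := Prod.ext_iff.mp e
        obtain ⟨a3, a4⟩ := Prod.ext_iff.mp a2
        have b1 := congrFun a1 i
        rw [hQ] at b1
        exact ec_a hwW hW hH hK (hN i i.2) (congrFun a3 i) a4 b1)
    rw [Fintype.card_fin] at s3
    linarith
  · have s1 := CH_le_add h0 (jv F c k w H P) Q (fun ω => (Ecd F c k w W H P ω, F.W ω))
    have s2 := hQe (fun ω => (Ecd F c k w W H P ω, F.W ω)) fun ω ν _ _ e => (Prod.ext_iff.mp e).2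
    have s3 := CH_near (ι := Fin k) hp (jv F c k w H P)
      (fun ω => (Q ω, (Ecd F c k w W H P ω, F.W ω))) (D := 2 ^ (K + 1) * 2 ^ (K + 1) + 1)
      (by positivity) (by
        intro ω ν hω hν e i
        obtain ⟨a1, a2⟩ := Prod.ext_iff.mp e
        obtain ⟨a3, a4⟩ := Prod.ext_iff.mp a2
        have b1 := congrFun a1 i
        rw [hQ] at b1
        exact ec_b hwW hW hH hK (hN i i.2) (congrFun a3 i) a4 b1)
    rw [Fintype.card_fin] at s3
    linarith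

end

end Pool.VG83
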