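import Pool.Agent.H83.VT.Vcg
import Pool.Agent.H44.V0F.Evd
import Pool.Agent.H64.LV.Evc

/-!
# Base coordinates over the charts of an earlier window, any target, side path: statement

`GW`: the windows and the room. `GEv`: the inputs on one event: the target is the place `t` over any
closed label `H · t`, the side path `sd` is any function of the line, `M1`, `M2` are near and far
digits of the side coordinate. `V0gStmt`: the gradient field `gg` in the directions of the base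
coordinates is closed.
-/

set_option autoImplicit false

namespace Pool.VG83

open Finset Real MvPolynomial
open Pool.Agent.H49.Ent Pool.Agent.H32.Dense
open Pool.STK hiding pr2
open Pool.KA Pool.KSAT Pool.K2S Pool.PB Pool.S6C
open Pool.GEN Pool.CHT Pool.CHX Pool.ISO Pool.LA91 Pool.AVG71 Pool.AVG5 Pool.D2F2 Pool.AVG57
open Pool.RCD Pool.AVG96 Pool.V0F
open Pool.AJW (CfB)
open Pool.LV64 (GrdV)
open Pool.BFL (Pb)
open Pool.PB.Trl (rt)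

/-- **The windows and the room.** `w`: the window of the frame, `u`: the unit, `j`, `x`: the windows
of the near digits, `xr`: the window of the rows, `x'`: the last window. -/
structure GW (k : ℕ) (sn : ℕ → ℝ → ℝ) (G : Set ℝ) (b o φ w u y ξ T Λ : ℝ) (w₁ : ℚ)
    (j x xr x' : ℝ) : Prop where
  u0 : 0 < u
  yφ : ((k : ℝ) + 3) * φ ≤ y
  wG : w ∈ G
  jG : j ∈ G
  xG : x ∈ G
  rG : xr ∈ G
  xG' : x' ∈ G
  hw1 : w ≤ w₁
  hw2 : (w₁ : ℝ) ≤ w + φ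
  wj : w₁ ≤ j
  jx : j ≤ x
  hx : |x - (w + u)| ≤ φ
  hxr : |xr - (w + (1 + ξ) * u + 600 * y)| ≤ φ
  hx' : |x' - (w + T * u)| ≤ φ
  bw : b + Λ * u ≤ w
  wo : w + Λ * u ≤ o
  o1 : o + Λ * u ≤ 1
  b0 : Λ * u ≤ b
  lb : ∀ l < k, Λ * u ≤ sn l b ∧ sn l o + Λ * u ≤ 1

/-- **The inputs on one event.** Target: the place `t` over the label `H · t`, its digits `q` and
`q + X` behind `γ t`. `jh`, `jv`: positions and velocities of the base coordinates. -/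
structure GEv {m J : ℕ} (F : Fam m J) (c : ℕ → Fin m) (k t D' q X Cg : ℕ) (sn : ℕ → ℝ → ℝ)
    (w u y φ ξ T : ℝ) (w₁ : ℚ) (j x xr x' h E π₀ δ : ℝ) (A : F.Ω → Prop)
    (G₀ : PtT F → ℕ → MvPolynomial (Option (Fin m)) ℝ)
    (H : LnT F → ℕ → MvPolynomial (Option (Fin m)) ℝ) (γ : ℕ → ℕ) (gg : F.Ω → Fin k → ℝ)
    {χ₁ χ₂ μ₁ μ₂ σ : Type} (Cj : F.Ω → χ₁) (Cx : F.Ω → χ₂) (M1 : F.Ω → μ₁) (M2 : F.Ω → μ₂)
    (sd : F.Ω → σ) : Prop where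
  deg : ∀ s l, (H s l).totalDegree ≤ D'
  /-- the labels are closed -/
  cl : ∀ ω, A ω → G₀ (ptr F J ω) t = H (slam F ⌊w * J⌋₊ ω) t ∧
    ∀ l < k, G₀ (ptr F J ω) l = H (slam F ⌊w * J⌋₊ ω) l
  γb : ∀ l < k, (sn l w - φ) * J ≤ γ l ∧ (γ l : ℝ) ≤ sn l w * J
  cf : CfB F ⌊w * J⌋₊ E (c t) A (fun s => s) (fun s => H s t)
  /-- the gradients -/
  grd : GrdV F c (fun i : Fin k => (i : ℕ)) (fun _ : Fin 1 => t) (fun _ => q) (fun _ => X) q X γ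
    (2 ^ (Cg * (⌈1000 * y * J⌉₊ + 3))) A G₀ (fun ω _ => gg ω) (fun _ => ()) Cj Cx
  hj : Det (Pool.Agent.H49.Ent.cond F.p A True) (cR F A j) Cj
  hx : Det (Pool.Agent.H49.Ent.cond F.p A True) (cR F A x) Cx
  /-- the side path is a function of the line -/
  sl : Det (Pool.Agent.H49.Ent.cond F.p A True) (slam F ⌊w * J⌋₊) sd
  /-- near digits -/
  n1 : CH (Pool.Agent.H49.Ent.cond F.p A True)
    (fun ω => (Mh F c t ⌊w * J⌋₊ H (γ t + q) ω, M1 ω))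
    (fun ω => (jh F c k ⌊w * J⌋₊ H (fun l => sn l w + u + 100 * y) ω,
      (cR F A j ω, F.W ω))) ≤ δ * u * J
  /-- far digits -/
  n2 : CH (Pool.Agent.H49.Ent.cond F.p A True) (Mh F c t ⌊w * J⌋₊ H (γ t + q + X))
    (fun ω => (cR F A xr ω, F.W ω)) ≤ δ * u * J
  m2 : CH (Pool.Agent.H49.Ent.cond F.p A True) M2 (fun ω => (cR F A x' ω, F.W ω)) ≤ δ * u * J
  mm : CH (Pool.Agent.H49.Ent.cond F.p A True) M1 M2 ≤ δ * u * J
  /-- no look-ahead -/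
  nl : CH (Pool.Agent.H49.Ent.cond F.p A True)
    (fun ω => (Mh F c t ⌊w * J⌋₊ H (γ t + q + X) ω, M2 ω))
    (fun ω => ((Mh F c t ⌊w * J⌋₊ H (γ t + q) ω, M1 ω),
      ((fun l : Fin k => F.X J ω (c l)), (cR F A w₁ ω, F.W ω)))) ≤
    CH (Pool.Agent.H49.Ent.cond F.p A True)
      (fun ω => (Mh F c t ⌊w * J⌋₊ H (γ t + q + X) ω, M2 ω))
      (fun ω => ((fun l : Fin k => F.X J ω (c l)), (cR F A j ω, F.W ω))) + δ * u * J
  /-- the side digits from the near path and the record at `x` -/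
  sa : CH (Pool.Agent.H49.Ent.cond F.p A True) sd
    (fun ω => ((jh F c k ⌊w * J⌋₊ H (fun l => sn l w + u + 100 * y) ω,
      jv F c k ⌊w * J⌋₊ H (fun l => sn l w - w + T * u) ω), (cR F A x ω, F.W ω))) ≤ δ * u * J
  /-- the side digits from the near digits of the target, the digits of the side coordinate and the
  far path -/
  sm : CH (Pool.Agent.H49.Ent.cond F.p A True) sd
    (fun ω => (Mh F c t ⌊w * J⌋₊ H (γ t + q) ω, (M2 ω,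
      ((jh F c k ⌊w * J⌋₊ H (fun l => sn l w + T * u) ω,
        jv F c k ⌊w * J⌋₊ H (fun l => sn l w - w + T * u) ω), (cR F A w₁ ω, F.W ω))))) ≤
    δ * u * J
  ms : CH (Pool.Agent.H49.Ent.cond F.p A True) M2
    (fun ω => (sd ω, ((jh F c k ⌊w * J⌋₊ H (fun l => sn l w + T * u) ω,
      jv F c k ⌊w * J⌋₊ H (fun l => sn l w - w + T * u) ω), (cR F A w₁ ω, F.W ω)))) ≤
    δ * u * J
  /-- the codes of order `≥ 1` of the target -/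
  dj : CH (Pool.Agent.H49.Ent.cond F.p A True)
    (Pool.AVG57.cod F ⌊w * J⌋₊ (fun s => H s t) (c t) (γ t + q + X) 1 (D' + 1))
    (fun ω => ((jh F c k ⌊w * J⌋₊ H (fun l => sn l w + T * u) ω,
      jv F c k ⌊w * J⌋₊ H (fun l => sn l w - w + T * u) ω), (sd ω, (cR F A w₁ ω, F.W ω)))) ≤
    δ * u * J
  /-- all codes of the target -/
  jt : CH (Pool.Agent.H49.Ent.cond F.p A True)
    (Pool.AVG57.cod F ⌊w * J⌋₊ (fun s => H s t) (c t) (γ t + q) 0 (D' + 1))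
    (fun ω => ((jh F c k ⌊w * J⌋₊ H (fun l => sn l w + u + 100 * y) ω,
      jv F c k ⌊w * J⌋₊ H (fun l => sn l w - w + T * u) ω), (sd ω, (cR F A x ω, F.W ω)))) ≤
    δ * u * J
  /-- the rows over the exact base coordinates -/
  row : ∀ B : F.Ω → Prop, Sub B A → π₀ * Pe F.p A ≤ Pe F.p B →
    CH (Pool.Agent.H49.Ent.cond F.p B True) (Mh F c t ⌊w * J⌋₊ H (γ t + q + X))
      (fun ω => (Mh F c t ⌊w * J⌋₊ H (γ t + q) ω, (M2 ω,
        ((fun l : Fin k => F.X J ω (c l)), (cR F A w₁ ω, F.W ω))))) ≤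
    ((1 - h) * ξ * u * Real.log 2 + δ * u) * J

/-- **(V0G)** The class theorem: base coordinates `c 0, …, c (k - 1)` over the charts of `b`, any
target, any side path. -/
def V0gStmt : Prop := ∀ (D D' k : ℕ) (h x₀ ξ ε : ℝ), 1 ≤ D → D ≤ D' → 1 ≤ k → 0 < h → h ≤ 1 →
  0 < x₀ → x₀ < h → 0 < ξ → ξ ≤ 1 → 0 < ε →
  ∃ π₀ δ₀ T₀ : ℝ, 0 < π₀ ∧ 0 < δ₀ ∧ ∀ T : ℝ, T₀ ≤ T → ∃ Λ : ℝ, 1 ≤ Λ ∧ ∀ Cg : ℕ,
  ∃ φ₀ : ℝ, 0 < φ₀ ∧
  ∀ {m : ℕ} {S : PCl m} {c : ℕ → Fin m} {sn : ℕ → ℝ → ℝ} {G : Set ℝ} {b o φ : ℝ},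
    Lad S c k sn G b o φ → ∀ {w u y j x xr x' : ℝ} {w₁ : ℚ} {sp : ℕ → ℝ → ℝ}, y ≤ φ₀ * u →
    GW k sn G b o φ w u y ξ T Λ w₁ j x xr x' →
    -- free velocities
    (∀ i < k, sp i b ≤ sn i b - φ) →
    (∀ P : Fin k → ℚ, (∀ i : Fin k, sn i w - w + u ≤ P i ∧ (P i : ℝ) ≤ sn i w - w + Λ * u) →
      (∀ l i : Fin k, l < i → (P i : ℝ) - (sn i w - w) + u / 2 ≤ P l - (sn l w - w)) →
      FrI S c k sp b (fun i => (P i : ℝ)) w₁ x' (φ₀ * u)) →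
    -- the records
    (∃ η : ℝ, RNum S (fun J F => ptr F J) (vg (w₁ : ℝ)) η) →
    ∀ E : ℝ, Bas S (fun J F A => ∀ (t : ℕ)
      (G₀ : PtT F → ℕ → MvPolynomial (Option (Fin m)) ℝ)
      (Hb Hw H₀ H : LnT F → ℕ → MvPolynomial (Option (Fin m)) ℝ) (γ : ℕ → ℕ)
      (gg : F.Ω → Fin k → ℝ) (χ₁ χ₂ μ₁ μ₂ σ : Type) (Cj : F.Ω → χ₁) (Cx : F.Ω → χ₂)
      (M1 : F.Ω → μ₁) (M2 : F.Ω → μ₂) (sd : F.Ω → σ),
      LD F c k D b w φ E sn A Hb Hw H₀ →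
      (∀ ω, ∀ l < k, H (slam F ⌊w * J⌋₊ ω) l = Hb (slam F ⌊b * J⌋₊ ω) l) →
      GEv F c k t D' ⌊(u + 500 * y) * J⌋₊ ⌊ξ * u * J⌋₊ Cg sn w u y φ ξ T w₁ j x xr x' h E π₀ δ₀ A
        G₀ H γ gg Cj Cx M1 M2 sd →
      ∃ (W : ℕ) (mu : LnT F → Fin k → Polynomial ℝ), ⌊(w₁ : ℝ) * J⌋₊ ≤ W ∧
        (W : ℝ) ≤ (w + 2 * φ) * J ∧ (∀ s i, (mu s i).natDegree ≤ D' + 1) ∧
        Pb (Pool.Agent.H49.Ent.cond F.p A True) (fun ω => ∃ i : Fin k,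
          (2 : ℝ) ^ (-(x₀ * ⌊ξ * u * J⌋₊)) <
            |gg ω i - (mu (slam F W ω) i).eval (rt F W ω)|) ≤ ε)

end Pool.VG83
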