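import Pool.Agent.H83.VG.Fin
import Pool.Agent.H83.VG.Ec
import Pool.Agent.H83.VG.S
import Pool.Agent.H44.V0F.V0c1

/-!
# The law of the base coordinates on parts of large events

`bas_ev`: base statements on parts. `mx_ev`: the canonical record of an event is a record on its
parts. `base_ev`: the law `VLaw2` with the trivial target on all parts of large events. `nb_fam`: the
digits of the rows are free given the record of the window `x`.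
-/

set_option autoImplicit false

namespace Pool.VG83

open Finset Real MvPolynomial
open Pool.Agent.H49.Ent Pool.Agent.H32.Dense
open Pool.STK hiding pr2
open Pool.KA Pool.KSAT Pool.K2S Pool.PB Pool.S6C
open Pool.GEN Pool.CHT Pool.CHX Pool.ISO Pool.LA91 Pool.AVG71 Pool.AVG5 Pool.D2F2 Pool.AVG57
open Pool.RCD Pool.AVG96 Pool.V0F Pool.OWN68
open Pool.AJW (CfB)
open Pool.GRD (LbP)
open Pool.VT83 (VB NlqI vlaw_gen)

variable {m : ℕ}

/-- The trivial quantity. -/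
def qtt (m : ℕ) : Qt m Unit := ⟨fun _ _ _ _ _ _ => True, fun _ h => h, fun _ _ h => h⟩

theorem ch_unit {Ω : Type} [Fintype Ω] {p : Ω → ℝ} (h0 : ∀ ω, 0 ≤ p ω) {β : Type}
    (u : Ω → Unit) (Z : Ω → β) : CH p u Z = 0 := CH_eq_zero h0 fun _ _ _ _ _ => rfl

theorem few_tt {S : PCl m}
    (hpos : ∀ (τ : ℝ) (J : ℕ) (F : Fam m J) (A : F.Ω → Prop), S.St τ J F A → 0 < Pe F.p A)
    {α β γ : ∀ J : ℕ, Fam m J → Type} (f : ∀ (J : ℕ) (F : Fam m J), F.Ω → α J F)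
    (g : ∀ (J : ℕ) (F : Fam m J), F.Ω → β J F) (y : ∀ (J : ℕ) (F : Fam m J), F.Ω → γ J F)
    {U : Type} (Q : Qt m U) : Few S f g y Q (qtt m) := by
  intro h hh
  refine ⟨1, one_pos, fun K => Bas.mono 0 (pos_bas hpos) fun J _ F A hA u u' _ _ =>
    ⟨Unit, fun _ => (), ⟨⟨fun _ => (), fun _ _ => rfl⟩, ⟨fun _ => (), fun _ _ => rfl⟩⟩, ?_⟩⟩
  rw [ch_unit (isLaw_cond F.isLaw hA).nonneg]
  positivity

theorem few0_tt {S : PCl m}
    (hpos : ∀ (τ : ℝ) (J : ℕ) (F : Fam m J) (A : F.Ω → Prop), S.St τ J F A → 0 < Pe F.p A)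
    {α β γ : ∀ J : ℕ, Fam m J → Type} (f : ∀ (J : ℕ) (F : Fam m J), F.Ω → α J F)
    (g : ∀ (J : ℕ) (F : Fam m J), F.Ω → β J F) (y : ∀ (J : ℕ) (F : Fam m J), F.Ω → γ J F) :
    Few0 S f g y (qtt m) := by
  intro h hh
  refine ⟨1, one_pos, fun K => Bas.mono 0 (pos_bas hpos) fun J _ F A hA u _ =>
    ⟨Unit, fun _ => (), ⟨⟨fun _ => (), fun _ _ => rfl⟩, ⟨fun _ => (), fun _ _ => rfl⟩⟩, ?_⟩⟩
  rw [ch_unit (isLaw_cond F.isLaw hA).nonneg]
  positivity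

theorem nlq_tt {S : PCl m}
    (hpos : ∀ (τ : ℝ) (J : ℕ) (F : Fam m J) (A : F.Ω → Prop), S.St τ J F A → 0 < Pe F.p A)
    (c : ℕ → Fin m) (r : ℕ) (w j : ℝ) : NlqI S c r w j (qtt m) (qtt m) 0 := by
  refine ⟨1, one_pos, 1, one_pos, fun K => Bas.mono 0 (pos_bas hpos)
    fun J _ F A hA V z V' z' _ _ u₁ u₂ _ _ => ?_⟩
  rw [ch_unit (isLaw_cond F.isLaw hA).nonneg, ch_unit (isLaw_cond F.isLaw hA).nonneg, zero_mul,
    zero_add]

/-- Base statements on parts. -/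
theorem bas_ev {S : PCl m} {Φ : Stat m} (h : Bas S Φ) {π₀ : ℝ} (hπ : 0 < π₀) :
    Bas S (fun J F A => ∀ B : F.Ω → Prop, Sub B A → π₀ * Pe F.p A ≤ Pe F.p B → Φ J F B) := by
  refine Bas.mono 0 (Pool.GRW.bas_part h (inv_pos.2 hπ)) ?_
  rintro J - F A H B hB hm
  refine H B hB ?_
  rw [inv_mul_eq_div, le_div_iff₀ hπ, mul_comm]
  exact hm

theorem cl_cR {J : ℕ} (F : Fam m J) (A : F.Ω → Prop) (w : ℝ) :
    Cl2 (ptr F J) (vg w J F) A (cR F A w) := by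
  refine ⟨?_, ?_⟩
  · choose φ hφ using fun D : {D : F.Ω → Prop // Cl2 (ptr F J) (vg w J F) A D} => D.2.1
    exact ⟨fun x D => φ D x, fun ω hω => funext fun D => hφ D ω hω⟩
  · choose φ hφ using fun D : {D : F.Ω → Prop // Cl2 (ptr F J) (vg w J F) A D} => D.2.2
    exact ⟨fun x D => φ D x, fun ω hω => funext fun D => hφ D ω hω⟩

/-- The canonical record of a part at a later window knows the one of the event. -/
theorem det_cR2 {J : ℕ} {F : Fam m J} {A B : F.Ω → Prop} (hB : Sub B A) {w v : ℝ} (hwv : w ≤ v)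
    (hv : v ≤ 1) {p : F.Ω → ℝ} (hp : ∀ ω, 0 < p ω → B ω) : Det p (cR F B v) (cR F A w) := by
  obtain ⟨χ, hχ⟩ := vg_mono hwv hv J F
  exact det_cR (((cl_cR F A w).sub hB).mono ⟨fun x => x, fun _ _ => rfl⟩
    ⟨χ, fun ω _ => hχ ω⟩) hp

/-- **The canonical record** of an event is a record on its parts. -/
theorem mx_ev {S : PCl m}
    (hpos : ∀ (τ : ℝ) (J : ℕ) (F : Fam m J) (A : F.Ω → Prop), S.St τ J F A → 0 < Pe F.p A)
    {w₁ η : ℝ} (hη : RNum S (fun J F => ptr F J) (vg w₁) η) {k π₀ : ℝ} (hk : 0 < k)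
    (hπ : 0 < π₀) :
    Bas S (fun _ F A => ∀ B : F.Ω → Prop, Sub B A → π₀ * Pe F.p A ≤ Pe F.p B →
      Mx (fun J F => ptr F J) (vg w₁) k F B (cR F A w₁)) := by
  obtain ⟨κ, hκ, H'⟩ := hη.max hpos k hk
  obtain ⟨J₁, hJ₁⟩ := exists_nat_ge (-Real.log π₀ / κ)
  refine Bas.mono J₁ ((H'.and (hη.at' (k / 2) (half_pos hk))).and (pos_bas hpos)) ?_
  rintro J hJ F A ⟨⟨H', hq⟩, hA⟩ B hB hPB
  have hJ1 : (J₁ : ℝ) ≤ J := by exact_mod_cast hJ
  have hexp : Real.exp (-(κ * J)) * Pe F.p A ≤ Pe F.p B := by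
    refine le_trans (mul_le_mul_of_nonneg_right ?_ hA.le) hPB
    rw [← Real.exp_log hπ]
    refine Real.exp_le_exp.2 ?_
    have := hJ₁.trans hJ1
    rw [div_le_iff₀ hκ] at this
    linarith
  obtain ⟨-, -, hmax⟩ := H' _ (cR F A w₁) (cl_cR F A w₁) (fun v => cR_cell hq v) B hB hexp
  exact ⟨(cl_cR F A w₁).sub hB, fun V' z' hz' => (hmax V' z' hz').2⟩

/-- **The law of the base coordinates**, on all parts of large events. -/
theorem base_ev {S : PCl m} {c : ℕ → Fin m} {r D : ℕ} {sn sp : ℕ → ℝ → ℝ} {G : Set ℝ}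
    {b o φ : ℝ} (L : Lad S c r sn G b o φ) {nn nf : ℕ → ℝ} {w w₁ j x x' Δ : ℝ}
    (N : VB r sn G b o φ (fun l => sn l b - φ) nn nf w₁ j x x' Δ) (hb1 : b ≤ 1)
    (hsp : ∀ i < r, sp i b ≤ sn i b - φ) {P : ℕ → ℝ} {κf : ℝ}
    (hfr : FrI S c r sp b (fun i : Fin r => P i) w₁ x' κf) (hκf : 0 ≤ κf)
    (hη : ∃ η : ℝ, RNum S (fun J F => ptr F J) (vg w₁) η) {π₀ ε : ℝ} (hπ : 0 < π₀)
    (hε : 0 < ε) (E : ℝ) :
    Bas S (fun J F A => ∀ Hb Hw H : LnT F → ℕ → MvPolynomial (Option (Fin m)) ℝ,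
      LD F c r D b w φ E sn A Hb Hw H → ∀ B : F.Ω → Prop, Sub B A → π₀ * Pe F.p A ≤ Pe F.p B →
      ∀ κ : ℝ, (r * Δ + 20 * (r : ℝ) ^ 2 * φ + κf + ε) * J ≤ κ →
      VLaw2 (Pool.Agent.H49.Ent.cond F.p B True) (cR F A w₁) (cR F B j) (cR F B x) (cR F B x')
        F.W (jh F c r ⌊w * J⌋₊ H nn) (jh F c r ⌊w * J⌋₊ H nf) (jv F c r ⌊w * J⌋₊ H P)
        (jv F c r ⌊w * J⌋₊ H P) (fun _ => ()) (fun _ => ())
        (fun ω => fun l : Fin r => F.X J ω (c l))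
        ((∑ i ∈ range r, (nf i - nn i)) * Real.log 2 * J)
        ((∑ i ∈ range r, (1 - nf i)) * Real.log 2 * J) κ) := by
  obtain ⟨η, hη⟩ := hη
  obtain ⟨ka, hka, ea, hea, Ha⟩ := vlaw_gen L N (few_tt L.pos _ _ _ _) (few0_tt L.pos _ _ _) hfr
    (nlq_tt L.pos c r w₁ j) hκf le_rfl ε hε
  obtain ⟨Ma, Ja, hMa⟩ := ld_jh m D r nn (b := b) (E := E) L.b0 hb1
  obtain ⟨Mb, Jb, hMb⟩ := ld_jh m D r nf (b := b) (E := E) L.b0 hb1
  obtain ⟨Md, Jd, hMd⟩ := ld_jv m D r P (b := b) (E := E) L.b0 hb1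
  obtain ⟨M, hM⟩ : ∃ M : ℕ, M = Ma + Mb + Md := ⟨_, rfl⟩
  obtain ⟨J₁, hJ₁⟩ := exists_nat_gt (r * Real.log 5 / ε)
  refine Bas.mono (Ja + Jb + Jd + J₁) (((bas_ev (Ha M) hπ).and (mx_ev L.pos hη hka hπ)).and
    (pos_bas L.pos)) ?_
  rintro J hJ F A ⟨⟨H1, H2⟩, hA⟩ Hb Hw H LDh B hB hm κ hκ
  have hPB : 0 < Pe F.p B := lt_of_lt_of_le (mul_pos hπ hA) hm
  have hcl := isLaw_cond F.isLaw hPB
  have h0 := hcl.nonneg
  have hJ0 : (0 : ℝ) ≤ J := Nat.cast_nonneg J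
  have hφ := L.φ0
  have hl5 : 0 < Real.log 5 := Real.log_pos (by norm_num)
  have q1 := hMa M (by omega) J (by omega) LDh ea hea.le
  have q2 := hMb M (by omega) J (by omega) LDh ea hea.le
  have q4 := hMd M (by omega) J (by omega) LDh hsp ea hea.le
  have hlog : r * Real.log 5 ≤ ε * J := by
    have e1 : (J₁ : ℝ) ≤ J := by
      have : J₁ ≤ J := by omega
      exact_mod_cast this
    have e2 := hJ₁.le.trans e1
    rw [div_le_iff₀ hε] at e2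
    linarith
  have hΔ0 : 0 ≤ r * Δ := by
    rcases Nat.eq_zero_or_pos r with h | h
    · rw [h]
      simp
    · have h1 := N.nf0 0 h
      have h2 := N.nfΔ 0 h
      have : 0 ≤ Δ := by linarith
      positivity
  have hκε : ε * J ≤ κ := by
    have e1 : 0 ≤ (r * Δ + 20 * (r : ℝ) ^ 2 * φ + κf) * J := by positivity
    linarith
  have hZ2 := CH_jhs hcl (F := F) (c := c) (r := r) (w := ⌊w * J⌋₊) (H := H)
    (n := nn) (n' := nf) N.nnf (fun ω => (jh F c r ⌊w * J⌋₊ H nn ω, (cR F A w₁ ω, F.W ω)))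
    (fun ω ν _ _ e => (Prod.ext_iff.mp e).1)
  have hZ3 := CH_jh hcl (F := F) (c := c) (r := r) (w := ⌊w * J⌋₊) (H := H)
    (n := nf) (n' := nn) (d := 0) (fun l hl => by
      have := mul_le_mul_of_nonneg_right (N.nnf l hl) hJ0
      linarith) le_rfl
    (fun ω => (jh F c r ⌊w * J⌋₊ H nf ω, (cR F A w₁ ω, F.W ω)))
    (fun ω ν _ _ e => (Prod.ext_iff.mp e).1)
  rw [zero_mul, zero_add] at hZ3
  exact H1 B hB hm _ (cR F A w₁) _ (cR F B j) _ (cR F B x) _ (cR F B x') (H2 B hB hm)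
    (mx_cR hPB j hka.le) (mx_cR hPB x hka.le) (mx_cR hPB x' hka.le)
    (jh F c r ⌊w * J⌋₊ H nn) (jh F c r ⌊w * J⌋₊ H nf) (jv F c r ⌊w * J⌋₊ H P) (fun _ => ())
    (fun _ => ()) ((qJets m c 0 r 0 _ _ _).sub hB q1) ((qJets m c 0 r 0 _ _ _).sub hB q2)
    ((qG m c r sp b (fun i : Fin r => P i)).sub hB q4) trivial trivial _
    (jv F c r ⌊w * J⌋₊ H P) κ (by rw [add_zero]; exact hκ)
    (by
      rw [CH_eq_zero h0 fun _ _ _ _ e => e]
      have : 0 ≤ ε * J := by positivity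
      linarith) (hZ2.trans (by linarith)) (hZ3.trans (by linarith))

/-- **The digits of the rows** are known at `x'` and free at `x`. -/
theorem nb_fam {S : PCl m} {c : ℕ → Fin m} {r D : ℕ} {sn : ℕ → ℝ → ℝ} {G : Set ℝ}
    {b o φ : ℝ} (L : Lad S c r sn G b o φ) {nn nb : ℕ → ℝ} {w x ξu : ℝ} (hx : x ∈ G)
    (hbx : b ≤ x) (hxo : x ≤ o) (hnn : ∀ i < r, sn i x ≤ nn i ∧ nn i ≤ nb i ∧ nb i ≤ 1)
    (tp : Tp r sn b φ nb) (hd : ∀ i < r, ξu ≤ nb i - nn i) (hb1 : b ≤ 1) {ε : ℝ}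
    (hε : 0 < ε) (E : ℝ) :
    Bas S (fun J F A => ∀ Hb Hw H : LnT F → ℕ → MvPolynomial (Option (Fin m)) ℝ,
      LD F c r D b w φ E sn A Hb Hw H → ∀ X : ℕ, (X : ℝ) ≤ ξu * J →
      r * (X * Real.log 2) - (20 * (r : ℝ) ^ 2 * φ + ε) * J ≤
        CH (Pool.Agent.H49.Ent.cond F.p A True)
          (Vv F c r ⌊w * J⌋₊ H fun l => nb l * J)
          (fun ω => (jh F c r ⌊w * J⌋₊ H nn ω, (cR F A x ω, F.W ω)))) := by
  obtain ⟨kb, hkb, eb, heb, Hb'⟩ := fup L hx hbx hxo (p := fun l => sn l b - φ)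
    (fun i _ => le_rfl) (q := nn) (n := nb) hnn tp ε hε
  obtain ⟨Ma, Ja, hMa⟩ := ld_jh m D r nn (b := b) (E := E) L.b0 hb1
  obtain ⟨Mc, Jc, hMc⟩ := ld_jh m D r nb (b := b) (E := E) L.b0 hb1
  obtain ⟨M, hM⟩ : ∃ M : ℕ, M = Ma + Mc := ⟨_, rfl⟩
  refine Bas.mono (Ja + Jc) ((Hb' M).and (pos_bas L.pos)) ?_
  rintro J hJ F A ⟨H2, hA⟩ Hb Hw H LDh X hX
  have hcl := isLaw_cond F.isLaw hA
  have h0 := hcl.nonneg
  have hJ0 : (0 : ℝ) ≤ J := Nat.cast_nonneg J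
  have hφ := L.φ0
  have hr0 : (0 : ℝ) ≤ r := Nat.cast_nonneg r
  have hl2 : 0 < Real.log 2 := Real.log_pos one_lt_two
  have hl2' : Real.log 2 ≤ 1 := by
    have := Real.log_two_lt_d9
    linarith
  have q3 := hMc M (by omega) J (by omega) LDh eb heb.le
  have q3' := hMa M (by omega) J (by omega) LDh eb heb.le
  have e1 := H2 _ (cR F A x) (mx_cR hA x hkb.le) _ _ q3 q3'
  have e2 : CH (Pool.Agent.H49.Ent.cond F.p A True) (jh F c r ⌊w * J⌋₊ H nb)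
      (fun ω => (jh F c r ⌊w * J⌋₊ H nn ω, (cR F A x ω, F.W ω))) ≤
      CH (Pool.Agent.H49.Ent.cond F.p A True) (Vv F c r ⌊w * J⌋₊ H fun l => nb l * J)
      (fun ω => (jh F c r ⌊w * J⌋₊ H nn ω, (cR F A x ω, F.W ω))) :=
    CH_mono_left h0 fun ω ν hω hν e => vv_jh nb ω ν hω hν (Prod.ext_iff.mp e).1
  have e3 : r * ξu ≤ ∑ i ∈ range r, (nb i - nn i) := by
    have e4 : ∑ i ∈ range r, ξu ≤ ∑ i ∈ range r, (nb i - nn i) :=
      Finset.sum_le_sum fun i hi => hd i (mem_range.1 hi)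
    rw [Finset.sum_const, card_range, nsmul_eq_mul] at e4
    exact e4
  have e5 : (r * ξu - 20 * (r : ℝ) ^ 2 * φ) * Real.log 2 * J ≤
      ((∑ i ∈ range r, (nb i - nn i)) - 20 * (r : ℝ) ^ 2 * φ) * Real.log 2 * J :=
    mul_le_mul_of_nonneg_right (mul_le_mul_of_nonneg_right (by linarith) hl2.le) hJ0
  have e6 : r * (X * Real.log 2) ≤ r * (ξu * J * Real.log 2) :=
    mul_le_mul_of_nonneg_left (mul_le_mul_of_nonneg_right hX hl2.le) hr0
  have h20 : 0 ≤ 20 * (r : ℝ) ^ 2 * φ * J := by positivity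
  have e7 : 20 * (r : ℝ) ^ 2 * φ * J * Real.log 2 ≤ 20 * (r : ℝ) ^ 2 * φ * J * 1 :=
    mul_le_mul_of_nonneg_left hl2' h20
  linarith

/-- The charts `H` of the base coordinates and the charts `Hw` of the other ones. -/
def Hif {J : ℕ} {F : Fam m J} (r : ℕ) (H Hw : LnT F → ℕ → MvPolynomial (Option (Fin m)) ℝ)
    (s : LnT F) (l : ℕ) : MvPolynomial (Option (Fin m)) ℝ := if l < r then H s l else Hw s l

/-- The labels with the charts `H` of the base coordinates. -/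
theorem ld_if {J : ℕ} {F : Fam m J} {c : ℕ → Fin m} {r D D' : ℕ} {b w φ E : ℝ}
    {sn : ℕ → ℝ → ℝ} {A : F.Ω → Prop}
    {Hb Hw H₀ H : LnT F → ℕ → MvPolynomial (Option (Fin m)) ℝ} (hD : D ≤ D')
    (h : LD F c r D b w φ E sn A Hb Hw H₀)
    (hH : ∀ ω, ∀ l < r, H (slam F ⌊w * J⌋₊ ω) l = Hb (slam F ⌊b * J⌋₊ ω) l) :
    LD F c r D' b w φ E sn A Hb Hw (Hif r H Hw) where
  lb := fun l hl => by
    obtain ⟨V, z, z', G, h1, h2⟩ := h.lb l hl
    exact ⟨V, z, z', G, h1.mono (Finset.Subset.refl _) hD le_rfl, h2⟩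
  lt := by
    obtain ⟨V, z, z', G, h1, h2⟩ := h.lt
    exact ⟨V, z, z', G, h1.mono (Finset.Subset.refl _) hD le_rfl, h2⟩
  cb := h.cb
  cw := h.cw
  hb := fun ω l hl => (if_pos hl).trans (hH ω l hl)
  hw := fun ω => if_neg (lt_irrefl r)

section

variable {J : ℕ} {F : Fam m J} {c : ℕ → Fin m} {r w : ℕ}
  {Hw H : LnT F → ℕ → MvPolynomial (Option (Fin m)) ℝ}

theorem hif_lt {l : ℕ} (hl : l < r) (s : LnT F) : Hif r H Hw s l = H s l := if_pos hl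

theorem jh_if (n : ℕ → ℝ) : jh F c r w (Hif r H Hw) n = jh F c r w H n := by
  funext ω l j'
  unfold jh
  by_cases h : l < r ∧ j' = 0
  · rw [if_pos h, if_pos h, hif_lt h.1]
  · rw [if_neg h, if_neg h]

theorem jv_if (n : ℕ → ℝ) : jv F c r w (Hif r H Hw) n = jv F c r w H n := by
  funext ω l
  unfold jv
  rw [hif_lt l.2]

theorem vv_if (n : ℕ → ℝ) : Vv F c r w (Hif r H Hw) n = Vv F c r w H n := by
  funext ω l
  unfold Vv
  rw [hif_lt l.2]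

theorem hif_fun {l : ℕ} (hl : l < r) : (fun s => Hif r H Hw s l) = fun s : LnT F => H s l :=
  funext fun s => hif_lt hl s

end

end Pool.VG83
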