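import Pool.Agent.H83.VG.Num

/-!
# The small constants
-/

set_option autoImplicit false

namespace Pool.VG83

open Finset Real

/-- The factor of the errors of the law. -/
noncomputable def A1 (k : ℕ) : ℝ := 35 * k + 20 * (k : ℝ) ^ 2 + 2

theorem A1_pos (k : ℕ) : 0 < A1 k := by
  unfold A1
  positivity

/-- The sum of the constants. -/
noncomputable def Z1 (k Cg X₀ : ℕ) (Ce : ℝ) : ℝ :=
  40 * (k * Real.log 5) + 2 * (k * Ce) + 20 + X₀ + 4 * ((Cg : ℝ) + 1) + 1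

theorem Z1_le (k Cg X₀ : ℕ) {Ce : ℝ} (hCe : 0 ≤ Ce) : 0 ≤ (k : ℝ) * Real.log 5 ∧
    0 ≤ (k : ℝ) * Ce ∧ 40 * (k * Real.log 5) + 2 * (k * Ce) + 20 ≤ Z1 k Cg X₀ Ce ∧
    20 ≤ Z1 k Cg X₀ Ce ∧ (X₀ : ℝ) + 1 ≤ Z1 k Cg X₀ Ce ∧ 4 * ((Cg : ℝ) + 1) + 1 ≤ Z1 k Cg X₀ Ce := by
  have hl5 : 0 < Real.log 5 := Real.log_pos (by norm_num)
  have h1 : 0 ≤ (k : ℝ) * Real.log 5 := by positivity
  have h2 : 0 ≤ (k : ℝ) * Ce := by positivity
  have h3 : (0 : ℝ) ≤ X₀ := Nat.cast_nonneg _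
  have h4 : (0 : ℝ) ≤ Cg := Nat.cast_nonneg _
  unfold Z1
  refine ⟨h1, h2, ?_, ?_, ?_, ?_⟩ <;> linarith

/-- **The small constants.** -/
structure CG (k : ℕ) (τ ξ ϖ δ θ : ℝ) : Prop where
  τ0 : 0 < τ
  ξ0 : 0 < ξ
  ξ1 : ξ ≤ 1
  δ0 : 0 < δ
  θ0 : 0 < θ
  ϖ0 : 0 < ϖ
  ϖ1 : ϖ ≤ 1
  t0 : 2000 * θ ≤ ξ
  t1 : 200 * δ ≤ τ * ξ * ϖ
  t2 : 20 * (100 * A1 k + 400 + 2 * k) * θ ≤ τ * ξ * ϖ

theorem cg_ex (k : ℕ) {τ ξ ϖ : ℝ} (hτ : 0 < τ) (hξ : 0 < ξ) (hξ1 : ξ ≤ 1) (hϖ : 0 < ϖ)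
    (hϖ1 : ϖ ≤ 1) : ∃ δ θ : ℝ, CG k τ ξ ϖ δ θ := by
  have hA := A1_pos k
  have hk : (0 : ℝ) ≤ k := Nat.cast_nonneg k
  obtain ⟨a, ha, ha0⟩ : ∃ a : ℝ, a = 20 * (100 * A1 k + 400 + 2 * k) ∧ 0 < a :=
    ⟨_, rfl, by positivity⟩
  refine ⟨τ * ξ * ϖ / 200, min (ξ / 2000) (τ * ξ * ϖ / a), hτ, hξ, hξ1, by positivity,
    by positivity, hϖ, hϖ1, ?_, by linarith, ?_⟩
  · have := min_le_left (ξ / 2000) (τ * ξ * ϖ / a)
    linarith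
  · rw [← ha]
    calc a * min (ξ / 2000) (τ * ξ * ϖ / a) ≤ a * (τ * ξ * ϖ / a) :=
          mul_le_mul_of_nonneg_left (min_le_right _ _) ha0.le
      _ = τ * ξ * ϖ := by field_simp

namespace CG

variable {k : ℕ} {τ ξ ϖ δ θ : ℝ}

/-- **All errors are small.** -/
theorem le (C : CG k τ ξ ϖ δ θ) {Cg X₀ : ℕ} {Ce u J X y φ φ₀ h Y : ℝ} (hCe : 0 ≤ Ce)
    (hu : 0 < u) (hJ : 0 ≤ J) (hX : ξ * u * J - 1 ≤ X) (hy : 0 ≤ y) (hyu : y ≤ φ₀ * u)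
    (hφy : φ ≤ y) (hφ₀ : φ₀ = θ / (1000 * ((Cg : ℝ) + 1)))
    (hZ : Z1 k Cg X₀ Ce ≤ θ * u * J) (hh : 0 < h) (hh1 : h ≤ 1) (hY : Y ≤ 1000 * y * J + 4) :
    (X₀ : ℝ) ≤ X ∧ 2000 * y ≤ ξ * u ∧
    (k * (35 * y) + 20 * (k : ℝ) ^ 2 * φ + φ₀ * u + θ * u) * J +
      (2 * (δ * u * J) + 2 * (k * Real.log 5)) ≤ τ * X ∧
    ((k : ℝ) + 1) * (θ * u * J) + k * Ce + (δ * u * J + 2 * (k * Real.log 5)) ≤ τ * X ∧
    300 * y * J ≤ τ * X ∧ θ * u * J ≤ τ * X ∧ ((Cg : ℝ) + 1) * Y + 1 ≤ τ * X ∧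
    ((Cg : ℝ) + 1) * Y + 1 ≤ u / 2 * J ∧
    ((1 - h) * ξ * u * Real.log 2 + δ * u) * J + 20 * (δ * u * J / ϖ) +
        20 * (k * Real.log 5) +
        76 * ((k * (35 * y) + 20 * (k : ℝ) ^ 2 * φ + φ₀ * u + θ * u) * J) +
        (k * (θ * u * J / ϖ) + k * Ce) ≤ (1 - h) * X * Real.log 2 + τ * X ∧
    20 * (k : ℝ) ^ 2 * φ * J + θ * u * J ≤
      (k * (35 * y) + 20 * (k : ℝ) ^ 2 * φ + φ₀ * u + θ * u) * J := by
  have hτ := C.τ0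
  have hξ := C.ξ0
  have hθ := C.θ0
  have hϖ := C.ϖ0
  have hk : (0 : ℝ) ≤ k := Nat.cast_nonneg k
  have hCg : (0 : ℝ) ≤ Cg := Nat.cast_nonneg Cg
  have hA := A1_pos k
  have hl2 : 0 < Real.log 2 := Real.log_pos one_lt_two
  have hl2' : Real.log 2 ≤ 1 := by
    have := Real.log_two_lt_d9
    linarith
  obtain ⟨z1, z2, z3, z4, z5, z6⟩ := Z1_le k Cg X₀ hCe
  have hφ₀0 : 0 < φ₀ := by rw [hφ₀]; positivity
  have hφ₀m : ((Cg : ℝ) + 1) * (1000 * φ₀) = θ := by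
    rw [hφ₀]
    field_simp
  have hφ₀θ : 1000 * φ₀ ≤ θ := by
    rw [← hφ₀m]
    refine le_mul_of_one_le_left (by positivity) (by linarith)
  obtain ⟨V, hV⟩ : ∃ V : ℝ, V = θ * u * J := ⟨_, rfl⟩
  obtain ⟨U, hU⟩ : ∃ U : ℝ, U = u * J := ⟨_, rfl⟩
  have hU0 : 0 ≤ U := by rw [hU]; positivity
  have hV0 : 0 ≤ V := by rw [hV]; positivity
  have hVU : V = θ * U := by rw [hV, hU]; ring
  rw [← hV] at hZ ⊢
  have yU : y * J ≤ φ₀ * U := by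
    rw [hU, ← mul_assoc]
    exact mul_le_mul_of_nonneg_right hyu hJ
  have φU : φ * J ≤ φ₀ * U := le_trans (mul_le_mul_of_nonneg_right hφy hJ) yU
  have φ₀V : φ₀ * U ≤ V := by
    rw [hVU]
    exact mul_le_mul_of_nonneg_right (by linarith) hU0
  have yV : y * J ≤ V := yU.trans φ₀V
  have φV : φ * J ≤ V := φU.trans φ₀V
  have tU : 2000 * V ≤ ξ * U := by
    rw [hVU]
    have := mul_le_mul_of_nonneg_right C.t0 hU0
    linarith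
  have eX : ξ * u * J = ξ * U := by rw [hU]; ring
  rw [eX] at hX
  have X1 : ξ * U / 2 ≤ X := by linarith
  have X2 : τ * ξ * U / 2 ≤ τ * X := by
    have := mul_le_mul_of_nonneg_left X1 hτ.le
    linarith
  have hτξ : 0 ≤ τ * ξ * U := by positivity
  have dU : 200 * (δ * U / ϖ) ≤ τ * ξ * U := by
    have e1 := mul_le_mul_of_nonneg_right C.t1 hU0
    have e2 : 200 * (δ * U / ϖ) = 200 * δ * U / ϖ := by ring
    rw [e2, div_le_iff₀ hϖ]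
    linarith
  have dV : 20 * (100 * A1 k + 400 + 2 * k) * (V / ϖ) ≤ τ * ξ * U := by
    have e1 := mul_le_mul_of_nonneg_right C.t2 hU0
    have e2 : 20 * (100 * A1 k + 400 + 2 * k) * (V / ϖ) =
      20 * (100 * A1 k + 400 + 2 * k) * V / ϖ := by ring
    rw [e2, div_le_iff₀ hϖ, hVU]
    linarith
  have δϖ : δ * U ≤ δ * U / ϖ := by
    rw [le_div_iff₀ hϖ]
    have : 0 ≤ δ * U := mul_nonneg C.δ0.le hU0
    exact mul_le_of_le_one_right this C.ϖ1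
  have Vϖ : V ≤ V / ϖ := by
    rw [le_div_iff₀ hϖ]
    exact mul_le_of_le_one_right hV0 C.ϖ1
  have AV : A1 k * V ≤ A1 k * (V / ϖ) := mul_le_mul_of_nonneg_left Vϖ hA.le
  have kV : (k : ℝ) * V ≤ k * (V / ϖ) := mul_le_mul_of_nonneg_left Vϖ hk
  have kV0 : 0 ≤ (k : ℝ) * V := by positivity
  have AV0 : 0 ≤ A1 k * V := by positivity
  have dV' : 2000 * (A1 k * (V / ϖ)) + 8000 * (V / ϖ) + 40 * (k * (V / ϖ)) ≤ τ * ξ * U := by
    have e : 20 * (100 * A1 k + 400 + 2 * k) * (V / ϖ) = 2000 * (A1 k * (V / ϖ)) +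
      8000 * (V / ϖ) + 40 * (k * (V / ϖ)) := by ring
    rw [← e]
    exact dV
  have eδ : δ * u * J = δ * U := by rw [hU]; ring
  -- the error of the law
  have e1 : (k : ℝ) * (y * J) ≤ k * V := mul_le_mul_of_nonneg_left yV hk
  have e2 : (k : ℝ) ^ 2 * (φ * J) ≤ k ^ 2 * V := mul_le_mul_of_nonneg_left φV (by positivity)
  have eκ : (k * (35 * y) + 20 * (k : ℝ) ^ 2 * φ + φ₀ * u + θ * u) * J ≤ A1 k * V := by
    have e3 : (k * (35 * y) + 20 * (k : ℝ) ^ 2 * φ + φ₀ * u + θ * u) * J =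
        35 * (k * (y * J)) + 20 * ((k : ℝ) ^ 2 * (φ * J)) + φ₀ * U + V := by
      rw [hU, hV]
      ring
    have e4 : A1 k * V = 35 * (k * V) + 20 * ((k : ℝ) ^ 2 * V) + 2 * V := by
      unfold A1
      ring
    rw [e3, e4]
    linarith
  rw [eδ]
  have eY : ((Cg : ℝ) + 1) * Y + 1 ≤ 2 * V := by
    have f1 : ((Cg : ℝ) + 1) * Y ≤ (Cg + 1) * (1000 * y * J + 4) :=
      mul_le_mul_of_nonneg_left hY (by linarith)
    have f2 : ((Cg : ℝ) + 1) * (1000 * (y * J)) ≤ (Cg + 1) * (1000 * (φ₀ * U)) :=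
      mul_le_mul_of_nonneg_left (by linarith) (by linarith)
    have f3 : ((Cg : ℝ) + 1) * (1000 * (φ₀ * U)) = V := by
      rw [hVU, ← hφ₀m]
      ring
    linarith
  have ξU : ξ * U ≤ U := by
    have := mul_le_mul_of_nonneg_right C.ξ1 hU0
    linarith
  refine ⟨by linarith, ?_, ?_, ?_, ?_, ?_, ?_, ?_, ?_, ?_⟩
  · have f1 : φ₀ * u ≤ θ * u / 1000 := by
      have := mul_le_mul_of_nonneg_right hφ₀θ hu.le
      linarith
    have f2 := mul_le_mul_of_nonneg_right C.t0 hu.le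
    have f3 : 0 ≤ θ * u := by positivity
    linarith
  · linarith
  · linarith
  · linarith
  · linarith
  · linarith
  · have : u / 2 * J = U / 2 := by rw [hU]; ring
    rw [this]
    linarith
  · have f1 : ((1 - h) * ξ * u * Real.log 2 + δ * u) * J =
        (1 - h) * Real.log 2 * (ξ * U) + δ * U := by
      rw [hU]
      ring
    have f2 : (1 - h) * Real.log 2 * (ξ * U) ≤ (1 - h) * Real.log 2 * (X + 1) :=
      mul_le_mul_of_nonneg_left (by linarith) (mul_nonneg (by linarith) hl2.le)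
    have f3 : (1 - h) * Real.log 2 ≤ 1 := by nlinarith
    rw [f1]
    linarith
  · have f1 : (k * (35 * y) + 20 * (k : ℝ) ^ 2 * φ + φ₀ * u + θ * u) * J =
        35 * (k * (y * J)) + 20 * (k : ℝ) ^ 2 * φ * J + φ₀ * U + V := by
      rw [hU, hV]
      ring
    have f2 : 0 ≤ (k : ℝ) * (y * J) := by positivity
    have f3 : 0 ≤ φ₀ * U := by positivity
    rw [f1]
    linarith

end CG

/-- The witness index of the room. -/
theorem yc_le {Cg : ℕ} {y J Y : ℝ} (hY0 : 0 ≤ Y) (hY : 1000 * y * J + 3 ≤ Y) :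
    1000 * y * J + 3 ≤ ((Cg : ℝ) + 1) * Y + 1 := by
  have h : (1 : ℝ) * Y ≤ (Cg + 1) * Y := mul_le_mul_of_nonneg_right (by
    have : (0 : ℝ) ≤ Cg := Nat.cast_nonneg _
    linarith) hY0
  linarith

end Pool.VG83
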