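import Pool.Agent.H83.VG.Evt
import Pool.Agent.H83.VG.Cst

/-!
# Base coordinates over the charts of an earlier window, any target, side path

`v0g`: the class theorem `V0gStmt`.
-/

set_option autoImplicit false

namespace Pool.VG83

open Finset Real MvPolynomial
open Pool.Agent.H49.Ent Pool.Agent.H32.Dense
open Pool.STK hiding pr2
open Pool.KA Pool.KSAT Pool.K2S Pool.PB Pool.S6C
open Pool.GEN Pool.CHT Pool.CHX Pool.ISO Pool.LA91 Pool.AVG71 Pool.AVG5 Pool.D2F2 Pool.AVG57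
open Pool.RCD Pool.AVG96 Pool.V0F Pool.OWN68
open Pool.PB.Trl (rt rt_mem t_rt)
open Pool.BFL (Pb)
open Pool.KAF (rs Pr)
open Pool.VT83 (VSd)

/-- **(V0G)** -/
theorem v0g : V0gStmt := by
  intro D D' k h x₀ ξ ε hD hDD hk hh hh1 hx hxh hξ hξ1 hε
  obtain ⟨τ, π₁, X₀, hτ, hπ₁, HF⟩ := vg_fin k (D' + 1) (by omega) hh hh1 hx hxh hε
  obtain ⟨Ce, hCe, HE⟩ := ec_few (D' + 1)
  obtain ⟨π₀, hπ₀, hπ₀1, hπ01⟩ : ∃ π₀ : ℝ, 0 < π₀ ∧ π₀ ≤ 1 ∧ π₀ ≤ π₁ :=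
    ⟨min π₁ 1, lt_min hπ₁ one_pos, min_le_right _ _, min_le_left _ _⟩
  obtain ⟨δ, θ, C⟩ := cg_ex k hτ hξ hξ1 hπ₀ hπ₀1
  have hθ0 := C.θ0
  have hk0 : (0 : ℝ) ≤ k := Nat.cast_nonneg k
  refine ⟨π₀, δ, 10, hπ₀, C.δ0, fun T hT => ⟨4 * T + 4 * k + 40, by linarith, fun Cg =>
    ⟨θ / (1000 * ((Cg : ℝ) + 1)), by positivity, ?_⟩⟩⟩
  intro m S c sn G b o φ L w u y j x xr x' w₁ sp hyφ W hsp hfr hη E
  obtain ⟨φ₀, hφ₀⟩ : ∃ φ₀ : ℝ, φ₀ = θ / (1000 * ((Cg : ℝ) + 1)) := ⟨_, rfl⟩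
  rw [← hφ₀] at hyφ hfr
  have hφ₀0 : 0 < φ₀ := by rw [hφ₀]; positivity
  have hu := W.u0
  have hφ0 := L.φ0
  have hφy : φ ≤ y := by
    have h1 := W.yφ
    have h2 : 0 ≤ (k : ℝ) * φ := by positivity
    linarith
  have hy0 : 0 ≤ y := hφ0.le.trans hφy
  have hθu : 0 < θ * u := mul_pos hθ0 hu
  have hyξ : 2000 * y ≤ ξ * u := by
    have f0 : ((Cg : ℝ) + 1) * (1000 * φ₀) = θ := by
      rw [hφ₀]
      field_simp
    have f1 : 1000 * φ₀ ≤ θ := by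
      rw [← f0]
      refine le_mul_of_one_le_left (by positivity) ?_
      have : (0 : ℝ) ≤ Cg := Nat.cast_nonneg _
      linarith
    have f2 := mul_le_mul_of_nonneg_right f1 hu.le
    have f3 := mul_le_mul_of_nonneg_right C.t0 hu.le
    linarith
  obtain ⟨Λ, hΛ⟩ : ∃ Λ : ℝ, Λ = 4 * T + 4 * k + 40 := ⟨_, rfl⟩
  rw [← hΛ] at W hfr
  have Nn := ng_ex L W hξ hξ1 hT hΛ hyξ
  obtain ⟨w1, w2, w3, w4, w5, w6, w7, w8, w9, w10, w11, w12, w13, w14, w15, w16, w17, w18, w19,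
    w20⟩ := Nn.wins
  obtain ⟨s1, s2, s3, s4, s5, s6, s7, s8, s9, s10⟩ := Nn.sm
  obtain ⟨Pq, p1, p2, p3, p4⟩ := Nn.pq
  have hb1 : b ≤ 1 := by linarith [L.o1]
  have hfr' := hfr (fun i : Fin k => Pq i) p3 p4
  obtain ⟨P, hP⟩ : ∃ P : ℕ → ℝ, P = fun l => ((Pq l : ℚ) : ℝ) := ⟨_, rfl⟩
  have hfr2 : FrI S c k sp b (fun i : Fin k => P i) w₁ x' (φ₀ * u) := by
    rw [hP]
    exact hfr'
  have hφ₀u : 0 ≤ φ₀ * u := by positivity
  obtain ⟨C₁, htm⟩ := L.tm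
  obtain ⟨k1, k2⟩ := Nn.k9_c
  obtain ⟨n1, n2⟩ := Nn.nbc
  -- the class facts
  have B1 := base_ev (D := D') (w := w) L Nn.vb1 hb1 hsp hfr2 hφ₀u hη hπ₀ hθu E
  have B2 := base_ev (D := D') (w := w) L Nn.vb2 hb1 hsp hfr2 hφ₀u hη hπ₀ hθu E
  have B3 := nb_fam (D := D') (w := w) L Nn.W.xG w8 w9 n1 Nn.tpb n2 hb1 hθu E
  have B4 := k9_fam htm L.pos c k D' sn (b := b) (w := w) (φ := φ)
    (u := (T + k + 5) * u / 3) (E := E) (ε := θ * u) L.b0 w1 k1 k2 hθu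
  have B5 := alive_cls htm 1 (ε₀ := 1) (δ := φ / 4) (ψ := θ * u) one_pos (by positivity) hθu
  obtain ⟨J₁, hJ₁⟩ := oj_sm m D' (E := E)
  obtain ⟨J₂, hJ₂⟩ := exists_nat_ge (Z1 k Cg X₀ Ce / φ)
  refine Bas.mono (J₁ + J₂ + 1) (((B1.and B2).and (B3.and B4)).and B5) ?_
  rintro J hJ F A ⟨⟨⟨H1, H2⟩, H3, H4⟩, hA, H6⟩ t G₀ Hb Hw H₀ H γ gg χ₁ χ₂ μ₁ μ₂ σ Cj Cx M1 M2 sd
    LD0 hH g
  clear B1 B2 B3 B4 B5
  have hcl := isLaw_cond F.isLaw hA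
  have h0 := hcl.nonneg
  have hJ0 : (0 : ℝ) ≤ J := Nat.cast_nonneg J
  have hJp : (0 : ℝ) < J := by
    have : 0 < J := by omega
    exact_mod_cast this
  have hsup : ∀ ω, 0 < Pool.Agent.H49.Ent.cond F.p A True ω → A ω := fun ω hω => of_cond_pos hω
  have mj : ∀ {a a' : ℝ}, a ≤ a' → a * J ≤ a' * J := fun h => mul_le_mul_of_nonneg_right h hJ0
  have hZφ : Z1 k Cg X₀ Ce ≤ φ * J := by
    have e1 : (J₂ : ℝ) ≤ J := by
      have : J₂ ≤ J := by omega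
      exact_mod_cast this
    have e2 := hJ₂.trans e1
    rw [div_le_iff₀ hφ0] at e2
    linarith only [e2]
  obtain ⟨z1, z2, z3, z4, z5, z6⟩ := Z1_le k Cg X₀ hCe
  have hφθ : φ ≤ θ * u := by
    have f0 : ((Cg : ℝ) + 1) * (1000 * φ₀) = θ := by
      rw [hφ₀]
      field_simp
    have f1 : φ₀ ≤ θ := by
      rw [← f0]
      have : (0 : ℝ) ≤ Cg := Nat.cast_nonneg _
      nlinarith
    exact hφy.trans (hyφ.trans (mul_le_mul_of_nonneg_right f1 hu.le))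
  have hZθ : Z1 k Cg X₀ Ce ≤ θ * u * J := hZφ.trans (mj hφθ)
  -- the numbers of the event
  obtain ⟨q, hq⟩ : ∃ q : ℕ, q = ⌊(u + 500 * y) * (J : ℝ)⌋₊ := ⟨_, rfl⟩
  obtain ⟨X, hX⟩ : ∃ X : ℕ, X = ⌊ξ * u * (J : ℝ)⌋₊ := ⟨_, rfl⟩
  obtain ⟨Y, hY⟩ : ∃ Y : ℕ, Y = ⌈1000 * y * (J : ℝ)⌉₊ + 3 := ⟨_, rfl⟩
  obtain ⟨I, hI'⟩ : ∃ I : ℕ, I = ⌈φ / 4 * (J : ℝ)⌉₊ := ⟨_, rfl⟩
  have hFl : Fl u y ξ φ w w₁ J q X Y I := by
    rw [hq, hX, hY, hI']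
    exact fl_ex J hu hy0 hξ hφ0 (L.b0.trans w1) W.hw1 W.hw2
  rw [← hq, ← hX] at g
  have hgrd := g.grd
  rw [← hY] at hgrd
  obtain ⟨c0, c1, c2, c3, c4, c5, c6, c7, c8, c9⟩ := C.le (Cg := Cg) (X₀ := X₀) (Ce := Ce)
    (u := u) (J := (J : ℝ)) (X := (X : ℝ)) (y := y) (φ := φ) (φ₀ := φ₀) (h := h) (Y := (Y : ℝ)) hCe
    hu hJ0 hFl.x1 hy0 hyφ hφy hφ₀ hZθ hh hh1 hFl.y2
  -- the window of the time
  have hw3J := mj (show w + 3 * φ ≤ 1 by linarith [Nn.W.wo, Nn.W.o1])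
  obtain ⟨i₀, hi₀, TW⟩ := H6 ⌊(w₁ : ℝ) * J⌋₊ I hFl.i1 (by
    have e1 : ((⌊(w₁ : ℝ) * J⌋₊ + I + 1 : ℕ) : ℝ) ≤ (J : ℕ) := by
      push_cast
      have e2 := hFl.w1
      have e3 := hFl.i2
      linarith only [e2, e3, hw3J, hZφ, z4]
    exact_mod_cast e1)
  obtain ⟨W', hW'⟩ : ∃ W' : ℕ, W' = ⌊(w₁ : ℝ) * J⌋₊ + i₀ := ⟨_, rfl⟩
  rw [← hW'] at TW
  have hi₀R : (i₀ : ℝ) ≤ I := by exact_mod_cast hi₀.le
  have hW2 : (W' : ℝ) ≤ (w + 2 * φ) * J := by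
    rw [hW']
    push_cast
    have e1 := hFl.w1
    have e2 := hFl.i2
    linarith only [e1, e2, hi₀R, hZφ, z4]
  have hw₁W : ⌊(w₁ : ℝ) * J⌋₊ ≤ W' := by omega
  have hwW : ⌊w * J⌋₊ ≤ W' := hFl.w2.trans hw₁W
  obtain ⟨mm, hmm⟩ : ∃ mm : ℕ, mm = (Cg + 1) * Y + 1 := ⟨_, rfl⟩
  have hmmR : (mm : ℝ) = ((Cg : ℝ) + 1) * Y + 1 := by
    rw [hmm]
    push_cast
    ring
  have NEv : NE k sn φ w u y ξ J γ q X mm W' :=
    { big := by linarith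
      g1 := fun l hl => (g.γb l hl).1
      g2 := fun l hl => (g.γb l hl).2
      q1 := hFl.q1
      q2 := hFl.q2
      X1 := hFl.x1
      X2 := hFl.x2
      mm1 := by
        rw [hmmR]
        exact yc_le (Nat.cast_nonneg _) hFl.y1
      mm2 := by rw [hmmR]; exact c7
      W1 := by
        have e1 := hFl.w3
        have e2 : (⌊w * J⌋₊ : ℝ) ≤ W' := by exact_mod_cast hwW
        linarith only [e1, e2]
      W2 := hW2 }
  have NFv := Nn.nf NEv (P := P) (fun l hl => by rw [hP]; exact p1 l hl)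
    (fun l hl => by rw [hP]; exact p2 l hl)
  have WJ : W' ≤ J := by
    have := NFv.WX
    omega
  have hwJ' : ⌊w * (J : ℝ)⌋₊ ≤ J := hwW.trans WJ
  -- the labels
  have LD1 := ld_if hDD LD0 hH
  have hll : ∀ l < k, sn l w + u + 100 * y ≤ nnF k sn w u y φ l ∧
      sn l w + u + 100 * y ≤ nbF sn w xr φ l ∧ sn l w - w + T * u ≤ P l := fun l hl => by
    obtain ⟨i1, i2, i3⟩ := Nn.li hl
    have hxr := abs_le.1 Nn.W.hxr
    refine ⟨?_, ?_, ?_⟩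
    · unfold nnF
      linarith
    · unfold nbF
      linarith
    · have := p1 l hl
      rw [hP]
      show sn l w - w + T * u ≤ (Pq l : ℝ)
      linarith
  have hx'1 : x' ≤ 1 := by linarith [L.o1]
  have hx1 : x ≤ 1 := by linarith [L.o1]
  -- the laws
  obtain ⟨κ, hκ⟩ : ∃ κ : ℝ, κ = (k * (35 * y) + 20 * (k : ℝ) ^ 2 * φ + φ₀ * u + θ * u) * J +
    (2 * (δ * u * J) + 2 * (k * Real.log 5)) := ⟨_, rfl⟩
  rw [← hκ] at c2
  have hδ : 0 ≤ δ * u * J := (CH_nonneg h0 _ _).trans g.mm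
  have hπA : π₀ * Pe F.p A ≤ Pe F.p A := mul_le_of_le_one_left hA.le hπ₀1
  have V1 := H1 _ _ _ LD1 A (fun _ h => h) hπA κ (by rw [hκ]; linarith)
  rw [jh_if, jh_if, jv_if] at V1
  have VS := vsd_ev g hA V1 (fun l hl => (hll l hl).1) NFv.ff (fun l hl => (hll l hl).2.2)
    W.jx hx1 w13 hx'1 (by
      rw [hκ]
      have : 0 ≤ 20 * (k : ℝ) ^ 2 * φ * J + θ * u * J := by positivity
      linarith)
  -- the codes
  obtain ⟨e₁, he₁⟩ : ∃ e₁ : ℝ, e₁ = ((k : ℝ) + 1) * (θ * u * J) + k * Ce +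
    (δ * u * J + 2 * (k * Real.log 5)) := ⟨_, rfl⟩
  rw [← he₁] at c3
  have hθJ : 0 ≤ θ * u * J := by positivity
  have hkθ : 0 ≤ (k : ℝ) * (θ * u * J) := by positivity
  have K1 : ∀ N : ℕ → ℕ, (∀ l < k, (N l : ℝ) ≤ (sn l w + 3 * ((T + k + 5) * u / 3)) * J) →
      ∀ l < k, CH (Pool.Agent.H49.Ent.cond F.p A True)
      (Pool.AVG71.cod F W' 2 (D' + 1) (2 ^ N l) (c l)
        (fun s => upw ⌊w * J⌋₊ W' s) (fun s => H s l)) F.W ≤ θ * u * J := by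
    intro N hN l hl
    have e1 := H4 _ _ _ LD1 W' hwW WJ l hl (N l) (hN l hl)
    rw [hif_fun hl] at e1
    exact e1
  have hEd : Det (Pool.Agent.H49.Ent.cond F.p A True) (slam F W')
      (Ecd F c k ⌊w * J⌋₊ W' H P) := ecd_det F c k ⌊w * J⌋₊ W' H P _
  obtain ⟨E1, E2⟩ := HE (F := F) (c := c) (k := k) (w := ⌊w * J⌋₊) (W := W') (D := D') (H := H)
    (P := P) (N := fun l => ⌈P l * J + W'⌉₊) (e := θ * u * J) hcl hwW WJ g.deg le_rfl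
    (fun l _ => Nat.le_ceil _) (K1 _ NFv.k9b)
  obtain ⟨Nf, hNf⟩ : ∃ Nf : ℕ → ℕ → ℝ, Nf = fun l j' => if j' = 0 then nfF k sn w x' φ l
    else P l := ⟨_, rfl⟩
  obtain ⟨Na, hNa⟩ : ∃ Na : ℕ → ℕ → ℝ, Na = fun l j' => if j' = 0 then nnF k sn w u y φ l
    else (((γ l + q + (X + mm) : ℕ) : ℝ) - W') / J := ⟨_, rfl⟩
  obtain ⟨Nv, hNv⟩ : ∃ Nv : ℕ → ℕ → ℝ, Nv = fun l j' => if j' = 0 then ((γ l + q : ℕ) : ℝ) / J
    else (((γ l + q + (X + mm) : ℕ) : ℝ) - W') / J := ⟨_, rfl⟩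
  obtain ⟨Nu, hNu⟩ : ∃ Nu : ℕ → ℕ → ℝ, Nu = fun l j' => if j' = 0 then sn l w + u + 100 * y
    else (((γ l + q + (X + mm) : ℕ) : ℝ) - W') / J := ⟨_, rfl⟩
  have Nf0 : ∀ l, Nf l 0 = nfF k sn w x' φ l := fun l => by rw [hNf]; rfl
  have Nf1 : ∀ l, Nf l 1 = P l := fun l => by rw [hNf]; rfl
  have Na0 : ∀ l, Na l 0 = nnF k sn w u y φ l := fun l => by rw [hNa]; rfl
  have Na1 : ∀ l, Na l 1 = (((γ l + q + (X + mm) : ℕ) : ℝ) - W') / J := fun l => by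
    rw [hNa]; rfl
  have Nv0 : ∀ l, Nv l 0 = ((γ l + q : ℕ) : ℝ) / J := fun l => by rw [hNv]; rfl
  have Nv1 : ∀ l, Nv l 1 = (((γ l + q + (X + mm) : ℕ) : ℝ) - W') / J := fun l => by
    rw [hNv]; rfl
  have Nu0 : ∀ l, Nu l 0 = sn l w + u + 100 * y := fun l => by rw [hNu]; rfl
  have Nu1 : ∀ l, Nu l 1 = (((γ l + q + (X + mm) : ℕ) : ℝ) - W') / J := fun l => by
    rw [hNu]; rfl
  have fNf0 : (fun l => Nf l 0) = nfF k sn w x' φ := funext Nf0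
  have fNf1 : (fun l => Nf l 1) = P := funext Nf1
  have fNa0 : (fun l => Na l 0) = nnF k sn w u y φ := funext Na0
  have fNu0 : (fun l => Nu l 0) = fun l => sn l w + u + 100 * y := funext Nu0
  have hmmU : (2 : ℝ) ^ (Cg * Y) + 1 ≤ 2 ^ mm := by
    have e1 : (1 : ℝ) ≤ 2 ^ (Cg * Y) := one_le_pow₀ (by norm_num)
    have e2 : (2 : ℝ) ^ (Cg * Y + 1) ≤ 2 ^ mm := pow_le_pow_right₀ (by norm_num) (by
      rw [hmm, Nat.add_mul]
      omega)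
    rw [pow_succ] at e2
    linarith only [e1, e2]
  have g2 : ∀ l < k, ((γ l + q + (X + mm) : ℕ) : ℝ) ≤ Nv l 1 * J + W' := fun l _ => by
    rw [Nv1, div_mul_cancel₀ _ hJp.ne', sub_add_cancel]
  have hq1 : CH (Pool.Agent.H49.Ent.cond F.p A True) (jv F c k ⌊w * J⌋₊ H fun l => Na l 1)
      (jv F c k ⌊w * J⌋₊ H fun l => Nf l 1) ≤ κ := by
    have e1 := CH_jv hcl (F := F) (c := c) (r := k) (w := ⌊w * J⌋₊) (H := H)
      (n := fun l => Nf l 1) (n' := fun l => Na l 1) (d := 0) (fun l hl => by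
        show (Na l 1 - Nf l 1) * J ≤ 0
        have e2 := NFv.f1 l hl
        rw [Na1, Nf1, sub_mul, div_mul_cancel₀ _ hJp.ne']
        linarith only [e2]) le_rfl (jv F c k ⌊w * J⌋₊ H fun l => Nf l 1) (fun _ _ _ _ e => e)
    rw [zero_mul, zero_add] at e1
    have e3 : 0 ≤ 20 * (k : ℝ) ^ 2 * φ * J + θ * u * J := by positivity
    rw [hκ]
    linarith
  have hdj := cod_path (F := F) (c := c) (k := k) (H := H) (w := ⌊w * J⌋₊) hcl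
    (n := nfF k sn w x' φ) (n' := fun l => sn l w + T * u) (v := P)
    (v' := fun l => sn l w - w + T * u) NFv.ff (fun l hl => (hll l hl).2.2) g.dj
  have hjt := cod_path (F := F) (c := c) (k := k) (H := H) (w := ⌊w * J⌋₊) hcl
    (n := fun l => sn l w + u + 100 * y) (n' := fun l => sn l w + u + 100 * y) (v := P)
    (v' := fun l => sn l w - w + T * u) (fun _ _ => le_rfl) (fun l hl => (hll l hl).2.2) g.jt
  have hnbk : CH (Pool.Agent.H49.Ent.cond F.p A True)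
      (Vv F c k ⌊w * J⌋₊ H fun l => nbF sn w xr φ l * J) (fun ω => (cR F A x' ω, F.W ω)) ≤ κ := by
    have V0 := H1 _ _ _ LD1 A (fun _ h => h) hπA ((k * (35 * y) + 20 * (k : ℝ) ^ 2 * φ + φ₀ * u +
      θ * u) * J) le_rfl
    rw [jh_if, jh_if, jv_if] at V0
    have e0 : CH (Pool.Agent.H49.Ent.cond F.p A True)
        (Vv F c k ⌊w * J⌋₊ H fun l => nbF sn w xr φ l * J) (fun ω => (cR F A x' ω, F.W ω)) ≤
        CH (Pool.Agent.H49.Ent.cond F.p A True) (jh F c k ⌊w * J⌋₊ H (nbF sn w xr φ))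
        (fun ω => (cR F A x' ω, F.W ω)) := CH_mono_left h0 fun ω ν hω hν e =>
      jh_vv (nbF sn w xr φ) ω ν hω hν (Prod.ext_iff.mp e).1
    have e1 := CH_le_add h0 (jh F c k ⌊w * J⌋₊ H (nbF sn w xr φ))
      (jh F c k ⌊w * J⌋₊ H (nfF k sn w x' φ)) (fun ω => (cR F A x' ω, F.W ω))
    have e2 := jh_few hcl (F := F) (c := c) (w := ⌊w * J⌋₊) (H := H) Nn.vb2.nnf
      (fun ω => (jh F c k ⌊w * J⌋₊ H (nfF k sn w x' φ) ω, (cR F A x' ω, F.W ω)))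
      (fun ω ν _ _ e => (Prod.ext_iff.mp e).1)
    have e3 := V0.px
    rw [hκ]
    linarith
  have hnbf : k * (X * Real.log 2) - κ ≤ CH (Pool.Agent.H49.Ent.cond F.p A True)
      (Vv F c k ⌊w * J⌋₊ H fun l => nbF sn w xr φ l * J)
      (fun ω => (jh F c k ⌊w * J⌋₊ H (nnF k sn w u y φ) ω, (cR F A x ω, F.W ω))) := by
    have e1 := H3 _ _ _ LD1 X hFl.x2
    rw [vv_if, jh_if] at e1
    have e2 : 0 ≤ 2 * (δ * u * J) + 2 * (k * Real.log 5) := by positivity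
    have e3 : (20 * (k : ℝ) ^ 2 * φ + θ * u) * J = 20 * (k : ℝ) ^ 2 * φ * J + θ * u * J := by ring
    rw [e3] at e1
    rw [hκ]
    linarith
  obtain ⟨Ur, hUr⟩ : ∃ Ur : ℝ, Ur = ((1 - h) * ξ * u * Real.log 2 + δ * u) * J +
    20 * (δ * u * J / π₀) + 20 * (k * Real.log 5) +
    76 * ((k * (35 * y) + 20 * (k : ℝ) ^ 2 * φ + φ₀ * u + θ * u) * J) +
    (k * (θ * u * J / π₀) + k * Ce) := ⟨_, rfl⟩
  rw [← hUr] at c8
  have hrow : ∀ E' : Set F.Ω, π₁ ≤ Pr (Pool.Agent.H49.Ent.cond F.p A True) E' →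
      CH (rs (Pool.Agent.H49.Ent.cond F.p A True) E') (Mh F c t ⌊w * J⌋₊ H (γ t + q + X))
        (fun ω => (Mh F c t ⌊w * J⌋₊ H (γ t + q) ω,
          (Vv F c k ⌊w * J⌋₊ H (fun l => nbF sn w xr φ l * J) ω,
            (Ecd F c k ⌊w * J⌋₊ W' H P ω, (sd ω, (cR F A w₁ ω, F.W ω)))))) ≤ Ur := by
    intro E' hE'
    obtain ⟨B', hB'⟩ : ∃ B' : F.Ω → Prop, B' = fun ω => A ω ∧ ω ∈ E' := ⟨_, rfl⟩
    have r1 : rs (Pool.Agent.H49.Ent.cond F.p A True) E' =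
        Pool.Agent.H49.Ent.cond F.p B' True := by
      rw [hB']
      exact Pool.RPL.cond_and_ev F.p (E := fun ω => ω ∈ E') hA.ne'
    have r2 : π₀ * Pe F.p A ≤ Pe F.p B' := by
      have k1 : Pr (Pool.Agent.H49.Ent.cond F.p A True) E' = Pe F.p B' / Pe F.p A := by
        rw [hB']
        exact Pe_cond (fun ω => ω ∈ E')
      rw [k1, le_div_iff₀ hA] at hE'
      exact (mul_le_mul_of_nonneg_right hπ01 hA.le).trans hE'
    have r3 : Sub B' A := fun ω hω => by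
      rw [hB'] at hω
      exact hω.1
    have hPB' : 0 < Pe F.p B' := lt_of_lt_of_le (mul_pos hπ₀ hA) r2
    rw [r1]
    have V2 := H2 _ _ _ LD1 B' r3 r2 _ le_rfl
    rw [jh_if, jh_if, jv_if] at V2
    obtain ⟨-, E3⟩ := HE (F := F) (c := c) (k := k) (w := ⌊w * J⌋₊) (W := W') (D := D') (H := H)
      (P := P) (N := fun l => ⌈P l * J + W'⌉₊) (e := θ * u * J / π₀) (isLaw_cond F.isLaw hPB') hwW
      WJ g.deg le_rfl (fun l _ => Nat.le_ceil _)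
      (fun l hl => ch_pt hA r3 hπ₀ r2 (K1 _ NFv.k9b l hl))
    have e5 := row_evb g hA r3 hπ₀ r2 V2 (fun l hl => (hll l hl).2.1) NFv.ff
      (fun l hl => (hll l hl).2.2) w10 w13 hx'1 E3
    rw [hUr]
    exact e5
  have hsl : Det (Pool.Agent.H49.Ent.cond F.p A True) (slam F W') sd := fun ω ν hω hν e =>
    g.sl ω ν hω hν (by rw [← upw_slam F hwW WJ ω, ← upw_slam F hwW WJ ν, e])
  obtain ⟨vt, hvt⟩ : ∃ vt : ℝ, vt = -(|E| + 3) := ⟨_, rfl⟩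
  have hHF := HF (c := c) (t := t) (q := q) (w := ⌊w * J⌋₊) (W := W') (X := X) (mm := mm)
    (D := D') (γ := γ) (B := A) (G₀ := G₀) (H := H) (gg := gg) (zw := cR F A w₁)
    (Rj := cR F A j) (Rx := cR F A x) (R' := cR F A x')
    (XJ := fun ω => fun l : Fin k => F.X J ω (c l)) (M1 := M1) (M2 := M2) (sd := sd) (Cj := Cj)
    (Cx := Cx) (E' := Ecd F c k ⌊w * J⌋₊ W' H P) (p := Pool.Agent.H49.Ent.cond F.p A True)
    (Nf := Nf) (Nn := Na) (Nu := Nu) (Nv := Nv) (nb := nbF sn w xr φ) (vt := vt)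
    (U := 2 ^ (Cg * Y)) (κ := κ) (e₁ := e₁) (d := 300 * y * J) (ψ := θ * u) (Ur := Ur)
    hcl hsup hwW NFv.WX g.deg le_rfl g.cl hgrd hmmU
    (by rw [fNa0, fNf0, fNf1]; exact VS)
    (by
      rw [ch_det h0 (det_cR2 (fun _ h => h) w5 hx1 hsup)]
      exact VS.V.κ0)
    hq1 g.hj g.hx (det_slam hw₁W WJ hsup) hsl hEd
    (by rw [fNf1, he₁]; linarith) (by rw [fNf1, he₁]; linarith)
    (fun l hl => by rw [Na0]; exact NFv.n0 l hl)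
    (fun l _ => by rw [Na1, div_mul_cancel₀ _ hJp.ne', sub_add_cancel])
    (fun l hl => by rw [Nu0]; exact NFv.u0 l hl)
    (fun l _ => by rw [Nu1, div_mul_cancel₀ _ hJp.ne', sub_add_cancel])
    (by
      have e1 : (W' : ℝ) ≤ J := by exact_mod_cast WJ
      have e2 : (0 : ℝ) ≤ ((γ t + q : ℕ) : ℝ) := Nat.cast_nonneg _
      have e3 : 0 ≤ |E| * J := by positivity
      rw [hvt]
      linarith only [e1, e2, e3, hJ0])
    (fun ω hω => by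
      rw [hvt]
      exact hJ₁ J (by omega) F (c t) A ⌊w * J⌋₊ (fun s' => H s' t) hwJ'
        (fun s' => g.deg s' t) g.cf ω (hsup ω hω))
    (fun l hl => (K1 (fun l => γ l + q + (X + mm)) NFv.k9a l hl).trans (by rw [he₁]; linarith))
    (fun l hl => by rw [Nf0]; exact NFv.f0 l hl)
    (fun l hl => by rw [Nf1]; exact NFv.f1 l hl)
    (fun l _ => by rw [Nv0, div_mul_cancel₀ _ hJp.ne']) g2
    (fun l => by rw [Nv1, Na1]) (by positivity)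
    (fun l hl => by
      rw [Nv0, Na0, sub_mul, div_mul_cancel₀ _ hJp.ne']
      exact NFv.d l hl)
    (by rw [fNf0, fNf1, he₁]; linarith) (by rw [fNu0, fNf1, he₁]; linarith) hnbk
    (by rw [fNa0]; exact hnbf) NFv.nb1 NFv.nb2 hrow TW (by exact_mod_cast c0) c2 c3 c4 c5
    (by rw [hmmR]; exact c6) c8
  obtain ⟨mu, hmu1, hmu2⟩ := hHF
  exact ⟨W', mu, hw₁W, hW2, hmu1, by rw [← hX]; exact hmu2⟩

end Pool.VG83
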