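import Pool.Agent.H83.VG.S
import Pool.Agent.H44.V0F.V0c1

/-!
# The numbers of the class theorem

`NG`: the windows. `NG.vb1`, `NG.vb2`: the numbers of the laws. `NE`: the numbers of one event.
-/

set_option autoImplicit false

namespace Pool.VG83

open Finset Real
open Pool.PB Pool.LA91 Pool.V0F
open Pool.VT83 (VB)

/-- **The numbers of the windows.** -/
structure NG (k : ℕ) (sn : ℕ → ℝ → ℝ) (G : Set ℝ) (b o φ w u y ξ T Λ : ℝ) (w₁ : ℚ)
    (j x xr x' : ℝ) : Prop where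
  W : GW k sn G b o φ w u y ξ T Λ w₁ j x xr x'
  φ0 : 0 < φ
  ξ0 : 0 < ξ
  ξ1 : ξ ≤ 1
  yu : 2000 * y ≤ ξ * u
  T10 : 10 ≤ T
  hΛ : Λ = 4 * T + 4 * k + 40
  sl : ∀ i < k, ∀ v ∈ G, b ≤ v → v ≤ o → |(sn i v - v) - (sn i w - w)| ≤ 2 * φ
  bG : b ∈ G
  oG : o ∈ G
  b0 : 0 ≤ b

namespace NG

variable {k : ℕ} {sn : ℕ → ℝ → ℝ} {G : Set ℝ} {b o φ w u y ξ T Λ : ℝ} {w₁ : ℚ}
  {j x xr x' : ℝ}

section

variable (N : NG k sn G b o φ w u y ξ T Λ w₁ j x xr x')

include N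

/-- The small quantities. -/
theorem sm : 0 ≤ (k : ℝ) * φ ∧ 0 < φ ∧ k * φ + 3 * φ ≤ y ∧ 0 < y ∧ ξ * u ≤ u ∧ 0 ≤ ξ * u ∧
    0 < u ∧ 10 * u ≤ T * u ∧ 0 ≤ (k : ℝ) * u ∧ Λ * u = 4 * (T * u) + 4 * (k * u) + 40 * u := by
  have h1 : (0 : ℝ) ≤ k := Nat.cast_nonneg k
  have h2 := N.φ0
  have h3 := N.W.yφ
  have h4 := N.W.u0
  have h5 : (0 : ℝ) ≤ k * φ := by positivity
  refine ⟨h5, h2, by linarith, by nlinarith, ?_, ?_, h4, ?_, by positivity, ?_⟩
  · have := mul_le_mul_of_nonneg_right N.ξ1 h4.le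
    linarith
  · have := N.ξ0
    positivity
  · exact mul_le_mul_of_nonneg_right N.T10 h4.le
  · rw [N.hΛ]
    ring

/-- The windows are between `b` and `o`. -/
theorem wins : b ≤ w ∧ w ≤ o ∧ b ≤ o ∧ b ≤ w₁ ∧ (w₁ : ℝ) ≤ x ∧ j ≤ o ∧ b ≤ j ∧ b ≤ x ∧ x ≤ o ∧
    x ≤ xr ∧ b ≤ xr ∧ xr ≤ o ∧ xr ≤ x' ∧ b ≤ x' ∧ x' ≤ o ∧ (w₁ : ℝ) ≤ xr ∧ j ≤ w + u + φ ∧
    w ≤ j ∧ x' ≤ w + T * u + φ ∧ w + T * u ≤ x' + φ := by
  obtain ⟨h1, h2, h3, h4, h5, h6, h7, h8, h9, h10⟩ := N.sm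
  have hx := abs_le.1 N.W.hx
  have hxr := abs_le.1 N.W.hxr
  have hx' := abs_le.1 N.W.hx'
  have a1 := N.W.bw
  have a2 := N.W.wo
  have a3 := N.W.hw1
  have a4 := N.W.hw2
  have a5 := N.W.wj
  have a6 := N.W.jx
  have a7 := N.yu
  refine ⟨by linarith, by linarith, by linarith, by linarith, by linarith, by linarith,
    by linarith, by linarith, by linarith, by linarith, by linarith, by linarith, by linarith,
    by linarith, by linarith, by linarith, by linarith, by linarith, by linarith, by linarith⟩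

/-- The levels of the chain. -/
theorem slv {i : ℕ} (hi : i < k) {v : ℝ} (hv : v ∈ G) (h1 : b ≤ v) (h2 : v ≤ o) :
    sn i v ≤ sn i w + (v - w) + 2 * φ ∧ sn i w + (v - w) - 2 * φ ≤ sn i v := by
  have := abs_le.1 (N.sl i hi v hv h1 h2)
  constructor <;> linarith [this.1, this.2]

theorem lwb {l : ℕ} (hl : l < k) : Λ * u ≤ sn l w ∧ sn l w + 2 * (Λ * u) ≤ 1 + 2 * φ := by
  obtain ⟨h1, h2, h3, h4, h5, h6, h7, h8, h9, h10⟩ := N.sm
  obtain ⟨w1, w2, w3, -⟩ := N.wins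
  have c := N.W.lb l hl
  have e1 := N.slv hl N.bG le_rfl w3
  have e2 := N.slv hl N.oG w3 le_rfl
  have a1 := N.W.bw
  have a2 := N.W.wo
  have a7 := N.yu
  constructor
  · linarith [c.1]
  · linarith [c.2]

theorem li {i : ℕ} (hi : i < k) : φ ≤ ((k : ℝ) - i) * φ ∧ ((k : ℝ) - i) * φ ≤ k * φ ∧
    0 ≤ (i : ℝ) * φ := by
  have h1 : (i : ℝ) + 1 ≤ k := by exact_mod_cast hi
  have h2 := N.φ0
  have h3 : (0 : ℝ) ≤ i := Nat.cast_nonneg i
  refine ⟨?_, ?_, by positivity⟩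
  · nlinarith
  · nlinarith

/-- The far digits are few enough. -/
theorem tpf : Tp k sn b φ (nfF k sn w x' φ) := by
  obtain ⟨h1, h2, h3, h4, h5, h6, h7, h8, h9, h10⟩ := N.sm
  obtain ⟨w1, w2, w3, w4, w5, w6, w7, w8, w9, w10, w11, w12, w13, w14, w15, w16, w17, w18, w19,
    w20⟩ := N.wins
  have a1 := N.W.bw
  have a2 := N.W.wo
  have a3 := N.W.o1
  have a7 := N.yu
  refine ⟨fun i hi => ?_, fun i hi l hl => ?_⟩
  · obtain ⟨i1, i2, i3⟩ := N.li hi
    have e1 := N.slv hi N.bG le_rfl w3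
    unfold nfF
    linarith
  · obtain ⟨i1, i2, i3⟩ := N.li hi
    have e1 := N.slv hi N.bG le_rfl w3
    have e2 := N.slv (hl.trans hi) N.bG le_rfl w3
    have e3 := N.slv (hl.trans hi) N.oG w3 le_rfl
    have e4 := (N.W.lb l (hl.trans hi)).2
    unfold nfF
    linarith

/-- The digits of the rows are few enough. -/
theorem tpb : Tp k sn b φ (nbF sn w xr φ) := by
  obtain ⟨h1, h2, h3, h4, h5, h6, h7, h8, h9, h10⟩ := N.sm
  obtain ⟨w1, w2, w3, w4, w5, w6, w7, w8, w9, w10, w11, w12, w13, w14, w15, w16, w17, w18, w19,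
    w20⟩ := N.wins
  have a1 := N.W.bw
  have a2 := N.W.wo
  have a3 := N.W.o1
  have a7 := N.yu
  refine ⟨fun i hi => ?_, fun i hi l hl => ?_⟩
  · obtain ⟨i1, i2, i3⟩ := N.li hi
    have e1 := N.slv hi N.bG le_rfl w3
    unfold nbF
    linarith
  · obtain ⟨i1, i2, i3⟩ := N.li hi
    have e1 := N.slv hi N.bG le_rfl w3
    have e2 := N.slv (hl.trans hi) N.bG le_rfl w3
    have e3 := N.slv (hl.trans hi) N.oG w3 le_rfl
    have e4 := (N.W.lb l (hl.trans hi)).2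
    unfold nbF
    linarith

/-- **The numbers of the law** at the windows `j`, `x`. -/
theorem vb1 : VB k sn G b o φ (fun l => sn l b - φ) (nnF k sn w u y φ) (nfF k sn w x' φ) w₁ j x
    x' (35 * y) := by
  obtain ⟨h1, h2, h3, h4, h5, h6, h7, h8, h9, h10⟩ := N.sm
  obtain ⟨w1, w2, w3, w4, w5, w6, w7, w8, w9, w10, w11, w12, w13, w14, w15, w16, w17, w18, w19,
    w20⟩ := N.wins
  have hx := abs_le.1 N.W.hx
  have a1 := N.W.bw
  have a2 := N.W.wo
  have a3 := N.W.o1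
  have a7 := N.yu
  refine
    { jG := N.W.jG
      xG := N.W.xG
      xG' := N.W.xG'
      bw := w4
      wj := N.W.wj
      wx := w5
      jx := by linarith [N.W.jx]
      xx := by linarith
      xo := w15
      x1 := by linarith
      bx := by linarith
      hp := fun i _ => le_rfl
      nj := fun i hi => ?_
      nx := fun i hi => ?_
      nnf := fun i hi => ?_
      nf0 := fun i hi => ?_
      nfΔ := fun i hi => ?_
      nf1 := fun i hi => ?_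
      tp := N.tpf }
  · obtain ⟨i1, i2, i3⟩ := N.li hi
    have e1 := N.slv hi N.W.jG w7 w6
    unfold nnF
    linarith
  · obtain ⟨i1, i2, i3⟩ := N.li hi
    have e1 := N.slv hi N.W.xG w8 w9
    unfold nnF
    linarith
  · obtain ⟨i1, i2, i3⟩ := N.li hi
    unfold nnF nfF
    linarith
  · obtain ⟨i1, i2, i3⟩ := N.li hi
    have e1 := N.slv hi N.W.xG' w14 w15
    unfold nfF
    linarith
  · obtain ⟨i1, i2, i3⟩ := N.li hi
    have e1 := N.slv hi N.W.xG' w14 w15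
    unfold nfF
    linarith
  · obtain ⟨i1, i2, i3⟩ := N.li hi
    have e1 := N.lwb hi
    unfold nfF
    linarith

/-- **The numbers of the law** at the window of the rows. -/
theorem vb2 : VB k sn G b o φ (fun l => sn l b - φ) (nbF sn w xr φ) (nfF k sn w x' φ) w₁ xr xr
    x' (35 * y) := by
  obtain ⟨h1, h2, h3, h4, h5, h6, h7, h8, h9, h10⟩ := N.sm
  obtain ⟨w1, w2, w3, w4, w5, w6, w7, w8, w9, w10, w11, w12, w13, w14, w15, w16, w17, w18, w19,
    w20⟩ := N.wins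
  have V := N.vb1
  refine
    { jG := N.W.rG
      xG := N.W.rG
      xG' := N.W.xG'
      bw := w4
      wj := w16
      wx := w16
      jx := w13
      xx := w13
      xo := w15
      x1 := V.x1
      bx := V.bx
      hp := fun i _ => le_rfl
      nj := fun i hi => ?_
      nx := fun i hi => ?_
      nnf := fun i hi => ?_
      nf0 := V.nf0
      nfΔ := V.nfΔ
      nf1 := V.nf1
      tp := N.tpf }
  · have e1 := N.slv hi N.W.rG w11 w12
    unfold nbF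
    linarith
  · have e1 := N.slv hi N.W.rG w11 w12
    unfold nbF
    linarith
  · obtain ⟨i1, i2, i3⟩ := N.li hi
    unfold nbF nfF
    linarith

/-- **The digits of the rows.** -/
theorem nbc : (∀ i < k, sn i x ≤ nnF k sn w u y φ i ∧ nnF k sn w u y φ i ≤ nbF sn w xr φ i ∧
    nbF sn w xr φ i ≤ 1) ∧ ∀ i < k, ξ * u ≤ nbF sn w xr φ i - nnF k sn w u y φ i := by
  obtain ⟨h1, h2, h3, h4, h5, h6, h7, h8, h9, h10⟩ := N.sm
  obtain ⟨w1, w2, w3, w4, w5, w6, w7, w8, w9, w10, w11, w12, w13, w14, w15, w16, w17, w18, w19,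
    w20⟩ := N.wins
  have V := N.vb1
  have hxr := abs_le.1 N.W.hxr
  have a7 := N.yu
  have hd : ∀ i < k, ξ * u ≤ nbF sn w xr φ i - nnF k sn w u y φ i := fun i hi => by
    obtain ⟨i1, i2, i3⟩ := N.li hi
    unfold nnF nbF
    linarith
  refine ⟨fun i hi => ⟨V.nx i hi, by linarith [hd i hi], ?_⟩, hd⟩
  have e1 := N.lwb hi
  unfold nbF
  linarith

/-- The numbers of the codes of order `≥ 2` of the chain. -/
theorem k9_c : w < 1 ∧ ∀ l < k, sn l w + 3 * ((T + k + 5) * u / 3) ≤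
    (sn l b - φ) + 2 * (w - b) := by
  obtain ⟨h1, h2, h3, h4, h5, h6, h7, h8, h9, h10⟩ := N.sm
  obtain ⟨w1, w2, w3, -⟩ := N.wins
  have a1 := N.W.bw
  have a2 := N.W.wo
  have a3 := N.W.o1
  have a7 := N.yu
  refine ⟨by linarith, fun l hl => ?_⟩
  have e1 := N.slv hl N.bG le_rfl w3
  have e2 : 3 * ((T + k + 5) * u / 3) = T * u + k * u + 5 * u := by ring
  rw [e2]
  linarith

/-- **The digits of the velocities.** -/
theorem pq : ∃ Pq : ℕ → ℚ,
    (∀ l < k, sn l w - w + (T + 1) * u ≤ (Pq l : ℝ)) ∧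
    (∀ l < k, (Pq l : ℝ) ≤ sn l w - w + (T + k + 2) * u) ∧
    (∀ i : Fin k, sn i w - w + u ≤ (Pq i : ℝ) ∧ (Pq i : ℝ) ≤ sn i w - w + Λ * u) ∧
    (∀ l i : Fin k, l < i → (Pq i : ℝ) - (sn i w - w) + u / 2 ≤ Pq l - (sn l w - w)) := by
  obtain ⟨h1, h2, h3, h4, h5, h6, h7, h8, h9, h10⟩ := N.sm
  have hPex : ∀ l : ℕ, ∃ q : ℚ, sn l w - w + (T + 1 + ((k : ℝ) - l)) * u < q ∧
      (q : ℝ) < sn l w - w + (T + 1 + ((k : ℝ) - l)) * u + u / 4 := fun l =>
    exists_rat_btwn (by linarith only [h7])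
  choose Pq hPq1 hPq2 using hPex
  have hrl : ∀ l < k, 0 ≤ ((k : ℝ) - l) * u ∧ ((k : ℝ) - l) * u ≤ k * u := by
    intro l hl
    have h1 : (l : ℝ) ≤ k := by exact_mod_cast hl.le
    have h2 : (0 : ℝ) ≤ l := Nat.cast_nonneg l
    exact ⟨mul_nonneg (by linarith) h7.le, mul_le_mul_of_nonneg_right (by linarith) h7.le⟩
  refine ⟨Pq, fun l hl => ?_, fun l hl => ?_, fun i => ⟨?_, ?_⟩, fun l i hli => ?_⟩
  · have h1 := hPq1 l
    have h2 := hrl l hl
    linarith only [h1, h2.1]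
  · have h1 := hPq2 l
    have h2 := hrl l hl
    linarith only [h1, h2.2, h7]
  · have h1 := hPq1 i
    have h2 := hrl i i.2
    linarith only [h1, h2.1, h8, h7]
  · have h1 := hPq2 i
    have h2 := hrl i i.2
    linarith only [h1, h2.2, h8, h7, h10, h9]
  · have h1 := hPq1 (l : ℕ)
    have h2 := hPq2 (i : ℕ)
    have h3 : ((l : ℕ) : ℝ) + 1 ≤ ((i : ℕ) : ℝ) := by exact_mod_cast hli
    have h4 : (((k : ℝ) - (i : ℕ)) + 1) * u ≤ ((k : ℝ) - (l : ℕ)) * u :=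
      mul_le_mul_of_nonneg_right (by linarith only [h3]) h7.le
    linarith only [h1, h2, h4, h7]

end

end NG

/-- The windows of the theorem. -/
theorem ng_ex {m : ℕ} {S : PCl m} {c : ℕ → Fin m} {k : ℕ} {sn : ℕ → ℝ → ℝ} {G : Set ℝ}
    {b o φ w u y ξ T Λ : ℝ} {w₁ : ℚ} {j x xr x' : ℝ} (L : Lad S c k sn G b o φ)
    (W : GW k sn G b o φ w u y ξ T Λ w₁ j x xr x') (hξ : 0 < ξ) (hξ1 : ξ ≤ 1)
    (hT : 10 ≤ T) (hΛ : Λ = 4 * T + 4 * k + 40) (hy : 2000 * y ≤ ξ * u) :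
    NG k sn G b o φ w u y ξ T Λ w₁ j x xr x' where
  W := W
  φ0 := L.φ0
  ξ0 := hξ
  ξ1 := hξ1
  yu := hy
  T10 := hT
  hΛ := hΛ
  sl := fun i hi v hv h1 h2 => by
    have hu := W.u0
    have hΛu : 0 ≤ Λ * u := by
      rw [hΛ]
      have : (0 : ℝ) ≤ k := Nat.cast_nonneg k
      have : 0 ≤ 4 * T + 4 * k + 40 := by linarith
      positivity
    have e1 := abs_le.1 (L.fl i hi v hv h1 h2)
    have e2 := abs_le.1 (L.fl i hi w W.wG (by linarith [W.bw]) (by linarith [W.wo]))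
    rw [abs_le]
    constructor <;> linarith [e1.1, e1.2, e2.1, e2.2]
  bG := L.bG
  oG := L.oG
  b0 := L.b0

/-- **The numbers of one event.** -/
structure NE (k : ℕ) (sn : ℕ → ℝ → ℝ) (φ w u y ξ : ℝ) (J : ℕ) (γ : ℕ → ℕ) (q X mm W : ℕ) :
    Prop where
  big : 10 ≤ φ * J
  g1 : ∀ l < k, (sn l w - φ) * J ≤ γ l
  g2 : ∀ l < k, (γ l : ℝ) ≤ sn l w * J
  q1 : (u + 500 * y) * J - 1 ≤ q
  q2 : (q : ℝ) ≤ (u + 500 * y) * J
  X1 : ξ * u * J - 1 ≤ X
  X2 : (X : ℝ) ≤ ξ * u * J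
  mm1 : 1000 * y * J + 3 ≤ mm
  mm2 : (mm : ℝ) ≤ u / 2 * J
  W1 : w * J - 1 ≤ W
  W2 : (W : ℝ) ≤ (w + 2 * φ) * J

section

variable {k : ℕ} {sn : ℕ → ℝ → ℝ} {G : Set ℝ} {b o φ w u y ξ T Λ : ℝ} {w₁ : ℚ}
  {j x xr x' : ℝ} {J : ℕ} {γ : ℕ → ℕ} {q X mm W : ℕ}

/-- **The conditions of the digits.** -/
structure NF (k : ℕ) (sn : ℕ → ℝ → ℝ) (φ w u y T xr x' : ℝ) (P : ℕ → ℝ) (J : ℕ) (γ : ℕ → ℕ)
    (q X mm W : ℕ) : Prop where
  WX : W + X ≤ J
  n0 : ∀ l < k, nnF k sn w u y φ l * J ≤ (γ l + q : ℕ)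
  u0 : ∀ l < k, (sn l w + u + 100 * y) * J ≤ (γ l + q : ℕ)
  f0 : ∀ l < k, ((γ l + q + (X + mm) : ℕ) : ℝ) ≤ nfF k sn w x' φ l * J
  f1 : ∀ l < k, ((γ l + q + (X + mm) : ℕ) : ℝ) ≤ P l * J + W
  d : ∀ l < k, ((γ l + q : ℕ) : ℝ) - nnF k sn w u y φ l * J ≤ 300 * y * J
  nb1 : ∀ l < k, ((γ l + q + X : ℕ) : ℝ) ≤ nbF sn w xr φ l * J
  nb2 : ∀ l < k, nbF sn w xr φ l * J ≤ (γ l + q + (X + mm) : ℕ)
  k9a : ∀ l < k, ((γ l + q + (X + mm) : ℕ) : ℝ) ≤ (sn l w + 3 * ((T + k + 5) * u / 3)) * J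
  k9b : ∀ l < k, ((⌈P l * J + W⌉₊ : ℕ) : ℝ) ≤ (sn l w + 3 * ((T + k + 5) * u / 3)) * J
  ff : ∀ l < k, sn l w + T * u ≤ nfF k sn w x' φ l

theorem NG.nf (N : NG k sn G b o φ w u y ξ T Λ w₁ j x xr x') (M : NE k sn φ w u y ξ J γ q X mm W)
    {P : ℕ → ℝ} (hP : ∀ l < k, sn l w - w + (T + 1) * u ≤ P l)
    (hP2 : ∀ l < k, P l ≤ sn l w - w + (T + k + 2) * u) :
    NF k sn φ w u y T xr x' P J γ q X mm W := by
  obtain ⟨h1, h2, h3, h4, h5, h6, h7, h8, h9, h10⟩ := N.sm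
  obtain ⟨w1, w2, w3, w4, w5, w6, w7, w8, w9, w10, w11, w12, w13, w14, w15, w16, w17, w18, w19,
    w20⟩ := N.wins
  have hxr := abs_le.1 N.W.hxr
  have a1 := N.W.bw
  have a2 := N.W.wo
  have a3 := N.W.o1
  have a7 := N.yu
  have hJ0 : (0 : ℝ) ≤ J := Nat.cast_nonneg J
  have mj : ∀ {a a' : ℝ}, a ≤ a' → a * J ≤ a' * J := fun h => mul_le_mul_of_nonneg_right h hJ0
  obtain ⟨m0, m1, m2, m3, m4, m5, m6, m7, m8, m9, m10⟩ := M
  have z1 := mj h3
  have z2 := mj a7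
  have z3 := mj h5
  have z4 := mj h8
  have hkJ : 0 ≤ (k : ℝ) * φ * J := by positivity
  have huJ : 0 ≤ u * J := by positivity
  have hkuJ : 0 ≤ (k : ℝ) * u * J := by positivity
  have hyJ : 0 ≤ y * J := by positivity
  have e3 : 3 * ((T + k + 5) * u / 3) = T * u + k * u + 5 * u := by ring
  have hw0 : 0 ≤ w := N.b0.trans w1
  refine
    { WX := ?_
      n0 := fun l hl => ?_
      u0 := fun l hl => ?_
      f0 := fun l hl => ?_
      f1 := fun l hl => ?_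
      d := fun l hl => ?_
      nb1 := fun l hl => ?_
      nb2 := fun l hl => ?_
      k9a := fun l hl => ?_
      k9b := fun l hl => ?_
      ff := fun l hl => ?_ }
  · have e1 : (W : ℝ) + X ≤ J := by
      have e2 := mj (show w + 2 * φ + ξ * u ≤ 1 by linarith)
      linarith
    exact_mod_cast e1
  · obtain ⟨i1, i2, i3⟩ := N.li hl
    have z5 := mj i2
    have g1 := m1 l hl
    unfold nnF
    push_cast
    linarith
  · have g1 := m1 l hl
    push_cast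
    linarith
  · obtain ⟨i1, i2, i3⟩ := N.li hl
    have z5 := mj i1
    have g2 := m2 l hl
    have z6 := mj w20
    unfold nfF
    push_cast
    linarith
  · have g2 := m2 l hl
    have z6 := mj (hP l hl)
    push_cast
    linarith
  · obtain ⟨i1, i2, i3⟩ := N.li hl
    have z5 := mj i1
    have g2 := m2 l hl
    unfold nnF
    push_cast
    linarith
  · have g2 := m2 l hl
    have z6 := mj hxr.1
    unfold nbF
    push_cast
    linarith
  · have g1 := m1 l hl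
    have z6 := mj hxr.2
    unfold nbF
    push_cast
    linarith
  · have g2 := m2 l hl
    rw [e3]
    push_cast
    linarith
  · have e4 := Nat.ceil_lt_add_one (a := P l * J + W) (by
      have e5 := N.lwb hl
      have e6 := mj (hP l hl)
      have e7 := mj e5.1
      have e8 : (sn l w - w + (T + 1) * u) * J = sn l w * J - w * J + (T * u) * J + u * J := by ring
      have e9 : (0 : ℝ) ≤ sn l w * J := by
        refine le_trans ?_ e7
        rw [h10]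
        exact mul_nonneg (by linarith) hJ0
      have e10 : 10 * u * J ≤ T * u * J := by
        have := mj h8
        linarith
      linarith)
    have z6 := mj (hP2 l hl)
    rw [e3]
    have e5 : (sn l w - w + (T + k + 2) * u) * J = sn l w * J - w * J + (T * u) * J +
      (k * u) * J + 2 * (u * J) := by ring
    have e6 : (sn l w + (T * u + k * u + 5 * u)) * J = sn l w * J + (T * u) * J + (k * u) * J +
      5 * (u * J) := by ring
    rw [e6]
    linarith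
  · obtain ⟨i1, i2, i3⟩ := N.li hl
    unfold nfF
    linarith

end

end Pool.VG83
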