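import Pool.Agent.H83.VG.Cls
import Pool.Agent.H83.VG.Num

/-!
# The inputs of the event theorem

`vsd_ev`: the law with the side path on the event, from `GEv` and the law of the base coordinates.
`row_evb`: the rows over the near path and the codes of the velocities, on parts of the event.
-/

set_option autoImplicit false

namespace Pool.VG83

open Finset Real MvPolynomial
open Pool.Agent.H49.Ent Pool.Agent.H32.Dense
open Pool.STK hiding pr2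
open Pool.KA Pool.KSAT Pool.K2S Pool.PB Pool.S6C
open Pool.GEN Pool.CHT Pool.CHX Pool.ISO Pool.LA91 Pool.AVG71 Pool.AVG5 Pool.D2F2 Pool.AVG57
open Pool.RCD Pool.AVG96 Pool.V0F Pool.OWN68
open Pool.VT83 (VSd)

theorem fl_co {a b : ℕ} (h : a ≤ b) {x y : ℝ} (e : ⌊(2 : ℝ) ^ b * x⌋ = ⌊(2 : ℝ) ^ b * y⌋) :
    ⌊(2 : ℝ) ^ a * x⌋ = ⌊(2 : ℝ) ^ a * y⌋ := by
  have key : ∀ c : ℝ, ⌊(2 : ℝ) ^ a * c⌋ = ⌊(2 : ℝ) ^ b * c⌋ / ((2 ^ (b - a) : ℕ) : ℤ) := by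
    intro c
    rw [← Int.floor_div_natCast]
    congr 1
    have : (2 : ℝ) ^ b = 2 ^ a * 2 ^ (b - a) := by
      rw [← pow_add]
      congr 1
      omega
    rw [this]
    push_cast
    field_simp
  rw [key, key, e]

section

variable {Ω : Type} [Fintype Ω] {p : Ω → ℝ}

theorem ch_to (h0 : ∀ ω, 0 ≤ p ω) {α β γ : Type} {S : Ω → α} {Y : Ω → β} {Y' : Ω → γ} {e d : ℝ}
    (h1 : CH p S Y ≤ e) (h2 : CH p Y Y' ≤ d) : CH p S Y' ≤ e + d := by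
  have a1 := CH_le_add h0 S Y Y'
  have a2 : CH p S (fun ω => (Y ω, Y' ω)) ≤ CH p S Y := CH_mono_cond h0 fun ω ν _ _ e =>
    (Prod.ext_iff.mp e).1
  linarith

theorem ch_det (h0 : ∀ ω, 0 ≤ p ω) {α β : Type} {X : Ω → α} {Y : Ω → β} (h : Det p Y X) :
    CH p X Y = 0 := CH_eq_zero h0 h

end

variable {m J : ℕ} {F : Fam m J}

/-- Few bits on parts. -/
theorem ch_pt {A B : F.Ω → Prop} (hA : 0 < Pe F.p A) (hB : Sub B A) {π₀ : ℝ} (hπ : 0 < π₀)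
    (hm : π₀ * Pe F.p A ≤ Pe F.p B) {α β : Type} {X : F.Ω → α} {Y : F.Ω → β} {e : ℝ}
    (h : CH (Pool.Agent.H49.Ent.cond F.p A True) X Y ≤ e) :
    CH (Pool.Agent.H49.Ent.cond F.p B True) X Y ≤ e / π₀ := by
  have h1 := Pool.K2S.Piece.CH_sub F.isLaw hB hA X Y
  have hBp : 0 < Pe F.p B := lt_of_lt_of_le (mul_pos hπ hA) hm
  have h0 := CH_nonneg (isLaw_cond F.isLaw hBp).nonneg X Y
  have h2 : π₀ * Pe F.p A * CH (Pool.Agent.H49.Ent.cond F.p B True) X Y ≤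
      Pe F.p B * CH (Pool.Agent.H49.Ent.cond F.p B True) X Y := mul_le_mul_of_nonneg_right hm h0
  have h3 : Pe F.p A * CH (Pool.Agent.H49.Ent.cond F.p A True) X Y ≤ Pe F.p A * e :=
    mul_le_mul_of_nonneg_left h hA.le
  rw [le_div_iff₀ hπ]
  have h4 : Pe F.p A * (CH (Pool.Agent.H49.Ent.cond F.p B True) X Y * π₀) ≤ Pe F.p A * e := by
    linarith
  exact le_of_mul_le_mul_left h4 hA

section

variable {c : ℕ → Fin m} {k w t : ℕ} {H : LnT F → ℕ → MvPolynomial (Option (Fin m)) ℝ}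
  {p : F.Ω → ℝ}

theorem mh_det {N N' : ℕ} (h : N ≤ N') : Det p (Mh F c t w H N') (Mh F c t w H N) := by
  intro ω ν _ _ e
  unfold Mh at e ⊢
  exact fl_co h e

/-- Fewer positions. -/
theorem jh_few (hp : IsLaw p) {n n' : ℕ → ℝ} (hn : ∀ l < k, n' l ≤ n l) {β : Type}
    (Z : F.Ω → β) (hZ : Det p Z (jh F c k w H n)) :
    CH p (jh F c k w H n') Z ≤ k * Real.log 5 := by
  have hJ0 : (0 : ℝ) ≤ J := Nat.cast_nonneg J
  have h := CH_jh hp (F := F) (c := c) (r := k) (w := w) (H := H) (n := n) (n' := n') (d := 0)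
    (fun l hl => by
      have := mul_le_mul_of_nonneg_right (hn l hl) hJ0
      linarith) le_rfl Z hZ
  rw [zero_mul, zero_add] at h
  exact h

/-- Fewer velocities. -/
theorem jv_few (hp : IsLaw p) {n n' : ℕ → ℝ} (hn : ∀ l < k, n' l ≤ n l) {β : Type}
    (Z : F.Ω → β) (hZ : Det p Z (jv F c k w H n)) :
    CH p (jv F c k w H n') Z ≤ k * Real.log 5 := by
  have hJ0 : (0 : ℝ) ≤ J := Nat.cast_nonneg J
  have h := CH_jv hp (F := F) (c := c) (r := k) (w := w) (H := H) (n := n) (n' := n') (d := 0)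
    (fun l hl => by
      have := mul_le_mul_of_nonneg_right (hn l hl) hJ0
      linarith) le_rfl Z hZ
  rw [zero_mul, zero_add] at h
  exact h

/-- A shorter path. -/
theorem path_few (hp : IsLaw p) {n n' v v' : ℕ → ℝ} (hn : ∀ l < k, n' l ≤ n l)
    (hv : ∀ l < k, v' l ≤ v l) {β : Type} (Z : F.Ω → β) (hZ : Det p Z (jh F c k w H n))
    (hZ' : Det p Z (jv F c k w H v)) :
    CH p (fun ω => (jh F c k w H n' ω, jv F c k w H v' ω)) Z ≤ 2 * (k * Real.log 5) := by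
  have h1 := CH_subadd hp.nonneg (jh F c k w H n') (jv F c k w H v') Z
  have h2 := jh_few hp hn Z hZ
  have h3 := jv_few hp hv Z hZ'
  linarith

end

section

variable {c : ℕ → Fin m} {k t D' q X Cg : ℕ} {sn : ℕ → ℝ → ℝ} {w u y φ ξ T : ℝ} {w₁ : ℚ}
  {j x xr x' h E π₀ δ : ℝ} {A : F.Ω → Prop}
  {G₀ : PtT F → ℕ → MvPolynomial (Option (Fin m)) ℝ}
  {H : LnT F → ℕ → MvPolynomial (Option (Fin m)) ℝ} {γ : ℕ → ℕ} {gg : F.Ω → Fin k → ℝ}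
  {χ₁ χ₂ μ₁ μ₂ σ : Type} {Cj : F.Ω → χ₁} {Cx : F.Ω → χ₂} {M1 : F.Ω → μ₁} {M2 : F.Ω → μ₂}
  {sd : F.Ω → σ} {P nn nf nb : ℕ → ℝ} {Fv Gf κ : ℝ}

/-- **The law with the side path** on the event. -/
theorem vsd_ev (g : GEv F c k t D' q X Cg sn w u y φ ξ T w₁ j x xr x' h E π₀ δ A G₀ H γ gg Cj Cx
      M1 M2 sd) (hA : 0 < Pe F.p A)
    (V : VLaw2 (Pool.Agent.H49.Ent.cond F.p A True) (cR F A w₁) (cR F A j) (cR F A x)
      (cR F A x') F.W (jh F c k ⌊w * J⌋₊ H nn) (jh F c k ⌊w * J⌋₊ H nf)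
      (jv F c k ⌊w * J⌋₊ H P) (jv F c k ⌊w * J⌋₊ H P) (fun _ => ()) (fun _ => ())
      (fun ω => fun l : Fin k => F.X J ω (c l)) Fv Gf κ)
    (hnn : ∀ l < k, sn l w + u + 100 * y ≤ nn l) (hnf : ∀ l < k, sn l w + T * u ≤ nf l)
    (hP : ∀ l < k, sn l w - w + T * u ≤ P l) (hjx : j ≤ x) (hx1 : x ≤ 1) (hxr : xr ≤ x')
    (hx'1 : x' ≤ 1) (hκ : 2 * (δ * u * J) + 2 * (k * Real.log 5) ≤ κ) :
    VSd (Pool.Agent.H49.Ent.cond F.p A True) (cR F A w₁) (cR F A j) (cR F A x) (cR F A x)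
      (cR F A x') F.W (jh F c k ⌊w * J⌋₊ H nn) (jh F c k ⌊w * J⌋₊ H nf)
      (jv F c k ⌊w * J⌋₊ H P) (Mh F c t ⌊w * J⌋₊ H (γ t + q)) (Mh F c t ⌊w * J⌋₊ H (γ t + q + X))
      M1 M2 sd (fun ω => fun l : Fin k => F.X J ω (c l)) Fv Gf κ := by
  have hcl := isLaw_cond F.isLaw hA
  have h0 := hcl.nonneg
  have hsup : ∀ ω, 0 < Pool.Agent.H49.Ent.cond F.p A True ω → A ω := fun ω hω => of_cond_pos hω
  have hl5 : 0 < Real.log 5 := Real.log_pos (by norm_num)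
  have hk5 : 0 ≤ (k : ℝ) * Real.log 5 := by positivity
  have hδ : 0 ≤ δ * u * J := (CH_nonneg h0 _ _).trans g.mm
  refine Pool.VG83.vsd_of V ?_ ?_ ?_ ?_ ?_ ?_ ?_ (g.mm.trans (by linarith))
  · refine (ch_to h0 g.n1 (Y' := fun ω => (jh F c k ⌊w * J⌋₊ H nn ω, (cR F A j ω, F.W ω)))
      (d := k * Real.log 5) ?_).trans (by linarith)
    have a1 := CH_le_add h0 (fun ω => (jh F c k ⌊w * J⌋₊ H (fun l => sn l w + u + 100 * y) ω,
      (cR F A j ω, F.W ω))) (jh F c k ⌊w * J⌋₊ H (fun l => sn l w + u + 100 * y))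
      (fun ω => (jh F c k ⌊w * J⌋₊ H nn ω, (cR F A j ω, F.W ω)))
    have a2 := jh_few hcl (F := F) (c := c) (w := ⌊w * J⌋₊) (H := H) hnn
      (fun ω => (jh F c k ⌊w * J⌋₊ H nn ω, (cR F A j ω, F.W ω)))
      (fun ω ν _ _ e => (Prod.ext_iff.mp e).1)
    have a3 := ch_det h0 (X := fun ω => (jh F c k ⌊w * J⌋₊ H (fun l => sn l w + u + 100 * y) ω,
      (cR F A j ω, F.W ω))) (Y := fun ω => (jh F c k ⌊w * J⌋₊ H
        (fun l => sn l w + u + 100 * y) ω, (jh F c k ⌊w * J⌋₊ H nn ω, (cR F A j ω, F.W ω))))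
      (fun ω ν _ _ e => by
        simp only [Prod.mk.injEq] at e ⊢
        exact ⟨e.1, e.2.2⟩)
    linarith
  · refine (CH_subadd h0 _ _ _).trans ?_
    have a1 : CH (Pool.Agent.H49.Ent.cond F.p A True) (Mh F c t ⌊w * J⌋₊ H (γ t + q + X))
        (fun ω => (cR F A x' ω, F.W ω)) ≤ CH (Pool.Agent.H49.Ent.cond F.p A True)
        (Mh F c t ⌊w * J⌋₊ H (γ t + q + X)) (fun ω => (cR F A xr ω, F.W ω)) :=
      CH_mono_cond h0 fun ω ν hω hν e => Prod.ext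
        (det_cR2 (fun _ h => h) hxr hx'1 hsup ω ν hω hν (Prod.ext_iff.mp e).1)
        (Prod.ext_iff.mp e).2
    have a2 := g.n2
    have a3 := g.m2
    linarith
  · refine g.nl.trans (by linarith)
  · rw [ch_det h0 (det_cR2 (fun _ h => h) hjx hx1 hsup)]
    exact V.κ0
  · refine (ch_to h0 g.sa (Y' := fun ω => ((jh F c k ⌊w * J⌋₊ H nn ω,
      jv F c k ⌊w * J⌋₊ H P ω), (cR F A x ω, F.W ω))) (d := 2 * (k * Real.log 5)) ?_).trans
      (by linarith)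
    have a1 := CH_subadd h0 (fun ω => (jh F c k ⌊w * J⌋₊ H (fun l => sn l w + u + 100 * y) ω,
      jv F c k ⌊w * J⌋₊ H (fun l => sn l w - w + T * u) ω)) (fun ω => (cR F A x ω, F.W ω))
      (fun ω => ((jh F c k ⌊w * J⌋₊ H nn ω, jv F c k ⌊w * J⌋₊ H P ω), (cR F A x ω, F.W ω)))
    have a2 := path_few hcl (F := F) (c := c) (w := ⌊w * J⌋₊) (H := H) hnn hP
      (fun ω => ((jh F c k ⌊w * J⌋₊ H nn ω, jv F c k ⌊w * J⌋₊ H P ω), (cR F A x ω, F.W ω)))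
      (fun ω ν _ _ e => (Prod.ext_iff.mp (Prod.ext_iff.mp e).1).1)
      (fun ω ν _ _ e => (Prod.ext_iff.mp (Prod.ext_iff.mp e).1).2)
    have a3 := ch_det h0 (X := fun ω => (cR F A x ω, F.W ω)) (Y := fun ω =>
      ((jh F c k ⌊w * J⌋₊ H nn ω, jv F c k ⌊w * J⌋₊ H P ω), (cR F A x ω, F.W ω)))
      (fun ω ν _ _ e => (Prod.ext_iff.mp e).2)
    linarith
  · refine (ch_to h0 g.sm (Y' := fun ω => (Mh F c t ⌊w * J⌋₊ H (γ t + q) ω, (M2 ω,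
      ((jh F c k ⌊w * J⌋₊ H nf ω, jv F c k ⌊w * J⌋₊ H P ω), (cR F A w₁ ω, F.W ω)))))
      (d := 2 * (k * Real.log 5)) ?_).trans (by linarith)
    obtain ⟨Z, hZ⟩ : ∃ Z : F.Ω → _, Z = fun ω => (Mh F c t ⌊w * J⌋₊ H (γ t + q) ω, (M2 ω,
      ((jh F c k ⌊w * J⌋₊ H nf ω, jv F c k ⌊w * J⌋₊ H P ω), (cR F A w₁ ω, F.W ω)))) := ⟨_, rfl⟩
    rw [← hZ]
    have a2 := path_few hcl (F := F) (c := c) (w := ⌊w * J⌋₊) (H := H) hnf hP Z
      (fun ω ν _ _ e => by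
        rw [hZ] at e
        simp only [Prod.mk.injEq] at e
        exact e.2.2.1.1) (fun ω ν _ _ e => by
        rw [hZ] at e
        simp only [Prod.mk.injEq] at e
        exact e.2.2.1.2)
    refine le_trans ?_ a2
    refine CH_mono_left h0 fun ω ν _ _ e => ?_
    rw [hZ] at e
    simp only [Prod.mk.injEq] at e ⊢
    exact ⟨e.2.1, e.2.2.1, e.1, e.2.2.2.2⟩
  · refine (ch_to h0 g.ms (Y' := fun ω => (sd ω, ((jh F c k ⌊w * J⌋₊ H nf ω,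
      jv F c k ⌊w * J⌋₊ H P ω), (cR F A w₁ ω, F.W ω)))) (d := 2 * (k * Real.log 5)) ?_).trans
      (by linarith)
    obtain ⟨Z, hZ⟩ : ∃ Z : F.Ω → _, Z = fun ω => (sd ω, ((jh F c k ⌊w * J⌋₊ H nf ω,
      jv F c k ⌊w * J⌋₊ H P ω), (cR F A w₁ ω, F.W ω))) := ⟨_, rfl⟩
    rw [← hZ]
    have a2 := path_few hcl (F := F) (c := c) (w := ⌊w * J⌋₊) (H := H) hnf hP Z
      (fun ω ν _ _ e => by
        rw [hZ] at e
        simp only [Prod.mk.injEq] at e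
        exact e.2.1.1) (fun ω ν _ _ e => by
        rw [hZ] at e
        simp only [Prod.mk.injEq] at e
        exact e.2.1.2)
    refine le_trans ?_ a2
    refine CH_mono_left h0 fun ω ν _ _ e => ?_
    rw [hZ] at e
    simp only [Prod.mk.injEq] at e ⊢
    exact ⟨e.2.1, e.1, e.2.2.2⟩

/-- The codes of the target over longer paths. -/
theorem cod_path {α β : Type} {C : F.Ω → α} {Z : F.Ω → β} {p : F.Ω → ℝ} {w : ℕ}
    {n n' v v' : ℕ → ℝ} {e : ℝ}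
    (hp : IsLaw p) (hn : ∀ l < k, n' l ≤ n l) (hv : ∀ l < k, v' l ≤ v l)
    (h : CH p C (fun ω => ((jh F c k w H n' ω, jv F c k w H v' ω), Z ω)) ≤ e) :
    CH p C (fun ω => ((jh F c k w H n ω, jv F c k w H v ω), Z ω)) ≤
      e + 2 * (k * Real.log 5) := by
  have h0 := hp.nonneg
  refine ch_to h0 h ?_
  have a2 := path_few hp (F := F) (c := c) (w := w) (H := H) hn hv
    (fun ω => ((jh F c k w H n ω, jv F c k w H v ω), Z ω))
    (fun ω ν _ _ e => (Prod.ext_iff.mp (Prod.ext_iff.mp e).1).1)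
    (fun ω ν _ _ e => (Prod.ext_iff.mp (Prod.ext_iff.mp e).1).2)
  refine le_trans ?_ a2
  refine CH_mono_left h0 fun ω ν _ _ e => ?_
  simp only [Prod.mk.injEq] at e ⊢
  exact ⟨e.1, e.2.2⟩

/-- **The rows over the near path**, on parts of the event. -/
theorem row_evb (g : GEv F c k t D' q X Cg sn w u y φ ξ T w₁ j x xr x' h E π₀ δ A G₀ H γ gg Cj Cx
      M1 M2 sd) (hA : 0 < Pe F.p A) {B : F.Ω → Prop} (hB : Sub B A) (hπ : 0 < π₀)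
    (hm : π₀ * Pe F.p A ≤ Pe F.p B)
    (V : VLaw2 (Pool.Agent.H49.Ent.cond F.p B True) (cR F A w₁) (cR F B xr) (cR F B xr)
      (cR F B x') F.W (jh F c k ⌊w * J⌋₊ H nb) (jh F c k ⌊w * J⌋₊ H nf)
      (jv F c k ⌊w * J⌋₊ H P) (jv F c k ⌊w * J⌋₊ H P) (fun _ => ()) (fun _ => ())
      (fun ω => fun l : Fin k => F.X J ω (c l)) Fv Gf κ)
    (hnb : ∀ l < k, sn l w + u + 100 * y ≤ nb l) (hnf : ∀ l < k, sn l w + T * u ≤ nf l)
    (hP : ∀ l < k, sn l w - w + T * u ≤ P l) (hxx : x ≤ xr) (hxr : xr ≤ x')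
    (hx'1 : x' ≤ 1) {η : Type} {E' : F.Ω → η} {eE : ℝ}
    (hE : CH (Pool.Agent.H49.Ent.cond F.p B True) (jv F c k ⌊w * J⌋₊ H P)
      (fun ω => (E' ω, F.W ω)) ≤ eE) :
    CH (Pool.Agent.H49.Ent.cond F.p B True) (Mh F c t ⌊w * J⌋₊ H (γ t + q + X))
      (fun ω => (Mh F c t ⌊w * J⌋₊ H (γ t + q) ω, (Vv F c k ⌊w * J⌋₊ H (fun l => nb l * J) ω,
        (E' ω, (sd ω, (cR F A w₁ ω, F.W ω)))))) ≤
      ((1 - h) * ξ * u * Real.log 2 + δ * u) * J + 20 * (δ * u * J / π₀) +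
        20 * (k * Real.log 5) + 76 * κ + eE := by
  have hPB : 0 < Pe F.p B := lt_of_lt_of_le (mul_pos hπ hA) hm
  have hcl := isLaw_cond F.isLaw hPB
  have h0 := hcl.nonneg
  have hsup : ∀ ω, 0 < Pool.Agent.H49.Ent.cond F.p B True ω → B ω := fun ω hω => of_cond_pos hω
  have hl5 : 0 < Real.log 5 := Real.log_pos (by norm_num)
  have hk5 : 0 ≤ (k : ℝ) * Real.log 5 := by positivity
  have hδ : 0 ≤ δ * u * J := (CH_nonneg (isLaw_cond F.isLaw hA).nonneg _ _).trans g.mm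
  have hδ' : 0 ≤ δ * u * J / π₀ := by positivity
  have hxr1 : xr ≤ 1 := hxr.trans hx'1
  have hMN : Det (Pool.Agent.H49.Ent.cond F.p B True) (Mh F c t ⌊w * J⌋₊ H (γ t + q + X))
      (Mh F c t ⌊w * J⌋₊ H (γ t + q)) := mh_det (by omega)
  -- the errors on the part
  have b1 := ch_pt hA hB hπ hm g.n2
  have b2 := ch_pt hA hB hπ hm g.m2
  have b3 := ch_pt hA hB hπ hm g.sa
  have b4 := ch_pt hA hB hπ hm g.ms
  have b5 := g.row B hB hm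
  obtain ⟨e, he⟩ : ∃ e : ℝ, e = 2 * (δ * u * J / π₀) + 2 * (k * Real.log 5) := ⟨_, rfl⟩
  have d1 : ∀ {v v' : ℝ}, v ≤ v' → v' ≤ 1 → Det (Pool.Agent.H49.Ent.cond F.p B True)
      (cR F B v') (cR F A v) := fun h1 h2 => det_cR2 hB h1 h2 hsup
  have c1 : CH (Pool.Agent.H49.Ent.cond F.p B True) (fun ω => (Mh F c t ⌊w * J⌋₊ H
      (γ t + q + X) ω, (Mh F c t ⌊w * J⌋₊ H (γ t + q) ω, M2 ω)))
      (fun ω => (cR F B x' ω, F.W ω)) ≤ e := by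
    have a1 := CH_subadd h0 (Mh F c t ⌊w * J⌋₊ H (γ t + q + X)) M2
      (fun ω => (cR F B x' ω, F.W ω))
    have a2 : CH (Pool.Agent.H49.Ent.cond F.p B True) (Mh F c t ⌊w * J⌋₊ H (γ t + q + X))
        (fun ω => (cR F B x' ω, F.W ω)) ≤ CH (Pool.Agent.H49.Ent.cond F.p B True)
        (Mh F c t ⌊w * J⌋₊ H (γ t + q + X)) (fun ω => (cR F A xr ω, F.W ω)) :=
      CH_mono_cond h0 fun ω ν hω hν e => Prod.ext
        (d1 hxr hx'1 ω ν hω hν (Prod.ext_iff.mp e).1) (Prod.ext_iff.mp e).2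
    have a3 : CH (Pool.Agent.H49.Ent.cond F.p B True) M2 (fun ω => (cR F B x' ω, F.W ω)) ≤
        CH (Pool.Agent.H49.Ent.cond F.p B True) M2 (fun ω => (cR F A x' ω, F.W ω)) :=
      CH_mono_cond h0 fun ω ν hω hν e => Prod.ext
        (d1 le_rfl hx'1 ω ν hω hν (Prod.ext_iff.mp e).1) (Prod.ext_iff.mp e).2
    have a4 : CH (Pool.Agent.H49.Ent.cond F.p B True) (fun ω => (Mh F c t ⌊w * J⌋₊ H
        (γ t + q + X) ω, (Mh F c t ⌊w * J⌋₊ H (γ t + q) ω, M2 ω)))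
        (fun ω => (cR F B x' ω, F.W ω)) ≤ CH (Pool.Agent.H49.Ent.cond F.p B True)
        (fun ω => (Mh F c t ⌊w * J⌋₊ H (γ t + q + X) ω, M2 ω))
        (fun ω => (cR F B x' ω, F.W ω)) := CH_mono_left h0 fun ω ν hω hν e => by
      have e1 := (Prod.ext_iff.mp e).1
      have e2 := (Prod.ext_iff.mp e1).1
      exact Prod.ext e2 (Prod.ext (hMN ω ν hω hν e2) (Prod.ext_iff.mp e1).2)
    linarith
  have c2 : CH (Pool.Agent.H49.Ent.cond F.p B True) (fun ω => (Mh F c t ⌊w * J⌋₊ H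
      (γ t + q + X) ω, Mh F c t ⌊w * J⌋₊ H (γ t + q) ω))
      (fun ω => (jh F c k ⌊w * J⌋₊ H nb ω, (jv F c k ⌊w * J⌋₊ H P ω,
        (cR F B xr ω, F.W ω)))) ≤ e := by
    have a4 : CH (Pool.Agent.H49.Ent.cond F.p B True) (fun ω => (Mh F c t ⌊w * J⌋₊ H
        (γ t + q + X) ω, Mh F c t ⌊w * J⌋₊ H (γ t + q) ω))
        (fun ω => (jh F c k ⌊w * J⌋₊ H nb ω, (jv F c k ⌊w * J⌋₊ H P ω,
        (cR F B xr ω, F.W ω)))) ≤ CH (Pool.Agent.H49.Ent.cond F.p B True)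
        (Mh F c t ⌊w * J⌋₊ H (γ t + q + X))
        (fun ω => (jh F c k ⌊w * J⌋₊ H nb ω, (jv F c k ⌊w * J⌋₊ H P ω,
        (cR F B xr ω, F.W ω)))) := CH_mono_left h0 fun ω ν hω hν e => by
      have e1 := (Prod.ext_iff.mp e).1
      exact Prod.ext e1 (hMN ω ν hω hν e1)
    have a5 : CH (Pool.Agent.H49.Ent.cond F.p B True) (Mh F c t ⌊w * J⌋₊ H (γ t + q + X))
        (fun ω => (jh F c k ⌊w * J⌋₊ H nb ω, (jv F c k ⌊w * J⌋₊ H P ω,
        (cR F B xr ω, F.W ω)))) ≤ CH (Pool.Agent.H49.Ent.cond F.p B True)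
        (Mh F c t ⌊w * J⌋₊ H (γ t + q + X)) (fun ω => (cR F A xr ω, F.W ω)) :=
      CH_mono_cond h0 fun ω ν hω hν e => by
        simp only [Prod.mk.injEq] at e
        exact Prod.ext (d1 le_rfl hxr1 ω ν hω hν e.2.2.1) e.2.2.2
    linarith
  have c3 : CH (Pool.Agent.H49.Ent.cond F.p B True) sd
      (fun ω => (jh F c k ⌊w * J⌋₊ H nb ω, (jv F c k ⌊w * J⌋₊ H P ω,
        (cR F B xr ω, F.W ω)))) ≤ e := by
    have a1 := cod_path hcl hnb hP b3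
    have a2 : CH (Pool.Agent.H49.Ent.cond F.p B True) sd
        (fun ω => (jh F c k ⌊w * J⌋₊ H nb ω, (jv F c k ⌊w * J⌋₊ H P ω,
        (cR F B xr ω, F.W ω)))) ≤ CH (Pool.Agent.H49.Ent.cond F.p B True) sd
        (fun ω => ((jh F c k ⌊w * J⌋₊ H nb ω, jv F c k ⌊w * J⌋₊ H P ω),
          (cR F A x ω, F.W ω))) := CH_mono_cond h0 fun ω ν hω hν e => by
      simp only [Prod.mk.injEq] at e ⊢
      exact ⟨⟨e.1, e.2.1⟩, d1 hxx hxr1 ω ν hω hν e.2.2.1, e.2.2.2⟩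
    linarith
  have c4 : CH (Pool.Agent.H49.Ent.cond F.p B True) M2
      (fun ω => (sd ω, ((jh F c k ⌊w * J⌋₊ H nf ω, jv F c k ⌊w * J⌋₊ H P ω),
        (cR F A w₁ ω, F.W ω)))) ≤ e := by
    refine (ch_to h0 b4 (d := 2 * (k * Real.log 5)) ?_).trans (by linarith)
    obtain ⟨Z, hZ⟩ : ∃ Z : F.Ω → _, Z = fun ω => (sd ω, ((jh F c k ⌊w * J⌋₊ H nf ω,
      jv F c k ⌊w * J⌋₊ H P ω), (cR F A w₁ ω, F.W ω))) := ⟨_, rfl⟩
    rw [← hZ]
    have a2 := path_few hcl (F := F) (c := c) (w := ⌊w * J⌋₊) (H := H) hnf hP Z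
      (fun ω ν _ _ e => by
        rw [hZ] at e
        simp only [Prod.mk.injEq] at e
        exact e.2.1.1) (fun ω ν _ _ e => by
        rw [hZ] at e
        simp only [Prod.mk.injEq] at e
        exact e.2.1.2)
    refine le_trans ?_ a2
    refine CH_mono_left h0 fun ω ν _ _ e => ?_
    rw [hZ] at e
    simp only [Prod.mk.injEq] at e ⊢
    exact ⟨e.2.1, e.1, e.2.2.2⟩
  have c5 := Pool.VG83.row_near V (M := M2) (sd := sd) (N1 := Mh F c t ⌊w * J⌋₊ H (γ t + q))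
    (N2 := Mh F c t ⌊w * J⌋₊ H (γ t + q + X)) b5 c1 c2 c3 c4
  -- the codes of the velocities
  have c6 := CH_le_add h0 (Mh F c t ⌊w * J⌋₊ H (γ t + q + X)) (jv F c k ⌊w * J⌋₊ H P)
    (fun ω => (Mh F c t ⌊w * J⌋₊ H (γ t + q) ω, (Vv F c k ⌊w * J⌋₊ H (fun l => nb l * J) ω,
      (E' ω, (sd ω, (cR F A w₁ ω, F.W ω))))))
  have c7 : CH (Pool.Agent.H49.Ent.cond F.p B True) (jv F c k ⌊w * J⌋₊ H P)
      (fun ω => (Mh F c t ⌊w * J⌋₊ H (γ t + q) ω, (Vv F c k ⌊w * J⌋₊ H (fun l => nb l * J) ω,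
      (E' ω, (sd ω, (cR F A w₁ ω, F.W ω)))))) ≤ CH (Pool.Agent.H49.Ent.cond F.p B True)
      (jv F c k ⌊w * J⌋₊ H P) (fun ω => (E' ω, F.W ω)) := CH_mono_cond h0 fun ω ν _ _ e => by
    simp only [Prod.mk.injEq] at e ⊢
    exact ⟨e.2.2.1, e.2.2.2.2.2⟩
  have c8 : CH (Pool.Agent.H49.Ent.cond F.p B True) (Mh F c t ⌊w * J⌋₊ H (γ t + q + X))
      (fun ω => (jv F c k ⌊w * J⌋₊ H P ω, (Mh F c t ⌊w * J⌋₊ H (γ t + q) ω,
        (Vv F c k ⌊w * J⌋₊ H (fun l => nb l * J) ω,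
        (E' ω, (sd ω, (cR F A w₁ ω, F.W ω))))))) ≤
      CH (Pool.Agent.H49.Ent.cond F.p B True) (Mh F c t ⌊w * J⌋₊ H (γ t + q + X))
      (fun ω => (Mh F c t ⌊w * J⌋₊ H (γ t + q) ω, (jh F c k ⌊w * J⌋₊ H nb ω,
        (jv F c k ⌊w * J⌋₊ H P ω, (sd ω, (cR F A w₁ ω, F.W ω)))))) :=
    CH_mono_cond h0 fun ω ν hω hν e => by
      simp only [Prod.mk.injEq] at e ⊢
      exact ⟨e.2.1, vv_jh nb ω ν hω hν e.2.2.1, e.1, e.2.2.2.2⟩
  linarith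

end

end Pool.VG83
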