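import Pool.Agent.H83.VT.Law

/-!
# The law of the near digits with a side path: the velocities and the side path in the condition

`law2`: `VLaw2` with the side information `(y, (Ec, sd))` from `VSd`, the code `Ec` of the velocities
and the side path in the condition. `vsd_of`: `VSd` from the law of the base coordinates. `row_near`:
the rows over the near path from the rows over the exact positions.
-/

set_option autoImplicit false

namespace Pool.VG83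

open Finset Real
open Pool.Agent.H49.Ent Pool.Agent.H32.Dense Pool.STK Pool.M5 Pool.PRM
open Pool.KVA (MI)
open Pool.V0F (VLaw2 CH_ge CH_tr)
open Pool.AVG57 (CH_pair_ctx MI_few)
open Pool.AVG71 (MI_eq MI_eq')
open Pool.VT83 (VSd row_sd)

section

variable {Ω : Type} [Fintype Ω] {p : Ω → ℝ}

variable {ζ ρ₁ ρ₂ ρ₃ ρ₄ υ ξ₁ ξ₂ ξ₃ ν₁ ν₂ μ₁ μ₂ σ ξ₆ η ξ₇ : Type} {zw : Ω → ζ} {Rj : Ω → ρ₁}
  {Rx : Ω → ρ₂} {Ra : Ω → ρ₃} {R' : Ω → ρ₄} {y : Ω → υ} {Xq : Ω → ξ₁} {Xp : Ω → ξ₂} {Up : Ω → ξ₃}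
  {N1 : Ω → ν₁} {N2 : Ω → ν₂} {M1 : Ω → μ₁} {M2 : Ω → μ₂} {sd : Ω → σ} {XJ : Ω → ξ₆} {Ec : Ω → η}
  {Uq : Ω → ξ₇} {Fv Gf κ e₁ : ℝ}

theorem ch_self (h0 : ∀ ω, 0 ≤ p ω) {α β : Type} (X : Ω → α) (Z : Ω → β) :
    CH p X (fun ω => (X ω, Z ω)) = 0 := CH_eq_zero h0 fun _ _ _ _ e => (Prod.ext_iff.mp e).1

/-- The far digits, with a variable which is few bits given the record at `a` in the condition. -/
theorem far_ge (h : VSd p zw Rj Rx Ra R' y Xq Xp Up N1 N2 M1 M2 sd XJ Fv Gf κ) {δ : Type}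
    {D : Ω → δ} {e : ℝ} (hD : CH p D (fun ω => ((Xq ω, Up ω), (Ra ω, y ω))) ≤ e) :
    Fv - 10 * κ - e ≤ CH p Xp (fun ω => (D ω, ((Xq ω, Up ω), (Ra ω, y ω)))) := by
  have h0 := h.V.h0
  have h1 := h.V.vf h.V.px h.V.fx
  have h2 := CH_ge h0 Xp D (fun ω => ((Xq ω, Up ω), (Ra ω, y ω)))
  linarith

/-- **The law with the side path and the velocities in the condition.** -/
theorem law2 (h : VSd p zw Rj Rx Ra R' y Xq Xp Up N1 N2 M1 M2 sd XJ Fv Gf κ)
    (hzx : CH p zw Rx ≤ κ) (he : 0 ≤ e₁) (hq : CH p Uq Up ≤ κ)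
    (hE1 : CH p Ec (fun ω => (Up ω, y ω)) ≤ e₁) (hE2 : CH p Up (fun ω => (Ec ω, y ω)) ≤ e₁) :
    VLaw2 p zw Rj Rx R' (fun ω => (y ω, (Ec ω, sd ω))) Xq Xp Uq Up N1 N2 Xp Fv 0
      (70 * κ + 3 * e₁) := by
  have h0 := h.V.h0
  have hk := h.V.κ0
  have c1 : CH p Ec (fun ω => ((Xq ω, Up ω), (Ra ω, y ω))) ≤ e₁ :=
    le_trans (CH_mono_cond h0 fun ω ν _ _ e => by
      simp only [Prod.mk.injEq] at e ⊢
      tauto) hE1
  have c2 : CH p (fun ω => (sd ω, (Rj ω, Ec ω))) (fun ω => ((Xq ω, Up ω), (Ra ω, y ω))) ≤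
      κ + (κ + e₁) := (CH_subadd h0 _ _ _).trans (add_le_add h.sa ((CH_subadd h0 _ _ _).trans
        (add_le_add (le_trans (CH_mono_cond h0 fun ω ν _ _ e => by
          simp only [Prod.mk.injEq] at e
          exact e.2.1) h.ja) c1)))
  have c3 : CH p (fun ω => (sd ω, (Rx ω, Ec ω))) (fun ω => ((Xq ω, Up ω), (Ra ω, y ω))) ≤
      κ + (κ + e₁) := (CH_subadd h0 _ _ _).trans (add_le_add h.sa ((CH_subadd h0 _ _ _).trans
        (add_le_add (le_trans (CH_mono_cond h0 fun ω ν _ _ e => by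
          simp only [Prod.mk.injEq] at e
          exact e.2.1) h.xa) c1)))
  have d2 := far_ge h c2
  have d3 := far_ge h c3
  have z0 : ∀ {α : Type} (Z : Ω → α), CH p Xp (fun ω => (Xp ω, Z ω)) = 0 := fun Z =>
    CH_eq_zero h0 fun _ _ _ _ e => (Prod.ext_iff.mp e).1
  refine ⟨h0, by linarith, by linarith [h.V.zj], by linarith, by linarith [h.V.jr], ?_,
    by linarith, ?_, ?_, ?_, ?_, ?_, ?_, ?_, ?_, ?_, ?_, ?_, ?_⟩
  · have k1 := CH_le_add h0 Rx Ra R'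
    have k2 : CH p Rx (fun ω => (Ra ω, R' ω)) ≤ κ := le_trans (CH_mono_cond h0
      fun ω ν _ _ e => (Prod.ext_iff.mp e).1) h.xa
    have k3 := h.V.xr
    linarith
  · have k1 : CH p Up (fun ω => (zw ω, (y ω, (Ec ω, sd ω)))) ≤ e₁ :=
      le_trans (CH_mono_cond h0 fun ω ν _ _ e => by
        simp only [Prod.mk.injEq] at e ⊢
        tauto) hE2
    have k2 := CH_nonneg h0 Up (fun ω => (R' ω, (y ω, (Ec ω, sd ω))))
    linarith
  · have k1 : CH p Xp (fun ω => ((sd ω, (Rj ω, Ec ω)), ((Xq ω, Up ω), (Ra ω, y ω)))) ≤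
        CH p Xp (fun ω => (Xq ω, (Rj ω, (y ω, (Ec ω, sd ω))))) := CH_mono_cond h0
      fun ω ν _ _ e => by
        simp only [Prod.mk.injEq] at e ⊢
        tauto
    linarith
  · have k1 : CH p Xp (fun ω => ((sd ω, (Rx ω, Ec ω)), ((Xq ω, Up ω), (Ra ω, y ω)))) ≤
        CH p Xp (fun ω => (Xq ω, (Rx ω, (y ω, (Ec ω, sd ω))))) := CH_mono_cond h0
      fun ω ν _ _ e => by
        simp only [Prod.mk.injEq] at e ⊢
        tauto
    linarith
  · have k1 : CH p Xp (fun ω => (Xq ω, (zw ω, (y ω, (Ec ω, sd ω))))) ≤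
        CH p Xp (fun ω => (Xq ω, (zw ω, y ω))) := CH_mono_cond h0 fun ω ν _ _ e => by
      simp only [Prod.mk.injEq] at e ⊢
      tauto
    have k2 := h.V.cn
    linarith
  · have k1 : CH p Xq (fun ω => (Xp ω, (zw ω, (y ω, (Ec ω, sd ω))))) ≤
        CH p Xq (fun ω => (Xp ω, (zw ω, y ω))) := CH_mono_cond h0 fun ω ν _ _ e => by
      simp only [Prod.mk.injEq] at e ⊢
      tauto
    have k2 := h.V.qp
    linarith
  · have k1 : CH p Xp (fun ω => (R' ω, (y ω, (Ec ω, sd ω)))) ≤ CH p Xp (fun ω => (R' ω, y ω)) :=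
      CH_mono_cond h0 fun ω ν _ _ e => by
        simp only [Prod.mk.injEq] at e ⊢
        tauto
    have k2 := h.V.px
    linarith
  · have k1 : CH p N1 (fun ω => (Xq ω, (Rj ω, (y ω, (Ec ω, sd ω))))) ≤
        CH p N1 (fun ω => (Xq ω, (Rj ω, y ω))) := CH_mono_cond h0 fun ω ν _ _ e => by
      simp only [Prod.mk.injEq] at e ⊢
      tauto
    have k2 : CH p N1 (fun ω => (Xq ω, (Rj ω, y ω))) ≤
        CH p (fun ω => (N1 ω, M1 ω)) (fun ω => (Xq ω, (Rj ω, y ω))) := CH_mono_left h0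
      fun ω ν _ _ e => (Prod.ext_iff.mp (Prod.ext_iff.mp e).1).1
    have k3 := h.V.n1
    linarith
  · have k1 : CH p N2 (fun ω => (R' ω, (y ω, (Ec ω, sd ω)))) ≤
        CH p N2 (fun ω => (R' ω, y ω)) := CH_mono_cond h0 fun ω ν _ _ e => by
      simp only [Prod.mk.injEq] at e ⊢
      tauto
    have k2 : CH p N2 (fun ω => (R' ω, y ω)) ≤
        CH p (fun ω => (N2 ω, M2 ω)) (fun ω => (R' ω, y ω)) := CH_mono_left h0
      fun ω ν _ _ e => (Prod.ext_iff.mp (Prod.ext_iff.mp e).1).1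
    have k3 := h.V.n2
    linarith
  · obtain ⟨B, hB⟩ : ∃ B : Ω → _, B = fun ω => (Xp ω, (N1 ω, (sd ω, ((Xq ω, Up ω),
      (zw ω, y ω))))) := ⟨_, rfl⟩
    obtain ⟨C, hC⟩ : ∃ C : Ω → _, C = fun ω => (N1 ω, (Xp ω, (zw ω, (y ω, (Ec ω, sd ω))))) :=
      ⟨_, rfl⟩
    have k1 := h.mj2
    rw [← hB] at k1
    have k2 : CH p B C ≤ κ + e₁ := by
      have a1 := CH_le_add h0 B (fun ω => (Xq ω, Up ω)) C
      rw [CH_eq_zero h0 (X := B) (W := fun ω => ((Xq ω, Up ω), C ω)) (fun ω ν _ _ e => by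
        rw [hC] at e
        rw [hB]
        simp only [Prod.mk.injEq] at e ⊢
        tauto)] at a1
      have a2 := CH_subadd h0 Xq Up C
      have a3 : CH p Xq C ≤ CH p Xq (fun ω => (Xp ω, (zw ω, y ω))) := CH_mono_cond h0
        fun ω ν _ _ e => by
          rw [hC] at e
          simp only [Prod.mk.injEq] at e ⊢
          tauto
      have a4 : CH p Up C ≤ CH p Up (fun ω => (Ec ω, y ω)) := CH_mono_cond h0
        fun ω ν _ _ e => by
          rw [hC] at e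
          simp only [Prod.mk.injEq] at e ⊢
          tauto
      have a5 := h.V.qp
      linarith
    have k3 : CH p C B ≤ e₁ := by
      have a1 := CH_le_add h0 C Ec B
      rw [CH_eq_zero h0 (X := C) (W := fun ω => (Ec ω, B ω)) (fun ω ν _ _ e => by
        rw [hB] at e
        rw [hC]
        simp only [Prod.mk.injEq] at e ⊢
        tauto)] at a1
      have a2 : CH p Ec B ≤ CH p Ec (fun ω => (Up ω, y ω)) := CH_mono_cond h0
        fun ω ν _ _ e => by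
          rw [hB] at e
          simp only [Prod.mk.injEq] at e ⊢
          tauto
      linarith
    have k4 := MI_few h0 Rj N2 k3 k2
    rw [MI_eq' h0] at k4
    have k5 : CH p N2 (fun ω => (Rj ω, C ω)) ≤
        CH p N2 (fun ω => (Xp ω, (Rj ω, (y ω, (Ec ω, sd ω))))) := CH_mono_cond h0
      fun ω ν _ _ e => by
        rw [hC] at e
        simp only [Prod.mk.injEq] at e ⊢
        tauto
    rw [← hC]
    linarith
  · rw [z0]
    linarith
  · rw [z0]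
    linarith
  · have k1 := CH_nonneg h0 Xp (fun ω => (Xp ω, (R' ω, (y ω, (Ec ω, sd ω)))))
    linarith

/-- **The inputs with a side path** from the law of the base coordinates. -/
theorem vsd_of (V : VLaw2 p zw Rj Rx R' y Xq Xp Up Up (fun _ => ()) (fun _ => ()) XJ Fv Gf κ)
    (n1 : CH p (fun ω => (N1 ω, M1 ω)) (fun ω => (Xq ω, (Rj ω, y ω))) ≤ κ)
    (n2 : CH p (fun ω => (N2 ω, M2 ω)) (fun ω => (R' ω, y ω)) ≤ κ)
    (nl : CH p (fun ω => (N2 ω, M2 ω)) (fun ω => ((N1 ω, M1 ω), (XJ ω, (zw ω, y ω)))) ≤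
      CH p (fun ω => (N2 ω, M2 ω)) (fun ω => (XJ ω, (Rj ω, y ω))) + κ)
    (jx : CH p Rj Rx ≤ κ)
    (sa : CH p sd (fun ω => ((Xq ω, Up ω), (Rx ω, y ω))) ≤ κ)
    (sm : CH p sd (fun ω => (N1 ω, (M2 ω, ((Xp ω, Up ω), (zw ω, y ω))))) ≤ κ)
    (ms : CH p M2 (fun ω => (sd ω, ((Xp ω, Up ω), (zw ω, y ω)))) ≤ κ)
    (mm : CH p M1 M2 ≤ κ) :
    VSd p zw Rj Rx Rx R' y Xq Xp Up N1 N2 M1 M2 sd XJ Fv Gf κ where
  V := ⟨V.h0, V.κ0, V.zj, V.zx, V.jr, V.xr, V.uq, V.fr, V.fj, V.fx, V.cn, V.qp, V.px, n1, n2, nl,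
    V.jp, V.gj, V.gx⟩
  ja := jx
  xa := by
    rw [CH_eq_zero V.h0 fun _ _ _ _ e => e]
    exact V.κ0
  sa := sa
  sm := sm
  ms := ms
  mm := mm

/-- **The rows over the near path** from the rows over the exact positions `XJ`. `R₁`: a record which
knows the digits of the target, `P`: positions to digits which are free given `R₁`, `M`: digits of the
side coordinate. -/
theorem row_near {R₁ : Ω → ρ₁} {P : Ω → ξ₁} {M : Ω → μ₁} {R₀ e : ℝ}
    (V : VLaw2 p zw R₁ R₁ R' y P Xp Up Up (fun _ => ()) (fun _ => ()) XJ Fv Gf κ)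
    (hr : CH p N2 (fun ω => (N1 ω, (M ω, (XJ ω, (zw ω, y ω))))) ≤ R₀)
    (hn : CH p (fun ω => (N2 ω, (N1 ω, M ω))) (fun ω => (R' ω, y ω)) ≤ e)
    (hN : CH p (fun ω => (N2 ω, N1 ω)) (fun ω => (P ω, (Up ω, (R₁ ω, y ω)))) ≤ e)
    (hs : CH p sd (fun ω => (P ω, (Up ω, (R₁ ω, y ω)))) ≤ e)
    (hM : CH p M (fun ω => (sd ω, ((Xp ω, Up ω), (zw ω, y ω)))) ≤ e) :
    CH p N2 (fun ω => (N1 ω, (P ω, (Up ω, (sd ω, (zw ω, y ω)))))) ≤
      R₀ + 10 * e + 76 * κ := by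
  have h0 := V.h0
  have hk := V.κ0
  have he : 0 ≤ e := (CH_nonneg h0 _ _).trans hs
  -- the far positions in place of the exact ones
  obtain ⟨W, hW⟩ : ∃ W : Ω → _, W = fun ω => (N1 ω, (M ω, (Xp ω, (zw ω, y ω)))) := ⟨_, rfl⟩
  have a1 := CH_chain h0 N2 XJ W
  have a2 := CH_chain h0 XJ N2 W
  have a3 : CH p (fun ω => (N2 ω, XJ ω)) W = CH p (fun ω => (XJ ω, N2 ω)) W :=
    CH_congr h0 (fun ω ω' _ _ e => by
      simp only [Prod.mk.injEq] at e ⊢
      tauto) (fun ω ω' _ _ e => by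
      simp only [Prod.mk.injEq] at e ⊢
      tauto) (fun _ _ _ _ e => e) (fun _ _ _ _ e => e)
  have a4 : CH p XJ W ≤ CH p XJ (fun ω => (Xp ω, (zw ω, y ω))) := CH_mono_cond h0
    fun ω ν _ _ e => by
      rw [hW] at e
      simp only [Prod.mk.injEq] at e ⊢
      tauto
  have a5 : CH p N2 (fun ω => (XJ ω, W ω)) ≤ CH p N2 (fun ω => (N1 ω, (M ω, (XJ ω,
      (zw ω, y ω))))) := CH_mono_cond h0 fun ω ν _ _ e => by
    rw [hW] at e
    simp only [Prod.mk.injEq] at e ⊢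
    tauto
  have hz : CH p zw R' ≤ 2 * κ := V.toV.zr
  have a6 := CH_ge h0 XJ (fun ω => ((N2 ω, (N1 ω, M ω)), zw ω)) (fun ω => (Xp ω, (R' ω, y ω)))
  have a7 : CH p (fun ω => ((N2 ω, (N1 ω, M ω)), zw ω)) (fun ω => (Xp ω, (R' ω, y ω))) ≤
      e + 2 * κ := (CH_subadd h0 _ _ _).trans (add_le_add
        (le_trans (CH_mono_cond h0 fun ω ν _ _ e => (Prod.ext_iff.mp e).2) hn)
        (le_trans (CH_mono_cond h0 fun ω ν _ _ e => by
          simp only [Prod.mk.injEq] at e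
          exact e.2.1) hz))
  have a8 : CH p XJ (fun ω => (((N2 ω, (N1 ω, M ω)), zw ω), (Xp ω, (R' ω, y ω)))) ≤
      CH p XJ (fun ω => (N2 ω, W ω)) := CH_mono_cond h0 fun ω ν _ _ e => by
    rw [hW]
    simp only [Prod.mk.injEq] at e ⊢
    tauto
  have a9 : CH p N2 W ≤ R₀ + 4 * κ + e := by
    have := V.gj
    have := V.gx
    linarith
  -- the near path
  have b1 : CH p Up (fun ω => (Xp ω, (P ω, (zw ω, y ω)))) ≤
      CH p Up (fun ω => (Xp ω, (P ω, (R₁ ω, y ω)))) + 7 * κ := by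
    have k1 := V.toV.fru (A := fun ω => (Xp ω, (P ω, R₁ ω))) (e := κ + (4 * κ + κ))
      ((CH_subadd h0 _ _ _).trans (add_le_add V.px ((CH_subadd h0 _ _ _).trans (add_le_add
        V.toV.qr (le_trans (CH_mono_cond h0 fun ω ν _ _ e => (Prod.ext_iff.mp e).1) V.xr)))))
    have k2 : CH p Up (fun ω => (Xp ω, (P ω, (zw ω, y ω)))) ≤ CH p Up (fun ω => (zw ω, y ω)) :=
      CH_mono_cond h0 fun ω ν _ _ e => by
        simp only [Prod.mk.injEq] at e ⊢
        tauto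
    have k3 : CH p Up (fun ω => ((Xp ω, (P ω, R₁ ω)), y ω)) ≤
        CH p Up (fun ω => (Xp ω, (P ω, (R₁ ω, y ω)))) := CH_mono_cond h0 fun ω ν _ _ e => by
      simp only [Prod.mk.injEq] at e ⊢
      tauto
    linarith
  have b2 := row_sd (N1 := N1) (N2 := N2) (E := Xp) (P := P) (n1 := N1) (n2 := N2) (M := M)
    (sd := sd) (Up := Up) (zw := zw) (R' := R₁) (y := y) (R₀ := R₀ + 4 * κ + e)
    (e := e + 7 * κ) h0 (by rw [← hW]; exact a9)
    (le_trans (CH_mono_cond h0 fun ω ν _ _ e => by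
      simp only [Prod.mk.injEq] at e ⊢
      tauto) (hM.trans (by linarith)))
    (by
      rw [ch_self h0]
      linarith)
    (by
      rw [ch_self h0]
      linarith)
    (V.zx.trans (by linarith)) (hN.trans (by linarith)) (hs.trans (by linarith))
    (by
      have k1 := V.cn
      have k2 := V.fx
      linarith)
    (by linarith)
  linarith

end

end Pool.VG83
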