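import Pool.Agent.H83.VT.Pv
import Pool.Agent.H25.V0P.Prv
import Pool.Agent.H83.VG.Law

/-!
# Closed gradient of any target over a closed label, side path, on one event

`vg_fin`: the event theorem, from the law `VSd`, the codes of the target and the rows over the near
path.
-/

set_option autoImplicit false

namespace Pool.VG83

open Finset Real MvPolynomial
open Pool.Agent.H49.Ent Pool.Agent.H32.Dense
open Pool.STK hiding pr2
open Pool.KA Pool.KSAT Pool.K2S Pool.PB Pool.S6C Pool.M5 Pool.PRM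
open Pool.GEN Pool.CHT Pool.CHX Pool.ISO Pool.LA91 Pool.AVG71 Pool.AVG5 Pool.D2F2 Pool.AVG57
open Pool.PB.Trl (rt rt_mem t_rt)
open Pool.LV64 (GrdV PrV Vm Mm pv_clo Evn)
open Pool.KVA (MI)
open Pool.KAF (rs Pr)
open Pool.FS21 (oth)
open Pool.BFL (Pb)
open Pool.V0F
open Pool.V0P (jp vp prvGen)
open Pool.VT83 (VSd jetm_jh jetm_jv)

section

variable {Ω : Type} {p : Ω → ℝ}

/-- Functions which determine each other. -/
def DE {α β : Type} (p : Ω → ℝ) (X : Ω → α) (X' : Ω → β) : Prop := Det p X X' ∧ Det p X' X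

theorem DE.rfl' {α : Type} (X : Ω → α) : DE p X X := ⟨fun _ _ _ _ e => e, fun _ _ _ _ e => e⟩

theorem DE.pair {α β α' β' : Type} {X : Ω → α} {X' : Ω → α'} {Z : Ω → β} {Z' : Ω → β'}
    (h : DE p X X') (k : DE p Z Z') :
    DE p (fun ω => (X ω, Z ω)) (fun ω => (X' ω, Z' ω)) :=
  ⟨fun ω ν a b e => Prod.ext (h.1 ω ν a b (Prod.ext_iff.mp e).1)
    (k.1 ω ν a b (Prod.ext_iff.mp e).2), fun ω ν a b e => Prod.ext
    (h.2 ω ν a b (Prod.ext_iff.mp e).1) (k.2 ω ν a b (Prod.ext_iff.mp e).2)⟩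

variable [Fintype Ω]

theorem DE.ch (h0 : ∀ ω, 0 ≤ p ω) {α β α' β' : Type} {X : Ω → α} {X' : Ω → α'} {Z : Ω → β}
    {Z' : Ω → β'} (h : DE p X X') (k : DE p Z Z') : CH p X Z = CH p X' Z' :=
  CH_congr h0 (fun ω ν a b e => h.1 ω ν a b (Prod.ext_iff.mp e).1)
    (fun ω ν a b e => h.2 ω ν a b (Prod.ext_iff.mp e).1) k.1 k.2

variable {ζ ρ₁ ρ₂ ρ₃ υ ξ₁ ξ₂ ξ₃ ξ₄ ξ₅ ξ₆ ξ₇ ξ₁' ξ₂' ξ₃' ξ₄' ξ₅' ξ₆' ξ₇' : Type} {zw : Ω → ζ}
  {Rj : Ω → ρ₁} {Rx : Ω → ρ₂} {R' : Ω → ρ₃} {y : Ω → υ} {Xq : Ω → ξ₁} {Xp : Ω → ξ₂} {Uq : Ω → ξ₃}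
  {Up : Ω → ξ₇} {N1 : Ω → ξ₄} {N2 : Ω → ξ₅} {XJ : Ω → ξ₆} {Fv Gf κ : ℝ} {Xq' : Ω → ξ₁'}
  {Xp' : Ω → ξ₂'} {Uq' : Ω → ξ₃'} {Up' : Ω → ξ₇'} {N1' : Ω → ξ₄'} {N2' : Ω → ξ₅'} {XJ' : Ω → ξ₆'}

/-- The law for functions which determine each other. -/
theorem vlaw2_de (h : VLaw2 p zw Rj Rx R' y Xq Xp Uq Up N1 N2 XJ Fv Gf κ) (hq : DE p Xq Xq')
    (hp : DE p Xp Xp') (huq : DE p Uq Uq') (hup : DE p Up Up') (h1 : DE p N1 N1')
    (h2 : DE p N2 N2') (hJ : DE p XJ XJ') :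
    VLaw2 p zw Rj Rx R' y Xq' Xp' Uq' Up' N1' N2' XJ' Fv Gf κ where
  h0 := h.h0
  κ0 := h.κ0
  zj := h.zj
  zx := h.zx
  jr := h.jr
  xr := h.xr
  uq := (DE.ch h.h0 huq hup).symm.le.trans h.uq
  fr := by
    rw [← DE.ch h.h0 hup (DE.rfl' (fun ω => (zw ω, y ω))),
      ← DE.ch h.h0 hup (DE.rfl' (fun ω => (R' ω, y ω)))]
    exact h.fr
  fj := by
    rw [← DE.ch h.h0 hp (hq.pair (DE.rfl' (fun ω => (Rj ω, y ω))))]
    exact h.fj
  fx := by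
    rw [← DE.ch h.h0 hp (hq.pair (DE.rfl' (fun ω => (Rx ω, y ω))))]
    exact h.fx
  cn := by
    rw [← DE.ch h.h0 hp (hq.pair (DE.rfl' (fun ω => (zw ω, y ω))))]
    exact h.cn
  qp := by
    rw [← DE.ch h.h0 hq (hp.pair (DE.rfl' (fun ω => (zw ω, y ω))))]
    exact h.qp
  px := by
    rw [← DE.ch h.h0 hp (DE.rfl' (fun ω => (R' ω, y ω)))]
    exact h.px
  n1 := by
    rw [← DE.ch h.h0 h1 (hq.pair (DE.rfl' (fun ω => (Rj ω, y ω))))]
    exact h.n1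
  n2 := by
    rw [← DE.ch h.h0 h2 (DE.rfl' (fun ω => (R' ω, y ω)))]
    exact h.n2
  nl := by
    rw [← DE.ch h.h0 h2 (h1.pair (hJ.pair (DE.rfl' (fun ω => (zw ω, y ω))))),
      ← DE.ch h.h0 h2 (hJ.pair (DE.rfl' (fun ω => (Rj ω, y ω))))]
    exact h.nl
  jp := by
    rw [← DE.ch h.h0 hp (hJ.pair (DE.rfl' (fun ω => (zw ω, y ω))))]
    exact h.jp
  gj := by
    rw [← DE.ch h.h0 hJ (hp.pair (DE.rfl' (fun ω => (zw ω, y ω))))]
    exact h.gj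
  gx := by
    rw [← DE.ch h.h0 hJ (hp.pair (DE.rfl' (fun ω => (R' ω, y ω))))]
    exact h.gx

end

/-- **The numerical conditions.** -/
theorem vg_nums (k K : ℕ) {Ca ι : ℝ} (hCa : 0 ≤ Ca) (hι : 0 < ι) : ∃ τ : ℝ, 0 < τ ∧ τ ≤ ι ∧
    ∃ X₁ : ℕ, ∀ (X mm : ℕ) (κ e₁ d ψ U e : ℝ), X₁ ≤ X → 0 ≤ κ → 0 ≤ e₁ → 0 ≤ d → 0 ≤ ψ →
      κ ≤ τ * X → e₁ ≤ τ * X → d ≤ τ * X → ψ ≤ τ * X → (mm : ℝ) ≤ τ * X → 0 ≤ U →
      U ≤ 2 ^ mm → e = 65 * (70 * κ + 3 * e₁) + ((1 : ℕ) : ℝ) * Real.log 2 +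
        k * (d * Real.log 2 + Real.log 5) + (k + 1) * (2 * e₁) + Ca + ψ →
      Evn 1 k K U e ≤ ι * X := by
  obtain ⟨B, hB0, hB⟩ := cE0_le k K
  have hcV := cV_nonneg K
  have hk0 : (0 : ℝ) ≤ k := Nat.cast_nonneg k
  have hl2 : 0 < Real.log 2 := Real.log_pos one_lt_two
  have hl2' : Real.log 2 ≤ 1 := by
    have := Real.log_two_lt_d9
    linarith
  have hl5 : 0 < Real.log 5 := Real.log_pos (by norm_num)
  obtain ⟨T, hT⟩ : ∃ T : ℝ, T = 8 * (65 * 73 + k + 2 * (k + 1) + 1) + 2 * (k + 1) := ⟨_, rfl⟩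
  obtain ⟨R, hR⟩ : ∃ R : ℝ, R = 8 * (Real.log 2 + k * Real.log 5 + Ca) + 2 * B + k * cV K :=
    ⟨_, rfl⟩
  have hT0 : 0 < T := by rw [hT]; positivity
  have hT1 : 1 ≤ T := by rw [hT]; linarith
  have hR0 : 0 ≤ R := by rw [hR]; positivity
  obtain ⟨X₁, hX₁⟩ := exists_nat_ge (R / (ι / 2))
  refine ⟨ι / (2 * T), by positivity, ?_, X₁, ?_⟩
  · rw [div_le_iff₀ (by positivity)]
    nlinarith
  intro X mm κ e₁ d ψ U e hX hκ he₁ hd hψ gκ ge gd gψ gm hU0 hU he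
  obtain ⟨b1, -⟩ := hB U mm hU0 hU
  have hXR : (X₁ : ℝ) ≤ X := by exact_mod_cast hX
  have h1 : R ≤ ι / 2 * X := by
    have := hX₁.trans hXR
    rw [div_le_iff₀ (by positivity)] at this
    linarith
  obtain ⟨y, hy⟩ : ∃ y, y = ι / (2 * T) * X := ⟨_, rfl⟩
  rw [← hy] at gκ ge gd gψ gm
  have hTy : T * y = ι / 2 * X := by
    rw [hy]
    field_simp
  unfold Evn
  have k1 : k * (d * Real.log 2 + Real.log 5) ≤ k * y + k * Real.log 5 := by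
    have a1 : d * Real.log 2 ≤ d * 1 := mul_le_mul_of_nonneg_left hl2' hd
    have a2 : k * (d * Real.log 2) ≤ k * y := mul_le_mul_of_nonneg_left (by linarith) hk0
    linarith
  have k2 : ((k : ℝ) + 1) * (2 * e₁) ≤ (k + 1) * (2 * y) :=
    mul_le_mul_of_nonneg_left (by linarith) (by positivity)
  have k3 : ((k : ℝ) + 1) * mm ≤ (k + 1) * y := mul_le_mul_of_nonneg_left gm (by positivity)
  have k4 : T * y = 8 * (65 * (73 * y) + k * y + (k + 1) * (2 * y) + y) + 2 * ((k + 1) * y) := by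
    rw [hT]; ring
  push_cast at he ⊢
  rw [he]
  linarith

variable {m J : ℕ}

/-- **Closed gradient of one target**, on one event: `E'` is a code of the velocities, `sd` the side
path. -/
theorem vg_fin (k K : ℕ) (hK : 1 ≤ K) {h x₀ ε : ℝ} (hh : 0 < h) (hh1 : h ≤ 1) (hx : 0 < x₀)
    (hxh : x₀ < h) (hε : 0 < ε) :
    ∃ (τ π₀ : ℝ) (X₀ : ℕ), 0 < τ ∧ 0 < π₀ ∧
      ∀ {m J : ℕ} {F : Fam m J} {c : ℕ → Fin m} {t q w W X mm D : ℕ} {γ : ℕ → ℕ}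
        {B : F.Ω → Prop} {G₀ : PtT F → ℕ → MvPolynomial (Option (Fin m)) ℝ}
        {H : LnT F → ℕ → MvPolynomial (Option (Fin m)) ℝ} {gg : F.Ω → Fin k → ℝ}
        {ζ ρ₁ ρ₂ ρ₃ ξ₆ μ₁ μ₂ σ χ₁ χ₂ η : Type} {zw : F.Ω → ζ} {Rj : F.Ω → ρ₁} {Rx : F.Ω → ρ₂}
        {R' : F.Ω → ρ₃} {XJ : F.Ω → ξ₆} {M1 : F.Ω → μ₁} {M2 : F.Ω → μ₂} {sd : F.Ω → σ}
        {Cj : F.Ω → χ₁} {Cx : F.Ω → χ₂} {E' : F.Ω → η} {p : F.Ω → ℝ} {Nf Nn Nu Nv : ℕ → ℕ → ℝ}
        {nb : ℕ → ℝ} {vt U Fv Gf κ e₁ d ψ Ur ε₀ : ℝ} {j₀ : ℕ},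
        IsLaw p → (∀ ω, 0 < p ω → B ω) → w ≤ W → W + X ≤ J →
        (∀ s l, (H s l).totalDegree ≤ D) → D + 1 ≤ K →
        (∀ ω, B ω → G₀ (ptr F J ω) t = H (slam F w ω) t ∧
          ∀ l < k, G₀ (ptr F J ω) l = H (slam F w ω) l) →
        GrdV F c (fun i : Fin k => (i : ℕ)) (fun _ : Fin 1 => t) (fun _ => q) (fun _ => X) q X γ U
          B G₀ (fun ω _ => gg ω) (fun _ => ()) Cj Cx → U + 1 ≤ 2 ^ mm →
        -- the law
        VSd p zw Rj Rx Rx R' F.W (jh F c k w H fun l => Nn l 0) (jh F c k w H fun l => Nf l 0)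
          (jv F c k w H fun l => Nf l 1) (Mh F c t w H (γ t + q)) (Mh F c t w H (γ t + q + X))
          M1 M2 sd XJ Fv Gf κ → CH p zw Rx ≤ κ →
        CH p (jv F c k w H fun l => Nn l 1) (jv F c k w H fun l => Nf l 1) ≤ κ →
        Det p Rj Cj → Det p Rx Cx → Det p (slam F W) zw → Det p (slam F W) sd →
        -- the code of the velocities
        Det p (slam F W) E' → CH p E' (fun ω => (jv F c k w H (fun l => Nf l 1) ω, F.W ω)) ≤ e₁ →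
        CH p (jv F c k w H fun l => Nf l 1) (fun ω => (E' ω, F.W ω)) ≤ e₁ →
        -- the digits
        (∀ l < k, Nn l 0 * J ≤ (γ l + q : ℕ)) →
        (∀ l < k, Nn l 1 * J + W ≤ (γ l + q + (X + mm) : ℕ)) →
        (∀ l < k, Nu l 0 * J ≤ (γ l + q : ℕ)) →
        (∀ l < k, Nu l 1 * J + W ≤ (γ l + q + (X + mm) : ℕ)) →
        vt * J + W ≤ (γ t + q : ℕ) →
        (∀ ω, 0 < p ω → |(2 : ℝ) ^ (vt * J) * ojet F (c t) 1 (H (slam F w ω) t) ω| < 1) →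
        (∀ l < k, CH p (Pool.AVG71.cod F W 2 K (2 ^ (γ l + q + (X + mm))) (c l)
          (fun s => upw w W s) (fun s => H s l)) F.W ≤ e₁) →
        (∀ l < k, ((γ l + q + (X + mm) : ℕ) : ℝ) ≤ Nf l 0 * J) →
        (∀ l < k, ((γ l + q + (X + mm) : ℕ) : ℝ) ≤ Nf l 1 * J + W) →
        (∀ l < k, ((γ l + q : ℕ) : ℝ) ≤ Nv l 0 * J) →
        (∀ l < k, ((γ l + q + (X + mm) : ℕ) : ℝ) ≤ Nv l 1 * J + W) →
        (∀ l, Nv l 1 = Nn l 1) → 0 ≤ d → (∀ l < k, (Nv l 0 - Nn l 0) * J ≤ d) →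
        CH p (Pool.AVG57.cod F w (fun s => H s t) (c t) (γ t + q + X) 1 K)
          (fun ω => ((jh F c k w H (fun l => Nf l 0) ω, jv F c k w H (fun l => Nf l 1) ω),
            (sd ω, (zw ω, F.W ω)))) ≤ e₁ →
        CH p (Pool.AVG57.cod F w (fun s => H s t) (c t) (γ t + q) 0 K)
          (fun ω => ((jh F c k w H (fun l => Nu l 0) ω, jv F c k w H (fun l => Nf l 1) ω),
            (sd ω, (Rx ω, F.W ω)))) ≤ e₁ →
        CH p (Vv F c k w H fun l => nb l * J) (fun ω => (R' ω, F.W ω)) ≤ κ →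
        k * (X * Real.log 2) - κ ≤ CH p (Vv F c k w H fun l => nb l * J)
          (fun ω => (jh F c k w H (fun l => Nn l 0) ω, (Rx ω, F.W ω))) →
        (∀ l < k, ((γ l + q + X : ℕ) : ℝ) ≤ nb l * J) →
        (∀ l < k, nb l * J ≤ (γ l + q + (X + mm) : ℕ)) →
        -- the rows
        (∀ E : Set F.Ω, π₀ ≤ Pr p E → CH (rs p E) (Mh F c t w H (γ t + q + X))
          (fun ω => (Mh F c t w H (γ t + q) ω, (Vv F c k w H (fun l => nb l * J) ω,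
            (E' ω, (sd ω, (zw ω, F.W ω)))))) ≤ Ur) →
        TimW F p W j₀ ε₀ ψ → X₀ ≤ X → κ ≤ τ * X → e₁ ≤ τ * X → d ≤ τ * X → ψ * J ≤ τ * X →
        (mm : ℝ) ≤ τ * X → Ur ≤ (1 - h) * X * Real.log 2 + τ * X →
        ∃ mu : LnT F → Fin k → Polynomial ℝ, (∀ s i, (mu s i).natDegree ≤ K) ∧
          Pb p (fun ω => ∃ i : Fin k, (2 : ℝ) ^ (-(x₀ * X)) <
            |gg ω i - (mu (slam F W ω) i).eval (rt F W ω)|) ≤ ε := by
  obtain ⟨ι, π₀, hι, hπ₀, X0, Hm⟩ := pv_clo 1 k K hK hh hh1 hx hxh (σ := 1) one_pos hε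
  obtain ⟨Ca, hCa, HP⟩ := prvGen k 1 K
  obtain ⟨τ, hτ, hτι, X₁, hnum⟩ := vg_nums k K hCa hι
  have hl2 : 0 < Real.log 2 := Real.log_pos one_lt_two
  have hl5 : 0 < Real.log 5 := Real.log_pos (by norm_num)
  refine ⟨τ, π₀, max (max X0 X₁) (max K 1), hτ, hπ₀, ?_⟩
  intro m J F c t q w W X mm D γ B G₀ H gg ζ ρ₁ ρ₂ ρ₃ ξ₆ μ₁ μ₂ σ χ₁ χ₂ η zw Rj Rx R' XJ M1 M2 sd
    Cj Cx E' p Nf Nn Nu Nv nb vt U Fv Gf κ e₁ d ψ Ur ε₀ j₀ hp sup hwW hWX deg DK cls grd mU V hzx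
    huq hj hx' zL sL eL hE1 hE2 n0 n1 u0 u1 hvt hvs hc2 f0 f1 v0 v1 hv1 hd0 hv0 dj jt hD hf nb1
    nb2 row T hX gκ ge gd gψ hmm hUr
  have h0 := hp.nonneg
  have hW : W ≤ J := by omega
  have hw : w ≤ J := hwW.trans hW
  have hX0 : (0 : ℝ) ≤ X := Nat.cast_nonneg X
  have hXK : K ≤ X := (le_max_left _ _).trans ((le_max_right _ _).trans hX)
  have hX1 : 1 ≤ X := (le_max_right _ _).trans ((le_max_right _ _).trans hX)
  have hXX0 : X0 ≤ X := (le_max_left _ _).trans ((le_max_left _ _).trans hX)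
  have hXX1 : X₁ ≤ X := (le_max_right _ _).trans ((le_max_left _ _).trans hX)
  have hJ0 : (0 : ℝ) < J := by
    have : 0 < J := by omega
    exact_mod_cast this
  have hτX : τ * X ≤ ι * X := mul_le_mul_of_nonneg_right hτι hX0
  have hκ0 := V.V.κ0
  have he1 : 0 ≤ e₁ := (CH_nonneg h0 _ _).trans hE1
  have hψ0 : 0 ≤ ψ * J := by
    have h1 := T.mi (F.T1 W) (fun ω ν _ _ e => (Prod.ext_iff.mp (Prod.ext_iff.mp e).2).2)
      (fun _ _ _ _ e => e)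
    refine le_trans ?_ h1
    rw [Pool.AVG71.MI_eq h0]
    have := CH_mono_cond h0 (X := F.T) (W' := fun ω => (slam F W ω, F.T1 W ω)) (W := F.T1 W)
      (fun ω ν _ _ e => (Prod.ext_iff.mp e).2)
    linarith
  -- the context
  obtain ⟨z, hz⟩ : ∃ z : F.Ω → ζ × ((F.ζ × ℕ) × (η × σ)), z = fun ω =>
    (zw ω, ((slam F W ω).2, (E' ω, sd ω))) := ⟨_, rfl⟩
  have hz1 : Det p z (fun ω => (slam F W ω).2) := by
    rw [hz]
    exact fun ω ν _ _ e => (Prod.ext_iff.mp (Prod.ext_iff.mp e).2).1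
  have hz2 : Det p (slam F W) z := by
    rw [hz]
    exact fun ω ν hω hν e => Prod.ext (zL ω ν hω hν e) (Prod.ext (Prod.ext_iff.mp e).2
      (Prod.ext (eL ω ν hω hν e) (sL ω ν hω hν e)))
  have hy2 : Det p (fun ω => (rt F W ω, z ω)) (fun ω => (zw ω, (F.W ω, (E' ω, sd ω)))) := by
    rw [hz]
    intro ω ν _ _ e
    obtain ⟨a1, a2⟩ := Prod.ext_iff.mp e
    obtain ⟨a3, a4⟩ := Prod.ext_iff.mp a2
    obtain ⟨a5, a6⟩ := Prod.ext_iff.mp a4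
    exact Prod.ext a3 (Prod.ext (adM_T hW a1 a5) a6)
  have hy1 : Det p (fun ω => (zw ω, (F.W ω, (E' ω, sd ω)))) (fun ω => (rt F W ω, z ω)) := by
    rw [hz]
    intro ω ν _ _ e
    obtain ⟨a1, a2⟩ := Prod.ext_iff.mp e
    obtain ⟨a3', a4'⟩ := Prod.ext_iff.mp a2
    obtain ⟨a3, a4⟩ := Prod.ext_iff.mp a3'
    refine Prod.ext ?_ (Prod.ext a1 (Prod.ext (Prod.ext a4 ?_) a4'))
    · show rt F W ω = rt F W ν
      have b3 : F.T ω = F.T ν := a3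
      unfold rt
      rw [b3]
    · show F.T1 W ω = F.T1 W ν
      have b3 : F.T ω = F.T ν := a3
      unfold Fam.T1
      rw [b3]
  -- the law
  have L1 := law2 V hzx he1 huq hE1 hE2
  have dM : ∀ N : ℕ, DE p (Mh F c t w H N) (jp F c 0 (fun _ : Fin 1 => t) w H
      (fun _ => (N : ℝ) / J)) := by
    intro N
    have e1 : ∀ ω (i : Fin 1), jp F c 0 (fun _ : Fin 1 => t) w H (fun _ => (N : ℝ) / J) ω i =
        Mh F c t w H N ω := by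
      intro ω i
      unfold jp Mh
      rw [div_mul_cancel₀ _ hJ0.ne', Real.rpow_natCast]
    refine ⟨fun ω ν _ _ e => ?_, fun ω ν _ _ e => ?_⟩
    · funext i
      rw [e1, e1, e]
    · rw [← e1 ω 0, ← e1 ν 0, e]
  have dh : ∀ n : ℕ → ℝ, DE p (jh F c k w H n) (jp F c 0 (fun i : Fin k => (i : ℕ)) w H
      (fun l : Fin k => n l)) := fun n => ⟨jh_vv n, vv_jh n⟩
  have L2 := vlaw2_de L1 (dh fun l => Nn l 0) (dh fun l => Nf l 0) (DE.rfl' _) (DE.rfl' _)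
    (dM (γ t + q)) (dM (γ t + q + X)) (dh fun l => Nf l 0)
  have hκ2 : κ ≤ 70 * κ + 3 * e₁ := by linarith
  obtain ⟨e, he⟩ : ∃ e : ℝ, e = 65 * (70 * κ + 3 * e₁) + ((1 : ℕ) : ℝ) * Real.log 2 +
    k * (d * Real.log 2 + Real.log 5) + (k + 1) * (2 * e₁) + Ca + ψ * J := ⟨_, rfl⟩
  have hvf := V.vf hD hf
  have P := HP (F := F) (c := c) (mv := fun i : Fin k => (i : ℕ)) (tg := fun _ : Fin 1 => t)
    (qt := fun _ => q) (Xt := fun _ => X) (q := q) (w := w) (W := W) (X := X) (mm := mm) (D := D)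
    (γ := γ) (B := B) (G₀ := G₀) (H := H) (gg := fun ω _ => gg ω) (z := z) (zw := zw)
    (y := fun ω => (F.W ω, (E' ω, sd ω))) (Cj := Cj) (Cx := Cx) (Rj := Rj) (Rx := Rx) (R' := R')
    (p := p) (Nf := fun l => Nf l) (Nn := fun l => Nn l) (Nu := fun l => Nu l)
    (Nv := fun l => Nv l) (nb := fun l => nb l) (Mf := fun _ => ((γ t + q + X : ℕ) : ℝ) / J)
    (Mn := fun _ => ((γ t + q : ℕ) : ℝ) / J) (vt := fun _ => vt) (U := U) (e₁ := 2 * e₁) (d := d)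
    (e := e) (ε₀ := ε₀) (ψ := ψ) (j₀ := j₀) hp sup hwW hW deg DK hXK (fun _ => le_rfl)
    (fun ω hω => ⟨fun _ => (cls ω hω).1, fun l => (cls ω hω).2 l l.2⟩)
    { U0 := grd.U0
      bm := grd.bm
      bj := fun ω ν a b e1 _ e3 e4 => grd.bj ω ν a b e1 rfl e3 e4
      bx := fun ω ν a b e1 _ e3 e4 => grd.bx ω ν a b e1 rfl e3 e4
      nx := fun ω ν a b e1 _ e3 e4 => grd.nx ω ν a b e1 rfl e3 e4 }
    mU hz1 hz2 hy1 hy2 L2 hj hx' (fun l => n0 l l.2) (fun l => n1 l l.2) (fun l => u0 l l.2)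
    (fun l => u1 l l.2) (fun _ => by rw [div_mul_cancel₀ _ hJ0.ne'])
    (fun _ => by rw [div_mul_cancel₀ _ hJ0.ne']) (fun _ => hvt) (fun ω hω _ => hvs ω hω)
    (fun l => (hc2 l l.2).trans (by linarith)) (fun l => f0 l l.2) (fun l => f1 l l.2)
    (fun l => v0 l l.2) (fun l => v1 l l.2) (fun l => hv1 l) hd0 (fun l => hv0 l l.2)
    (fun _ => by
      refine le_trans (CH_mono_cond h0 fun ω ν hω hν e => ?_) (dj.trans (by linarith))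
      obtain ⟨a1, a2⟩ := Prod.ext_iff.mp e
      obtain ⟨a3, a4⟩ := Prod.ext_iff.mp a2
      obtain ⟨a5, a6⟩ := Prod.ext_iff.mp a4
      obtain ⟨a7, a8⟩ := Prod.ext_iff.mp a6
      exact Prod.ext (Prod.ext (jetm_jh Nf ω ν hω hν a1) (jetm_jv Nf ω ν hω hν a1))
        (Prod.ext a8 (Prod.ext a3 a5)))
    (fun _ => by
      have k1 := CH_le_add h0 (Pool.AVG57.cod F w (fun s => H s t) (c t) (γ t + q) 0 K)
        (jv F c k w H fun l => Nf l 1) (fun ω => (jetm F c (fun i : Fin k => (i : ℕ)) w H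
          (fun l => Nu l) ω, (Rx ω, (F.W ω, (E' ω, sd ω)))))
      have k2 : CH p (jv F c k w H fun l => Nf l 1) (fun ω => (jetm F c
          (fun i : Fin k => (i : ℕ)) w H (fun l => Nu l) ω, (Rx ω, (F.W ω, (E' ω, sd ω))))) ≤
          e₁ := le_trans (CH_mono_cond h0 fun ω ν hω hν e => by
            simp only [Prod.mk.injEq] at e ⊢
            tauto) hE2
      have k3 : CH p (Pool.AVG57.cod F w (fun s => H s t) (c t) (γ t + q) 0 K)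
          (fun ω => (jv F c k w H (fun l => Nf l 1) ω, (jetm F c (fun i : Fin k => (i : ℕ)) w H
            (fun l => Nu l) ω, (Rx ω, (F.W ω, (E' ω, sd ω)))))) ≤ e₁ := le_trans
        (CH_mono_cond h0 fun ω ν hω hν e => by
          simp only [Prod.mk.injEq] at e ⊢
          exact ⟨⟨jetm_jh Nu ω ν hω hν e.2.1, e.1⟩, e.2.2.2.2.2, e.2.2.1, e.2.2.2.1⟩) jt
      linarith)
    (by
      have k1 : CH p (jp F c 0 (fun i : Fin k => (i : ℕ)) w H fun l => nb l)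
          (fun ω => (R' ω, (F.W ω, (E' ω, sd ω)))) ≤ CH p (Vv F c k w H fun l => nb l * J)
          (fun ω => (R' ω, F.W ω)) := CH_mono_cond h0 fun ω ν hω hν e => by
        simp only [Prod.mk.injEq] at e ⊢
        tauto
      linarith)
    (by
      have k1 := CH_ge h0 (Vv F c k w H fun l => nb l * J) E' (fun ω =>
        (jh F c k w H (fun l => Nn l 0) ω, (Rx ω, ((jv F c k w H (fun l => Nf l 1) ω, sd ω),
          F.W ω))))
      have k2 : CH p E' (fun ω => (jh F c k w H (fun l => Nn l 0) ω, (Rx ω,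
          ((jv F c k w H (fun l => Nf l 1) ω, sd ω), F.W ω)))) ≤ e₁ := le_trans
        (CH_mono_cond h0 fun ω ν hω hν e => by
          simp only [Prod.mk.injEq] at e ⊢
          tauto) hE1
      have k3 : CH p (Vv F c k w H fun l => nb l * J) (fun ω => (E' ω,
          (jh F c k w H (fun l => Nn l 0) ω, (Rx ω, ((jv F c k w H (fun l => Nf l 1) ω, sd ω),
            F.W ω))))) ≤ CH p (jp F c 0 (fun i : Fin k => (i : ℕ)) w H fun l => nb l)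
          (fun ω => (jp F c 0 (fun i : Fin k => (i : ℕ)) w H (fun l => Nn l 0) ω,
            (Rx ω, (F.W ω, (E' ω, sd ω))))) := by
        have a1 : CH p (jp F c 0 (fun i : Fin k => (i : ℕ)) w H fun l => nb l)
          (fun ω => (jp F c 0 (fun i : Fin k => (i : ℕ)) w H (fun l => Nn l 0) ω,
            (Rx ω, (F.W ω, (E' ω, sd ω))))) = CH p (Vv F c k w H fun l => nb l * J)
          (fun ω => (jh F c k w H (fun l => Nn l 0) ω, (Rx ω, (F.W ω, (E' ω, sd ω))))) :=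
          (DE.ch h0 (DE.rfl' _) ((dh fun l => Nn l 0).pair (DE.rfl' _))).symm
        rw [a1]
        exact CH_mono_cond h0 fun ω ν hω hν e => by
          simp only [Prod.mk.injEq] at e ⊢
          tauto
      linarith)
    T (by linarith) (by rw [he])
  have hev := hnum X mm κ e₁ d (ψ * J) U e hXX1 hκ0 he1 hd0 hψ0 gκ ge gd gψ hmm grd.U0
    (by linarith) he
  have hrow : ∀ E : Set F.Ω, π₀ ≤ Pr p E → CH (rs p E)
      (Mh F c ((fun _ : Fin 1 => t) 0) w H (γ ((fun _ : Fin 1 => t) 0) + (fun _ : Fin 1 => q) 0 + X))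
      (fun ω => ((Mh F c ((fun _ : Fin 1 => t) 0) w H
        (γ ((fun _ : Fin 1 => t) 0) + (fun _ : Fin 1 => q) 0) ω,
        oth 0 (Mm F c (fun _ : Fin 1 => t) w H (fun u => γ ((fun _ : Fin 1 => t) u) +
          (fun _ : Fin 1 => q) u + (fun _ : Fin 1 => X) u) ω)),
        (Vm F c (fun i : Fin k => (i : ℕ)) w H (fun j => nb j * J) ω, (rt F W ω, z ω)))) ≤ Ur := by
    intro E hE
    have hpos : 0 < Pr p E := lt_of_lt_of_le hπ₀ hE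
    have hE' : IsLaw (rs p E) :=
      ⟨cond_nonneg h0 (fun ω => ω ∈ E) True, sum_cond p (fun ω => ω ∈ E) hpos.ne'⟩
    refine le_trans (CH_mono_cond hE'.nonneg fun ω ν _ _ e => ?_) (row E hE)
    obtain ⟨a1, a2⟩ := Prod.ext_iff.mp e
    obtain ⟨a3, a4⟩ := Prod.ext_iff.mp a1
    obtain ⟨a5, a6⟩ := Prod.ext_iff.mp a2
    obtain ⟨a7, a8⟩ := Prod.ext_iff.mp a6
    rw [hz] at a8
    obtain ⟨a10, a11⟩ := Prod.ext_iff.mp a8
    obtain ⟨a12, a13⟩ := Prod.ext_iff.mp a11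
    obtain ⟨a14, a15⟩ := Prod.ext_iff.mp a13
    exact Prod.ext a3 (Prod.ext a5 (Prod.ext a14 (Prod.ext a15 (Prod.ext a10
      (adM_T hW a7 a12)))))
  obtain ⟨mu, b1, -, b3⟩ := Hm P 0 (Ur := Ur) (ψ := ψ) (ε₀ := ε₀) (j₀ := j₀)
    (fun l => nb1 l l.2) (fun l => nb2 l l.2) rfl (fun ω _ u hu j => absurd (Subsingleton.elim u 0)
      hu) hrow T hz2 hXX0 hWX (by linarith) (by linarith) hev (by linarith)
  exact ⟨mu, b1, b3⟩

end Pool.VG83
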